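import Pool.Agent.T44.EF.Stm

/-!
# Statements of independent lemmas (stubs) of the project GF, second part: central fibres with few periods
-/

set_option autoImplicit false

open Matrix

namespace Pool.Agent.T44.GF

open Pool.Agent.Y118.HP Pool.Agent.Y123.ST

/-- stub GROW: if the numbers `x i / lam` are algebraic over `ℚ(θ_1, …, θ_s)` then the `ℚ`-space spanned by the products of
`e` of the numbers `x i` has dimension at most `C (e + 1)^s` -/
def S_GROW : Prop := ∀ (s : ℕ) (θ : Fin s → ℂ) (ι : Type) [Finite ι] (x : ι → ℂ) (lam : ℂ), lam ≠ 0 →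
  (∀ i, IsAlgebraic (IntermediateField.adjoin ℚ (Set.range θ)) (x i / lam)) →
  ∃ C : ℕ, ∀ e : ℕ, Module.finrank ℚ ((Submodule.span ℚ (Set.range x)) ^ e : Submodule ℚ ℂ) ≤ C * (e + 1) ^ s

/-- stub CODIM2: a subalgebra of the symplectic Lie algebra `sp_n` of codimension at most `n - 2` is everything (`n ≥ 4`) -/
def S_CODIM2 : Prop := ∀ (n : ℕ), Even n → 4 ≤ n → ∀ H : Submodule ℂ (Matrix (Fin n) (Fin n) ℂ),
  (∀ X ∈ H, ∀ Y ∈ H, X * Y - Y * X ∈ H) →
  (∀ v : Fin (n - 1) → (Fin n → ℂ), ¬ LinearIndependent ℂ (fun i => H.mkQ (EE (v i)))) →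
  ∀ v : Fin n → ℂ, EE v ∈ H

end Pool.Agent.T44.GF
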