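import Pool.Agent.T44.GF.Tr
import Pool.Agent.T44.GF.Stm3

/-!
# Matrices with entries algebraic over a field generated by few elements
-/

set_option autoImplicit false
set_option linter.unusedSectionVars false

open Matrix

namespace Pool.Agent.T44.GF

variable {M : Type} [Fintype M] [DecidableEq M] {F : IntermediateField ℚ ℂ}

/-- the algebraic closure of `F` in `ℂ` -/
noncomputable def acl (F : IntermediateField ℚ ℂ) : Subfield ℂ := (algebraicClosure F ℂ).toSubfield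

theorem mem_acl {z : ℂ} : z ∈ acl F ↔ IsAlgebraic F z := mem_algebraicClosure_iff

theorem alg_inv {x : Matrix M M ℂ} {lam : ℂ} (hlam : lam ≠ 0) (hx : ∀ i j, IsAlgebraic F (x i j / lam))
    (hd : IsUnit x.det) (i j : M) : IsAlgebraic F (x⁻¹ i j / lam⁻¹) := by
  set x' : Matrix M M ℂ := lam⁻¹ • x with hx'
  have h1 : ∀ i j, x' i j ∈ acl F := by
    intro i j
    rw [mem_acl]
    have h2 := hx i j
    rw [div_eq_inv_mul] at h2
    exact h2
  have h2 : IsUnit x'.det := by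
    rw [hx', det_smul]
    exact ((isUnit_iff_ne_zero.2 (inv_ne_zero hlam)).pow _).mul hd
  have h3 : x⁻¹ = lam⁻¹ • x'⁻¹ := by
    apply inv_eq_right_inv
    have h4 : x = lam • x' := by rw [hx', smul_smul, mul_inv_cancel₀ hlam, one_smul]
    rw [h4, Matrix.smul_mul, Matrix.mul_smul, smul_smul, mul_inv_cancel₀ hlam, one_smul]
    exact mul_nonsing_inv _ h2
  have h4 : x⁻¹ i j / lam⁻¹ = x'⁻¹ i j := by
    rw [h3, Matrix.smul_apply, smul_eq_mul]
    field_simp
  rw [h4, ← mem_acl]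
  exact inv_memK h1 h2 i j

theorem exists_space (hG : S_GROW) {s : ℕ} {θ : Fin s → ℂ} {lam : ℂ} (hlam : lam ≠ 0) {ι : Type} [Finite ι] (x : ι → ℂ)
    (hx : ∀ i, IsAlgebraic (IntermediateField.adjoin ℚ (Set.range θ)) (x i / lam)) :
    ∃ (𝒱 : Submodule ℚ ℂ) (C : ℕ), 𝒱.FG ∧ (∀ e, Module.finrank ℚ (𝒱 ^ e : Submodule ℚ ℂ) ≤ C * (e + 1) ^ s) ∧
      ∀ i, x i ∈ 𝒱 := by
  obtain ⟨C, hC⟩ := hG s θ ι x lam hlam hx
  exact ⟨Submodule.span ℚ (Set.range x), C, Submodule.fg_span (Set.finite_range _), hC,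
    fun i => Submodule.subset_span ⟨i, rfl⟩⟩

end Pool.Agent.T44.GF
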