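import Pool.Agent.T44.GF.Stm4
import Pool.Agent.Y123.ST.Out
import Pool.Agent.H37PG.Gal

/-!
# Subtorsors which are stable under classical groups (after `Pool/Agent/Y123/GN/E8`, for equal blocks)
-/

set_option autoImplicit false
set_option linter.unusedSectionVars false

open Matrix

namespace Pool.Agent.T44.GF

open Pool.Agent.TH127.PT Pool.Agent.Y123.ST Pool.Agent.TH119.DR Pool.Agent.Y123.GN Pool.Agent.Y123.SR

section one

variable {n : ℕ}

/-- the matrix is symplectic -/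
def Spf (B : Matrix (Fin n) (Fin n) ℂ) : Prop := IsUnit B ∧ Bᵀ = -B

/-- symplectic matrices have determinant one -/
theorem sp_det1 {B g : Matrix (Fin n) (Fin n) ℂ} (hB : Spf B) (hg : g * B * gᵀ = B) : g.det = 1 := by
  have hdet : B.det ≠ 0 := ((Matrix.isUnit_iff_isUnit_det _).1 hB.1).ne_zero
  have hJ : (B⁻¹)ᵀ = -B⁻¹ := inv_skew hB.2 hdet
  let S : Submonoid (Matrix (Fin n) (Fin n) ℂ) :=
    { carrier := {x | x.det = 1}
      one_mem' := det_one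
      mul_mem' := by
        intro a b ha hb
        show (a * b).det = 1
        rw [det_mul, ha, hb, one_mul] }
  exact sp_gen' hJ (inv_det hdet) S (fun v s => det_exp (nv_nil hJ v) s) g (iso_flip' hdet hg)

/-- two isomorphisms which respect the forms and have the same determinant differ by an element of the group -/
theorem quot_GB {B Q X Y : Matrix (Fin n) (Fin n) ℂ} {μ : ℂ} (hμ : μ ≠ 0) (hX : IsUnit X) (hXQ : X * Q * Xᵀ = μ • B)
    (hYQ : Y * Q * Yᵀ = μ • B) (hd : Spf B ∨ X.det = Y.det) : ∃ g ∈ GB B, (g : Matrix (Fin n) (Fin n) ℂ) * X = Y := by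
  have hXd : IsUnit X.det := (Matrix.isUnit_iff_isUnit_det _).1 hX
  have h1 : X⁻¹ * X = 1 := Matrix.nonsing_inv_mul _ hXd
  have h2 : X * X⁻¹ = 1 := Matrix.mul_nonsing_inv _ hXd
  have h3 : (Y * X⁻¹) * X = Y := by rw [Matrix.mul_assoc, h1, Matrix.mul_one]
  have h4 : (Y * X⁻¹) * B * (Y * X⁻¹)ᵀ = B := by
    have h5 : X⁻¹ * B * (X⁻¹)ᵀ = μ⁻¹ • Q := by
      have h6 : B = μ⁻¹ • (X * Q * Xᵀ) := by rw [hXQ, smul_smul, inv_mul_cancel₀ hμ, one_smul]
      have h7 : Xᵀ * (X⁻¹)ᵀ = 1 := by rw [← transpose_mul, h1, transpose_one]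
      rw [h6, Matrix.mul_smul, Matrix.smul_mul]
      congr 1
      calc X⁻¹ * (X * Q * Xᵀ) * (X⁻¹)ᵀ = (X⁻¹ * X) * Q * (Xᵀ * (X⁻¹)ᵀ) := by simp only [Matrix.mul_assoc]
        _ = Q := by rw [h1, h7, Matrix.one_mul, Matrix.mul_one]
    calc (Y * X⁻¹) * B * (Y * X⁻¹)ᵀ = Y * (X⁻¹ * B * (X⁻¹)ᵀ) * Yᵀ := by
          rw [transpose_mul]
          simp only [Matrix.mul_assoc]
      _ = μ⁻¹ • (Y * Q * Yᵀ) := by rw [h5, Matrix.mul_smul, Matrix.smul_mul]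
      _ = B := by rw [hYQ, smul_smul, inv_mul_cancel₀ hμ, one_smul]
  have h5 : (Y * X⁻¹).det = 1 := by
    rcases hd with hd | hd
    · exact sp_det1 hd h4
    · rw [det_mul, ← hd, ← det_mul, h2, det_one]
  have h6 : IsUnit (Y * X⁻¹) := (Matrix.isUnit_iff_isUnit_det _).2 (by rw [h5]; exact isUnit_one)
  exact ⟨h6.unit, ⟨h5, h4⟩, h3⟩

/-- the classical forms, with the bound for the codimensions of the subalgebras -/
def ClS (s : ℕ) (B : Matrix (Fin n) (Fin n) ℂ) : Prop :=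
  (B = 0 ∧ 3 ≤ n ∧ s + 2 ≤ n) ∨ (Spf B ∧ 4 ≤ n ∧ s + 2 ≤ n) ∨ (IsUnit B ∧ Bᵀ = B ∧ 5 ≤ n ∧ n ≠ 6 ∧ s + 3 ≤ n)

theorem cls_perf {s : ℕ} {B : Matrix (Fin n) (Fin n) ℂ} (hB : ClS s B) : GB B ≤ ⁅Ug (GB B), Ug (GB B)⁆ := by
  rcases hB with ⟨rfl, -, -⟩ | ⟨h, -, -⟩ | ⟨h1, h2, h3, -⟩
  · exact sl_perf
  · exact sp_perf h.2 ((Matrix.isUnit_iff_isUnit_det _).1 h.1).ne_zero
  · exact so_perf (by omega) h2 ((Matrix.isUnit_iff_isUnit_det _).1 h1).ne_zero

/-- the elements of the group are products of exponentials -/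
theorem mem_EG {B : Matrix (Fin n) (Fin n) ℂ} (hB : GB B ≤ ⁅Ug (GB B), Ug (GB B)⁆) {g : (Matrix (Fin n) (Fin n) ℂ)ˣ}
    (hg : g ∈ GB B) : (g : Matrix (Fin n) (Fin n) ℂ) ∈ EG (Nil (GB B)) := by
  have h1 : ⁅Ug (GB B), Ug (GB B)⁆ ≤ Ug (GB B) := by
    rw [Subgroup.commutator_le]
    intro a ha b hb
    rw [commutatorElement_def]
    exact (Ug (GB B)).mul_mem ((Ug (GB B)).mul_mem ((Ug (GB B)).mul_mem ha hb) ((Ug (GB B)).inv_mem ha))
      ((Ug (GB B)).inv_mem hb)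
  have h2 : g ∈ Ug (GB B) := h1 (hB hg)
  have h3 : ∀ u ∈ Ug (GB B), (u : Matrix (Fin n) (Fin n) ℂ) ∈ EG (Nil (GB B)) ∧
      ((u⁻¹ : (Matrix (Fin n) (Fin n) ℂ)ˣ) : Matrix (Fin n) (Fin n) ℂ) ∈ EG (Nil (GB B)) := by
    intro u hu
    induction hu using Subgroup.closure_induction with
    | mem u hu =>
      obtain ⟨N, hN, t, hut⟩ := hu
      refine ⟨Submonoid.subset_closure ⟨N, hN, t, hut⟩, Submonoid.subset_closure ⟨N, hN, -t, ?_⟩⟩
      have h4 : (u : Matrix (Fin n) (Fin n) ℂ) * IsNilpotent.exp ((-t) • N) = 1 := by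
        rw [hut, neg_smul]
        exact IsNilpotent.exp_mul_exp_neg_self (hN.1.smul t)
      calc ((u⁻¹ : (Matrix (Fin n) (Fin n) ℂ)ˣ) : Matrix (Fin n) (Fin n) ℂ) =
            ((u⁻¹ : (Matrix (Fin n) (Fin n) ℂ)ˣ) : Matrix (Fin n) (Fin n) ℂ) * (u * IsNilpotent.exp ((-t) • N)) := by
            rw [h4, Matrix.mul_one]
        _ = IsNilpotent.exp ((-t) • N) := by rw [← Matrix.mul_assoc, Units.inv_mul, Matrix.one_mul]
    | one => exact ⟨Submonoid.one_mem _, by rw [inv_one]; exact Submonoid.one_mem _⟩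
    | mul a b _ _ ha hb =>
      refine ⟨by rw [Units.val_mul]; exact Submonoid.mul_mem _ ha.1 hb.1, ?_⟩
      rw [_root_.mul_inv_rev, Units.val_mul]
      exact Submonoid.mul_mem _ hb.2 ha.2
    | inv a _ ha => exact ⟨ha.2, by rw [inv_inv]; exact ha.1⟩
  exact (h3 g h2).1

end one

section torsors

variable {B₀ : Type} [Fintype B₀] [DecidableEq B₀] {n k : ℕ} {K : Subfield ℂ} {T : Set (Matrix (I2 B₀ n k) (I2 B₀ n k) ℂ)}
  {B : Matrix (Fin n) (Fin n) ℂ}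

theorem E2_unit_blk {x : Matrix B₀ B₀ ℂ} {X : Fin k → Matrix (Fin n) (Fin n) ℂ} (h : IsUnit (E2 x X)) (i : Fin k) :
    IsUnit (X i) := by
  have h1 : E2 x X * (E2 x X)⁻¹ = 1 := Matrix.mul_nonsing_inv _ ((Matrix.isUnit_iff_isUnit_det _).1 h)
  set U := (E2 x X)⁻¹ with hU
  have h2 : X i * Matrix.of (fun a b => U (Sum.inr (a, i)) (Sum.inr (b, i))) = 1 := by
    ext a b
    have h3 : (E2 x X * U) (Sum.inr (a, i)) (Sum.inr (b, i)) = (1 : Matrix (I2 B₀ n k) (I2 B₀ n k) ℂ) (Sum.inr (a, i))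
      (Sum.inr (b, i)) := by rw [h1]
    have h4 : (1 : Matrix (I2 B₀ n k) (I2 B₀ n k) ℂ) (Sum.inr (a, i)) (Sum.inr (b, i)) =
        (1 : Matrix (Fin n) (Fin n) ℂ) a b := by
      rw [Matrix.one_apply, Matrix.one_apply]
      by_cases hab : a = b
      · subst hab
        simp
      · simp [hab]
    rw [h4] at h3
    rw [← h3, Matrix.mul_apply, Matrix.mul_apply, Fintype.sum_sum_type, Fintype.sum_prod_type_right]
    have h5 : ∀ c : B₀, E2 x X (Sum.inr (a, i)) (Sum.inl c) = 0 := fun c => rfl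
    have h6 : ∀ j (c : Fin n), E2 x X (Sum.inr (a, i)) (Sum.inr (c, j)) = if i = j then X i a c else 0 := by
      intro j c
      show blockDiagonal X (a, i) (c, j) = _
      rw [blockDiagonal_apply]
    simp only [h5, h6, zero_mul, Finset.sum_const_zero, zero_add]
    rw [Finset.sum_eq_single i]
    · refine Finset.sum_congr rfl fun c _ => ?_
      rw [if_pos rfl]
      rfl
    · intro j _ hj
      refine Finset.sum_eq_zero fun c _ => ?_
      rw [if_neg (Ne.symm hj), zero_mul]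
    · intro hi
      exact absurd (Finset.mem_univ i) hi
  exact (Matrix.isUnit_iff_isUnit_det _).2 (IsUnit.of_mul_eq_one (b := (Matrix.of
    (fun a b => U (Sum.inr (a, i)) (Sum.inr (b, i)))).det) (by rw [← det_mul, h2, det_one]))

/-- the fibres of the subtorsors -/
theorem fibre_full2 (hT : IsSubtorsor K T)
    (hst : ∀ g : Fin k → (Matrix (Fin n) (Fin n) ℂ)ˣ, (∀ i, g i ∈ GB B) →
      ∀ x ∈ T, E2 1 (fun i => (g i : Matrix (Fin n) (Fin n) ℂ)) * x ∈ T)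
    {x₀ : Matrix B₀ B₀ ℂ} {X Y Q : Fin k → Matrix (Fin n) (Fin n) ℂ} {μ : Fin k → ℂ} (hμ : ∀ i, μ i ≠ 0)
    (hx : E2 x₀ X ∈ T) (hX : ∀ i, X i * Q i * (X i)ᵀ = μ i • B) (hY : ∀ i, Y i * Q i * (Y i)ᵀ = μ i • B)
    (hd : ∀ i, Spf B ∨ (X i).det = (Y i).det) : E2 x₀ Y ∈ T := by
  have hu : ∀ i, IsUnit (X i) := E2_unit_blk (hT.isUnit _ hx)
  choose g hg hgX using fun i => quot_GB (hμ i) (hu i) (hX i) (hY i) (hd i)
  have h1 := hst g hg _ hx
  rw [E2_mul, Matrix.one_mul] at h1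
  have h2 : (fun i => (g i : Matrix (Fin n) (Fin n) ℂ) * X i) = Y := by
    funext i
    exact hgX i
  rwa [h2] at h1

/-- `2πi` -/
noncomputable def tp : ℂ := 2 * Real.pi * Complex.I

theorem tp_tr {K : Subfield ℂ} (hK : ∀ x ∈ K, IsAlgebraic ℚ x) : Transcendental K tp := by
  have _ : Algebra.IsAlgebraic ℚ K := ⟨fun x => by
    have h1 := hK x x.2
    exact (isAlgebraic_algebraMap_iff (A := ℂ) (algebraMap K ℂ).injective).1 h1⟩
  intro h
  exact transc_two_pi_I (h.restrictScalars ℚ)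

theorem tp_ne : tp ≠ 0 := by
  intro h
  have h1 := transc_two_pi_I
  apply h1
  show IsAlgebraic ℚ tp
  rw [h]
  exact isAlgebraic_zero

/-- the torsor of the isomorphisms which respect forms and determinants, with the Tate object of weight one as constant
part -/
def FT2 (B₀ : Type) [Fintype B₀] [DecidableEq B₀] (B : Matrix (Fin n) (Fin n) ℂ) (Q : Fin k → Matrix (Fin n) (Fin n) ℂ)
    (w m : Fin k → ℤ) (δ : Fin k → ℂ) : Set (Matrix (I2 B₀ n k) (I2 B₀ n k) ℂ) :=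
  {y | ∃ z : ℂ, z ≠ 0 ∧ ∃ X : Fin k → Matrix (Fin n) (Fin n) ℂ, y = E2 (z • (1 : Matrix B₀ B₀ ℂ)) X ∧
    ∀ i, X i * Q i * (X i)ᵀ = z ^ (w i) • B ∧ (Spf B ∨ (X i).det = δ i * z ^ (m i))}

theorem smul_one_inj2 [Nonempty B₀] {z z' : ℂ} (h : z • (1 : Matrix B₀ B₀ ℂ) = z' • (1 : Matrix B₀ B₀ ℂ)) : z = z' := by
  obtain ⟨b⟩ := ‹Nonempty B₀›
  have h1 := congrFun (congrFun h b) b
  rw [Matrix.smul_apply, Matrix.smul_apply, Matrix.one_apply_eq, smul_eq_mul, smul_eq_mul, mul_one, mul_one] at h1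
  exact h1

/-- all values of the Tate coordinate occur -/
theorem tate_all2 (hK : ∀ x ∈ K, IsAlgebraic ℚ x) (hT : IsSubtorsor K T) {Z : Fin k → Matrix (Fin n) (Fin n) ℂ}
    (hc : E2 (tp • (1 : Matrix B₀ B₀ ℂ)) Z ∈ T) {z : ℂ} (hz : z ≠ 0) :
    ∃ X : Fin k → Matrix (Fin n) (Fin n) ℂ, E2 (z • (1 : Matrix B₀ B₀ ℂ)) X ∈ T := by
  have hτ : Transcendental K tp := tp_tr hK
  -- transcendental values
  have htr : ∀ z : ℂ, Transcendental K z → ∃ X : Fin k → Matrix (Fin n) (Fin n) ℂ,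
      E2 (z • (1 : Matrix B₀ B₀ ℂ)) X ∈ T := by
    intro z hz
    obtain ⟨σ, h1, h2⟩ := Pool.Agent.H37PG.exists_aut hτ hz
    have h3 := aut_mem hT (σ := σ) (fun x hx => h1 ⟨x, hx⟩) hc
    refine ⟨fun i => (Z i).map σ, ?_⟩
    have h4 : (E2 (tp • (1 : Matrix B₀ B₀ ℂ)) Z).map σ = E2 (z • (1 : Matrix B₀ B₀ ℂ)) (fun i => (Z i).map σ) := by
      rw [E2_map]
      congr 1
      ext a b
      rw [Matrix.map_apply, Matrix.smul_apply, Matrix.smul_apply, smul_eq_mul, smul_eq_mul, map_mul, h2,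
        Matrix.one_apply, apply_ite σ, map_one, map_zero]
    rw [h4] at h3
    exact h3
  by_cases hza : Transcendental K z
  · exact htr z hza
  have hza' : IsAlgebraic K z := by
    by_contra h
    exact hza h
  have h2 : Transcendental K (tp ^ 2) := fun h => hτ (h.of_pow (by norm_num))
  have h3 : Transcendental K (z * tp) := by
    intro h
    apply hτ
    have h4 : tp = z⁻¹ * (z * tp) := by rw [← mul_assoc, inv_mul_cancel₀ hz, one_mul]
    rw [h4]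
    exact hza'.inv.mul h
  obtain ⟨X₂, hX₂⟩ := htr _ h2
  obtain ⟨X₃, hX₃⟩ := htr _ h3
  have h4 := hT.torsor _ hc _ hX₂ _ hX₃
  have hinv : (E2 ((tp ^ 2) • (1 : Matrix B₀ B₀ ℂ)) X₂)⁻¹ =
      E2 (((tp ^ 2)⁻¹ : ℂ) • (1 : Matrix B₀ B₀ ℂ)) (fun i => (X₂ i)⁻¹) := by
    refine Matrix.inv_eq_right_inv ?_
    rw [E2_mul, smul_mul_smul_comm, Matrix.one_mul, mul_inv_cancel₀ (pow_ne_zero 2 tp_ne), one_smul]
    have h5 : (fun i => X₂ i * (X₂ i)⁻¹) = 1 := by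
      funext i
      exact Matrix.mul_nonsing_inv _ ((Matrix.isUnit_iff_isUnit_det _).1 (E2_unit_blk (hT.isUnit _ hX₂) i))
    rw [h5, E2_one]
  rw [hinv, E2_mul, E2_mul, smul_mul_smul_comm, smul_mul_smul_comm, Matrix.one_mul, Matrix.one_mul] at h4
  have h5 : tp * (tp ^ 2)⁻¹ * (z * tp) = z := by
    have := tp_ne
    field_simp
  rw [h5] at h4
  exact ⟨_, h4⟩

/-- **The absolute case.** -/
theorem absolute2 (hK : ∀ x ∈ K, IsAlgebraic ℚ x) [Nonempty B₀] (hT : IsSubtorsor K T)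
    {Z : Fin k → Matrix (Fin n) (Fin n) ℂ} (hc : E2 (tp • (1 : Matrix B₀ B₀ ℂ)) Z ∈ T)
    (hst : ∀ g : Fin k → (Matrix (Fin n) (Fin n) ℂ)ˣ, (∀ i, g i ∈ GB B) →
      ∀ x ∈ T, E2 1 (fun i => (g i : Matrix (Fin n) (Fin n) ℂ)) * x ∈ T)
    {Q : Fin k → Matrix (Fin n) (Fin n) ℂ} {w m : Fin k → ℤ} {δ : Fin k → ℂ} (hTF : T ⊆ FT2 B₀ B Q w m δ) :
    T = FT2 B₀ B Q w m δ := by
  refine Set.Subset.antisymm hTF ?_
  rintro _ ⟨z, hz, Y, rfl, hY⟩
  obtain ⟨X, hX⟩ := tate_all2 hK hT hc hz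
  obtain ⟨z', hz', X', hXX', hX'⟩ := hTF hX
  obtain ⟨h1, h2⟩ := E2_inj hXX'
  have h3 : z = z' := smul_one_inj2 h1
  subst h3
  subst h2
  refine fibre_full2 hT hst (μ := fun i => z ^ (w i)) (fun i => zpow_ne_zero _ hz) hX (fun i => (hX' i).1)
    (fun i => (hY i).1) fun i => ?_
  rcases (hX' i).2 with h4 | h4
  · exact Or.inl h4
  · rcases (hY i).2 with h5 | h5
    · exact Or.inl h5
    · exact Or.inr (h4.trans h5.symm)

end torsors

end Pool.Agent.T44.GF
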