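import Pool.Agent.Y123.GN.A5

/-!
# Statements of independent lemmas (stubs) of the project GF (every fibre near a fibre of CM type, general families)
-/

set_option autoImplicit false

open Matrix

namespace Pool.Agent.T44.GF

open Pool.Agent.TH127.PT Pool.Agent.Y123.ST Pool.Agent.TH119.DR Pool.Agent.Y123.GN

/-- homogeneous relations of degree `d` on `T` hold at `x` -/
def RhT {M : Type} [Fintype M] [DecidableEq M] (T : Set (Matrix M M ℂ)) (d : ℕ) (x : Matrix M M ℂ) : Prop :=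
  ∀ P : MvPolynomial (M × M) ℂ, P.IsHomogeneous d → (∀ X ∈ T, MvPolynomial.eval (fl X) P = 0) →
    MvPolynomial.eval (fl x) P = 0

/-- stub ABS: the abstract criterion `Pool.Agent.Y123.GN.abs_main` with homogeneous relations ON `T` (proof: the functions
used in `normal` and `step` are homogeneous of degree `card M` and `J * card M`; no transfer is needed) -/
def S_ABS : Prop := ∀ m : ℕ, ∃ 𝒟 : Finset ℕ, ∀ (M : Type) [Fintype M] [DecidableEq M], Fintype.card M = m →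
  ∀ (K : Subfield ℂ), (K : Set ℂ).Countable → ∀ (T : Set (Matrix M M ℂ)) (c : Matrix M M ℂ), IsSubtorsor K T → c ∈ T →
  ∀ 𝒩 : Set (Matrix M M ℂ), (∀ N ∈ 𝒩, IsNilpotent N) →
  (∀ N ∈ 𝒩, ∀ t : ℂ, ∀ d ∈ 𝒟, RhT T d (IsNilpotent.exp (t • N) * c)) →
  (∀ N ∈ 𝒩, N ∈ Submodule.span ℂ {C : Matrix M M ℂ | ∃ A ∈ 𝒩, ∃ B ∈ 𝒩, C = A * B - B * A}) →
  ∀ N ∈ 𝒩, fl N ∈ LL T

/-- stub NORM: from relations over `ℚ` to relations over number fields of bounded degree (proof: pass to the Galois closure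
`L`, `[L : ℚ] ≤ D!`; for a relation `P` over `L` of degree `≤ δ` at `y` the norm `∏_σ σ(P)` is a relation over `ℚ`, so some
`σ(P)` vanishes on `𝒴`; a vector space is not a finite union of proper subspaces, so one `σ` works for all the relations
`P` over `L` of degree `≤ δ` at `y`; then `σ` maps this space to itself, and `P = σ(σ^(ord-1) P)`); `δ' = D! * δ` -/
def S_NORM : Prop := ∀ (D δ : ℕ), ∃ δ' : ℕ, ∀ (ι : Type) [Fintype ι] (y : ι → ℂ) (𝒴 : Set (ι → ℂ)), y ∈ 𝒴 →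
  (∀ P Q : MvPolynomial ι ℂ, (∀ z ∈ 𝒴, MvPolynomial.eval z P * MvPolynomial.eval z Q = 0) →
    (∀ z ∈ 𝒴, MvPolynomial.eval z P = 0) ∨ ∀ z ∈ 𝒴, MvPolynomial.eval z Q = 0) →
  (∀ P : MvPolynomial ι ℂ, (∀ m, P.coeff m ∈ (⊥ : Subfield ℂ)) → P.totalDegree ≤ δ' → MvPolynomial.eval y P = 0 →
    ∀ z ∈ 𝒴, MvPolynomial.eval z P = 0) →
  ∀ K : Subfield ℂ, FiniteDimensional ℚ K → Module.finrank ℚ K ≤ D → ∀ P : MvPolynomial ι ℂ, (∀ m, P.coeff m ∈ K) →
    P.totalDegree ≤ δ → MvPolynomial.eval y P = 0 → ∀ z ∈ 𝒴, MvPolynomial.eval z P = 0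

end Pool.Agent.T44.GF
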