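import Pool.Agent.T44.GF.Nd
import Pool.Agent.T44.GF.Stm
import Pool.Agent.Y123.GN.B3

/-!
# Relations over number fields at all tuples in windows hold on the orbits of unipotent subgroups of the Galois group
-/

set_option autoImplicit false
set_option linter.unusedSectionVars false

open Matrix

namespace Pool.Agent.T44.GF

open Pool.Agent.TH127.PT Pool.Agent.Y123.ST Pool.Agent.Y123.SR Pool.Agent.Y113 Pool.Agent.Y113.GG Pool.Agent.Y118.HG
  Pool.Agent.Y123.GN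

variable {n k : ℕ}

/-- the values of the fundamental matrix -/
noncomputable def Zm (Z : Fin n → Fin n → PowerSeries ℚ) (x : ℝ) : Matrix (Fin n) (Fin n) ℂ := Matrix.of fun a b => zv Z x (a, b)

theorem pv_eq (Ω : Matrix (Fin n) (Fin n) ℂ) (Z : Fin n → Fin n → PowerSeries ℚ) (x : ℝ) (p : Fin n × Fin n) :
    pv Ω Z x p = (Ω * Zm Z x) p.1 p.2 := rfl

theorem gact_mat (g M : Matrix (Fin n) (Fin n) ℂ) : gact g (fun p => M p.1 p.2) = fun p => (g * M) p.1 p.2 := rfl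

theorem pv_mat (Ω : Matrix (Fin n) (Fin n) ℂ) (Z : Fin n → Fin n → PowerSeries ℚ) (x : ℝ) :
    pv Ω Z x = fun p => (Ω * Zm Z x) p.1 p.2 := rfl

/-- left multiplication by a constant matrix -/
noncomputable def sb (B : Matrix (Fin n) (Fin n) ℂ) : Option (Fin n × Fin n) → MvPolynomial (Option (Fin n × Fin n)) ℂ
  | none => MvPolynomial.X none
  | some p => ∑ a, MvPolynomial.C (B p.1 a) * MvPolynomial.X (some (a, p.2))

theorem sb_eval (B : Matrix (Fin n) (Fin n) ℂ) (w : ℂ) (M : Fin n × Fin n → ℂ)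
    (F : MvPolynomial (Option (Fin n × Fin n)) ℂ) :
    MvPolynomial.aeval (fun o : Option (Fin n × Fin n) => o.elim w M) (MvPolynomial.aeval (sb B) F) =
      MvPolynomial.aeval (fun o : Option (Fin n × Fin n) => o.elim w (gact B M)) F := by
  rw [aeval_comp, MvPolynomial.aeval_eq_eval]
  congr 2
  funext o
  rcases o with _ | p
  · show MvPolynomial.aeval _ (MvPolynomial.X none) = _
    rw [MvPolynomial.aeval_X]
    rfl
  · show MvPolynomial.aeval _ (∑ a, MvPolynomial.C (B p.1 a) * MvPolynomial.X (some (a, p.2))) = _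
    rw [map_sum]
    refine Finset.sum_congr rfl fun a _ => ?_
    rw [map_mul, MvPolynomial.aeval_C, MvPolynomial.aeval_X]
    rfl

theorem gal_mul {Ω : Matrix (Fin n) (Fin n) ℂ} {Z : Fin n → Fin n → PowerSeries ℚ} {x₀ : ℝ}
    {g h : Matrix (Fin n) (Fin n) ℂ} (hg : Gal Ω Z x₀ g) (hh : Gal Ω Z x₀ h) : Gal Ω Z x₀ (g * h) := by
  intro F hF x hx
  have h1 := hg F hF
  have h2 := hh (MvPolynomial.aeval (sb g) F) (fun x hx => by
    rw [sb_eval]
    exact h1 x hx) x hx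
  rw [sb_eval] at h2
  rw [pv_mat, gact_mat, gact_mat, ← Matrix.mul_assoc] at h2
  rw [pv_mat, gact_mat]
  exact h2

theorem gal_conj {Ω Θ : Matrix (Fin n) (Fin n) ℂ} (hΘ : Θ * Ω = 1) {Z : Fin n → Fin n → PowerSeries ℚ} {x₀ : ℝ}
    {g : Matrix (Fin n) (Fin n) ℂ} (hg : Gal Ω Z x₀ g) : Gal 1 Z x₀ (Θ * g * Ω) := by
  intro F hF x hx
  have h1 := hg (MvPolynomial.aeval (sb Θ) F) (fun x hx => by
    rw [sb_eval, pv_mat, gact_mat, ← Matrix.mul_assoc, hΘ]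
    exact hF x hx) x hx
  rw [sb_eval, pv_mat, gact_mat, gact_mat] at h1
  rw [pv_mat, gact_mat, Matrix.one_mul]
  have h2 : Θ * g * Ω * Zm Z x = Θ * (g * (Ω * Zm Z x)) := by simp only [Matrix.mul_assoc]
  rw [h2]
  exact h1

theorem gal_EG {Ω : Matrix (Fin n) (Fin n) ℂ} {Z : Fin n → Fin n → PowerSeries ℚ} {x₀ : ℝ}
    {𝒩 : Set (Matrix (Fin n) (Fin n) ℂ)} (h𝒩 : ∀ N ∈ 𝒩, ∀ t : ℂ, Gal Ω Z x₀ (IsNilpotent.exp (t • N)))
    {g : Matrix (Fin n) (Fin n) ℂ} (hg : g ∈ EG 𝒩) : Gal Ω Z x₀ g := by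
  unfold EG at hg
  induction hg using Submonoid.closure_induction with
  | mem u hu =>
    obtain ⟨N, hN, t, rfl⟩ := hu
    exact h𝒩 N hN t
  | one => exact gal_one _ _ _
  | mul a b _ _ ha hb => exact gal_mul ha hb

/-- the coordinates -/
def cf (X : Fin k → Matrix (Fin n) (Fin n) ℂ) : Fin k × (Fin n × Fin n) → ℂ := fun v => X v.1 v.2.1 v.2.2

/-- relations over `ℚ` of degree `≤ δ` at `y` hold on the orbit -/
theorem ratQ {f : Polynomial ℚ} {A : Fin n → Fin n → Polynomial ℚ} {Z W : Fin n → Fin n → PowerSeries ℚ}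
    (h : Dat f A Z W) :
    ∃ x₀ G₀ : ℕ, ∀ δ k : ℕ, ∃ E : ℕ, ∀ H t : ℕ, (H + 2) ^ E ≤ t → H < t ∧ ∀ g : Fin k → ℕ, SepN G₀ g → (∀ l, g l ≤ H) →
      (∀ l, (x₀ : ℝ) < ((t - g l : ℕ) : ℝ)) ∧ ∀ P : MvPolynomial (Fin k × (Fin n × Fin n)) ℂ,
        (∀ m, P.coeff m ∈ (⊥ : Subfield ℂ)) → P.totalDegree ≤ δ →
        MvPolynomial.eval (cf fun l => Zm Z ((t - g l : ℕ) : ℝ)) P = 0 →
        ∀ Ω Θ : Matrix (Fin n) (Fin n) ℂ, Θ * Ω = 1 → ∀ γ : Fin k → Matrix (Fin n) (Fin n) ℂ, (∀ l, Gal Ω Z x₀ (γ l)) →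
        MvPolynomial.eval (cf fun l => Θ * γ l * Ω * Zm Z ((t - g l : ℕ) : ℝ)) P = 0 := by
  obtain ⟨x₀, G₀, hmain⟩ := spec_all h
  refine ⟨x₀, G₀, fun δ k => ?_⟩
  obtain ⟨E, hE⟩ := hmain δ k
  refine ⟨E, fun H t ht => ?_⟩
  obtain ⟨hHt, h1⟩ := hE H t ht
  refine ⟨hHt, fun g hg hgH => ?_⟩
  obtain ⟨h2, h3⟩ := h1 g hg hgH
  refine ⟨h2, fun P hP hd h0 Ω Θ hΘ γ hγ => ?_⟩
  have h4 := spec_gal h3 h2 (g := fun l => Θ * γ l * Ω) (fun l => gal_conj hΘ (hγ l)) P hd (by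
    intro s
    have h5 := hP s
    rw [Subfield.bot_eq_of_charZero] at h5
    obtain ⟨q, hq⟩ := h5
    rw [Submodule.mem_span_singleton]
    exact ⟨q, by rw [← hq, Rat.smul_def, mul_one]; rfl⟩) (by
    rw [MvPolynomial.aeval_eq_eval]
    rw [← h0]
    show MvPolynomial.eval _ P = _
    congr 2
    funext p
    rw [pv_eq, Matrix.one_mul]
    rfl)
  rw [MvPolynomial.aeval_eq_eval] at h4
  rw [← h4]
  show _ = MvPolynomial.eval _ P
  congr 2
  funext p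
  rw [pv_mat, gact_mat, Matrix.one_mul]
  rfl

/-- polynomial paths in the groups generated by exponentials -/
theorem path_EG {𝒩 : Set (Matrix (Fin n) (Fin n) ℂ)} (hnil : ∀ N ∈ 𝒩, IsNilpotent N) {g : Matrix (Fin n) (Fin n) ℂ}
    (hg : g ∈ EG 𝒩) : ∃ G : Matrix (Fin n) (Fin n) (Polynomial ℂ), G.map (Polynomial.eval 0) = 1 ∧
      G.map (Polynomial.eval 1) = g ∧ ∀ s, G.map (Polynomial.eval s) ∈ EG 𝒩 := by
  unfold EG at hg
  induction hg using Submonoid.closure_induction with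
  | mem u hu =>
    obtain ⟨N, hN, t, rfl⟩ := hu
    obtain ⟨k, hk⟩ := hnil N hN
    have h1 : ∀ s : ℂ, (Matrix.of fun a b => (eP N k a b).comp (Polynomial.C t * Polynomial.X)).map (Polynomial.eval s) =
        IsNilpotent.exp ((t * s) • N) := by
      intro s
      ext a b
      rw [Matrix.map_apply, Matrix.of_apply, Polynomial.eval_comp, Polynomial.eval_mul, Polynomial.eval_C,
        Polynomial.eval_X, eP_eval hk]
    refine ⟨Matrix.of fun a b => (eP N k a b).comp (Polynomial.C t * Polynomial.X), ?_, ?_, fun s => ?_⟩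
    · rw [h1, mul_zero, zero_smul, IsNilpotent.exp_zero]
    · rw [h1, mul_one]
    · rw [h1]
      exact Submonoid.subset_closure ⟨N, hN, t * s, rfl⟩
  | one =>
    have h1 : ∀ s : ℂ, (1 : Matrix (Fin n) (Fin n) (Polynomial ℂ)).map (Polynomial.eval s) = 1 := fun s =>
      Matrix.map_one _ Polynomial.eval_zero Polynomial.eval_one
    exact ⟨1, h1 0, h1 1, fun s => by rw [h1]; exact Submonoid.one_mem _⟩
  | mul a b _ _ ha hb =>
    obtain ⟨A, hA0, hA1, hA⟩ := ha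
    obtain ⟨B, hB0, hB1, hB⟩ := hb
    have h1 : ∀ s : ℂ, (A * B).map (Polynomial.eval s) = A.map (Polynomial.eval s) * B.map (Polynomial.eval s) := fun s =>
      Matrix.map_mul (f := Polynomial.evalRingHom s)
    exact ⟨A * B, by rw [h1, hA0, hB0, Matrix.one_mul], by rw [h1, hA1, hB1], fun s => by
      rw [h1]
      exact Submonoid.mul_mem _ (hA s) (hB s)⟩

/-- irreducibility of the orbits -/
theorem irrG {𝒩 : Set (Matrix (Fin n) (Fin n) ℂ)} (hnil : ∀ N ∈ 𝒩, IsNilpotent N) (Ω Θ : Matrix (Fin n) (Fin n) ℂ)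
    (y : Fin k → Matrix (Fin n) (Fin n) ℂ) (P Q : MvPolynomial (Fin k × (Fin n × Fin n)) ℂ)
    (h : ∀ g : Fin k → Matrix (Fin n) (Fin n) ℂ, (∀ l, g l ∈ EG 𝒩) →
      MvPolynomial.eval (cf fun l => Θ * g l * Ω * y l) P * MvPolynomial.eval (cf fun l => Θ * g l * Ω * y l) Q = 0) :
    (∀ g : Fin k → Matrix (Fin n) (Fin n) ℂ, (∀ l, g l ∈ EG 𝒩) →
      MvPolynomial.eval (cf fun l => Θ * g l * Ω * y l) P = 0) ∨
    ∀ g : Fin k → Matrix (Fin n) (Fin n) ℂ, (∀ l, g l ∈ EG 𝒩) →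
      MvPolynomial.eval (cf fun l => Θ * g l * Ω * y l) Q = 0 := by
  classical
  by_contra hcon
  push Not at hcon
  obtain ⟨⟨g0, hg0, hP0⟩, ⟨g1, hg1, hQ1⟩⟩ := hcon
  choose A hA0 hA1 hA using fun l => path_EG hnil (hg0 l)
  choose B hB0 hB1 hB using fun l => path_EG hnil (hg1 l)
  set rv : Polynomial ℂ := 1 - Polynomial.X with hrv
  have hrve : ∀ s, rv.eval s = 1 - s := fun s => by rw [hrv]; simp
  set Gp : Fin k → Matrix (Fin n) (Fin n) (Polynomial ℂ) := fun l =>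
    Θ.map Polynomial.C * (((A l).map fun p => p.comp rv) * B l) * Ω.map Polynomial.C * (y l).map Polynomial.C with hGp
  have hGe : ∀ l s, (Gp l).map (Polynomial.eval s) =
      Θ * ((A l).map (Polynomial.eval (1 - s)) * (B l).map (Polynomial.eval s)) * Ω * y l := by
    intro l s
    have hm : ∀ M M' : Matrix (Fin n) (Fin n) (Polynomial ℂ), (M * M').map (Polynomial.eval s) =
        M.map (Polynomial.eval s) * M'.map (Polynomial.eval s) := fun M M' => Matrix.map_mul (f := Polynomial.evalRingHom s)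
    have hc : ∀ M : Matrix (Fin n) (Fin n) ℂ, (M.map Polynomial.C).map (Polynomial.eval s) = M := by
      intro M
      ext a b
      simp
    have hr : ((A l).map fun p => p.comp rv).map (Polynomial.eval s) = (A l).map (Polynomial.eval (1 - s)) := by
      ext a b
      rw [Matrix.map_apply, Matrix.map_apply, Matrix.map_apply, Polynomial.eval_comp, hrve]
    rw [hGp]
    simp only
    rw [hm, hm, hm, hm, hc, hc, hc, hr]
  set gs : Fin k × (Fin n × Fin n) → Polynomial ℂ := fun x => Gp x.1 x.2.1 x.2.2 with hgs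
  have hev : ∀ (R : MvPolynomial (Fin k × (Fin n × Fin n)) ℂ) (s : ℂ), (MvPolynomial.aeval gs R : Polynomial ℂ).eval s =
      MvPolynomial.eval (cf fun l => Θ * ((A l).map (Polynomial.eval (1 - s)) * (B l).map (Polynomial.eval s)) * Ω * y l) R := by
    intro R s
    have h1 := MvPolynomial.comp_aeval_apply (f := gs) (Polynomial.aeval s : Polynomial ℂ →ₐ[ℂ] ℂ) R
    rw [Polynomial.coe_aeval_eq_eval] at h1
    rw [h1, MvPolynomial.aeval_eq_eval]
    show MvPolynomial.eval _ R = _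
    congr 2
    funext x
    show (Gp x.1 x.2.1 x.2.2).eval s = _
    have h2 := congrFun (congrFun (hGe x.1 s) x.2.1) x.2.2
    rw [Matrix.map_apply] at h2
    exact h2
  have hPs0 : (MvPolynomial.aeval gs P : Polynomial ℂ) ≠ 0 := by
    intro h0
    apply hP0
    have h1 := hev P 0
    rw [h0, Polynomial.eval_zero] at h1
    simp only [sub_zero, hA1, hB0, Matrix.mul_one] at h1
    exact h1.symm
  have hQs0 : (MvPolynomial.aeval gs Q : Polynomial ℂ) ≠ 0 := by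
    intro h0
    apply hQ1
    have h1 := hev Q 1
    rw [h0, Polynomial.eval_zero] at h1
    simp only [sub_self, hA0, hB1, Matrix.one_mul] at h1
    exact h1.symm
  obtain ⟨s, hs⟩ : ∃ s : ℂ, ((MvPolynomial.aeval gs P : Polynomial ℂ) * (MvPolynomial.aeval gs Q : Polynomial ℂ)).eval s ≠ 0 := by
    by_contra hall
    push Not at hall
    exact mul_ne_zero hPs0 hQs0 (Polynomial.funext fun s => by rw [hall s, Polynomial.eval_zero])
  rw [Polynomial.eval_mul, hev, hev] at hs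
  exact hs (h _ fun l => Submonoid.mul_mem _ (hA l _) (hB l _))

/-- relations over fields of degree `≤ D` at `y` hold on the orbit -/
def GenG (S : Submonoid (Matrix (Fin n) (Fin n) ℂ)) (Ω Θ : Matrix (Fin n) (Fin n) ℂ)
    (y : Fin k → Matrix (Fin n) (Fin n) ℂ) (δ D : ℕ) : Prop :=
  ∀ K : Subfield ℂ, FiniteDimensional ℚ K → Module.finrank ℚ K ≤ D → ∀ P : MvPolynomial (Fin k × (Fin n × Fin n)) ℂ,
    (∀ m, P.coeff m ∈ K) → P.totalDegree ≤ δ → MvPolynomial.eval (cf y) P = 0 →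
    ∀ g : Fin k → Matrix (Fin n) (Fin n) ℂ, (∀ l, g l ∈ S) → MvPolynomial.eval (cf fun l => Θ * g l * Ω * y l) P = 0

/-- **all tuples in windows** -/
theorem gen_all (hN : S_NORM) {f : Polynomial ℚ} {A : Fin n → Fin n → Polynomial ℚ} {Z W : Fin n → Fin n → PowerSeries ℚ}
    (h : Dat f A Z W) :
    ∃ x₀ G₀ : ℕ, ∀ δ D k : ℕ, ∃ E : ℕ, ∀ H t : ℕ, (H + 2) ^ E ≤ t → H < t ∧ ∀ g : Fin k → ℕ, SepN G₀ g → (∀ l, g l ≤ H) →
      (∀ l, (x₀ : ℝ) < ((t - g l : ℕ) : ℝ)) ∧ ∀ Ω Θ : Matrix (Fin n) (Fin n) ℂ, Θ * Ω = 1 →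
        ∀ 𝒩 : Set (Matrix (Fin n) (Fin n) ℂ), (∀ N ∈ 𝒩, IsNilpotent N) →
        (∀ N ∈ 𝒩, ∀ t : ℂ, Gal Ω Z x₀ (IsNilpotent.exp (t • N))) →
        GenG (EG 𝒩) Ω Θ (fun l => Zm Z ((t - g l : ℕ) : ℝ)) δ D := by
  obtain ⟨x₀, G₀, hmain⟩ := ratQ h
  refine ⟨x₀, G₀, fun δ D k => ?_⟩
  obtain ⟨δ', hδ'⟩ := hN D δ
  obtain ⟨E, hE⟩ := hmain δ' k
  refine ⟨E, fun H t ht => ?_⟩
  obtain ⟨hHt, h1⟩ := hE H t ht
  refine ⟨hHt, fun g hg hgH => ?_⟩
  obtain ⟨h2, h3⟩ := h1 g hg hgH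
  refine ⟨h2, fun Ω Θ hΘ 𝒩 hnil hgal K hK hKD P hP hd h0 γ hγ => ?_⟩
  set y : Fin k → Matrix (Fin n) (Fin n) ℂ := fun l => Zm Z ((t - g l : ℕ) : ℝ) with hy
  refine hδ' (Fin k × (Fin n × Fin n)) (cf y) {z | ∃ γ : Fin k → Matrix (Fin n) (Fin n) ℂ, (∀ l, γ l ∈ EG 𝒩) ∧
    z = cf fun l => Θ * γ l * Ω * y l} ⟨fun _ => 1, fun _ => Submonoid.one_mem _, ?_⟩ ?_ ?_ K hK hKD P hP hd h0 _ ⟨γ, hγ, rfl⟩
  · congr 1
    funext l
    rw [Matrix.mul_one, hΘ, Matrix.one_mul]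
  · intro P Q hPQ
    rcases irrG hnil Ω Θ y P Q (fun g hg => hPQ _ ⟨g, hg, rfl⟩) with h4 | h4
    · left
      rintro _ ⟨g, hg, rfl⟩
      exact h4 g hg
    · right
      rintro _ ⟨g, hg, rfl⟩
      exact h4 g hg
  · rintro P hP hd h0 _ ⟨g', hg', rfl⟩
    exact h3 P hP hd h0 Ω Θ hΘ g' fun l => gal_EG hgal (hg' l)

end Pool.Agent.T44.GF
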