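import Pool.Agent.T44.GF.Tr2
import Pool.Agent.T44.GF.Gal

/-!
# Sums of a fixed object of torus type and of fibres near a fibre of torus type
-/

set_option autoImplicit false
set_option linter.unusedSectionVars false

open Matrix

namespace Pool.Agent.T44.GF

open Pool.Agent.T44.EF Pool.Agent.Y123.GN Pool.Agent.TH127.PT Pool.Agent.Y123.ST Pool.Agent.Y123.SR Pool.Agent.TH119.DR
  Pool.Agent.TH119.MX

variable {B₀ : Type} [Fintype B₀] [DecidableEq B₀] {n k d s : ℕ} {K K' : Subfield ℂ}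

/-- the generic block matrix -/
noncomputable def Yg (B₀ : Type) [Fintype B₀] [DecidableEq B₀] (n k : ℕ) :
    Matrix (I2 B₀ n k) (I2 B₀ n k) (MvPolynomial (Fin k × (Fin n × Fin n)) ℂ) :=
  Matrix.of fun a b => PhiE (1 : Matrix B₀ B₀ ℂ) (a, b)

theorem Yg_eval (X : Fin k → Matrix (Fin n) (Fin n) ℂ) : (Yg B₀ n k).map (MvPolynomial.eval (cf X)) = E2 1 X := by
  ext a b
  have h1 := PhiE_eval (1 : Matrix B₀ B₀ ℂ) (cf X) (a, b)
  rw [MvPolynomial.aeval_eq_eval] at h1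
  rw [Matrix.map_apply]
  show MvPolynomial.eval (cf X) (PhiE (1 : Matrix B₀ B₀ ℂ) (a, b)) = _
  have h2 : blk (cf X) = X := by
    funext l
    ext a b
    rfl
  rw [h2] at h1
  exact h1.symm

theorem Yg_bd (a b : I2 B₀ n k) : Bd K 1 (Yg B₀ n k a b) := by
  obtain a | a := a <;> obtain b | b := b
  · refine (Bd.C (σ := Fin k × (Fin n × Fin n)) (a := (1 : Matrix B₀ B₀ ℂ) a b) ?_).mono (Nat.zero_le _)
    rw [Matrix.one_apply]
    split_ifs
    · exact K.one_mem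
    · exact K.zero_mem
  · exact Bd.zero
  · exact Bd.zero
  · show Bd K 1 (if a.2 = b.2 then MvPolynomial.X (a.2, (a.1, b.1)) else 0)
    split_ifs
    · exact Bd.X _
    · exact Bd.zero

/-- diagonal block matrices -/
theorem E2_diag (x : B₀ → ℂ) (X : Fin n → ℂ) :
    E2 (diagonal x) (fun _ : Fin k => diagonal X) = diagonal (Sum.elim x fun p => X p.1) := by
  unfold E2
  have h1 : bd (fun _ : Fin k => diagonal X) = diagonal fun p : Fin n × Fin k => X p.1 := blockDiagonal_diagonal _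
  rw [h1, fromBlocks_diagonal]

/-- the exponents of the block matrix -/
def ex (e₀ : B₀ → Fin s → ℤ) (e : Fin n → Fin s → ℤ) : I2 B₀ n k → Fin s → ℤ := Sum.elim e₀ fun p => e p.1

theorem E2_fac {lam : ℂ} {θ : Fin s → ℂ} {U₀ V₀ C₀ : Matrix B₀ B₀ ℂ} {U V Ω : Matrix (Fin n) (Fin n) ℂ}
    {e₀ : B₀ → Fin s → ℤ} {e : Fin n → Fin s → ℤ} (hC : C₀ = lam • (U₀ * diagonal (fun a => ∏ j, θ j ^ e₀ a j) * V₀))
    (hΩ : Ω = lam • (U * diagonal (fun a => ∏ j, θ j ^ e a j) * V)) :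
    E2 C₀ (fun _ : Fin k => Ω) = lam • (E2 U₀ (fun _ => U) * diagonal (fun a => ∏ j, θ j ^ ex e₀ e a j) *
      E2 V₀ (fun _ => V)) := by
  have h1 : diagonal (fun a : I2 B₀ n k => ∏ j, θ j ^ ex e₀ e a j) =
      E2 (diagonal fun a => ∏ j, θ j ^ e₀ a j) (fun _ => diagonal fun a => ∏ j, θ j ^ e a j) := by
    rw [E2_diag]
    congr 1
    funext a
    obtain a | a := a <;> rfl
  rw [h1, E2_mul, E2_mul, E2_smul, hC, hΩ]
  rfl

theorem E2_memK {U₀ : Matrix B₀ B₀ ℂ} {U : Matrix (Fin n) (Fin n) ℂ} (h₀ : ∀ i j, U₀ i j ∈ K) (h : ∀ i j, U i j ∈ K)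
    (i j : I2 B₀ n k) : E2 U₀ (fun _ : Fin k => U) i j ∈ K := by
  obtain a | a := i <;> obtain b | b := j
  · exact h₀ a b
  · exact K.zero_mem
  · exact K.zero_mem
  · show bd (fun _ : Fin k => U) a b ∈ K
    rw [show bd (fun _ : Fin k => U) a b = if a.2 = b.2 then U a.1 b.1 else 0 from blockDiagonal_apply _ _ _]
    split_ifs
    · exact h _ _
    · exact K.zero_mem

/-- the direction of a matrix in a block -/
noncomputable def dir (B₀ : Type) [Fintype B₀] [DecidableEq B₀] (n k : ℕ) (Ω Θ : Matrix (Fin n) (Fin n) ℂ) (l : Fin k) :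
    Matrix (Fin n) (Fin n) ℂ →ₗ[ℂ] Matrix (I2 B₀ n k) (I2 B₀ n k) ℂ :=
  Es B₀ l ∘ₗ (LinearMap.mulRight ℂ Ω ∘ₗ LinearMap.mulLeft ℂ Θ)

theorem dir_apply (Ω Θ : Matrix (Fin n) (Fin n) ℂ) (l : Fin k) (X : Matrix (Fin n) (Fin n) ℂ) :
    dir B₀ n k Ω Θ l X = E2 0 (Pi.single l (Θ * X * Ω)) := rfl

theorem dir_mul {Ω Θ : Matrix (Fin n) (Fin n) ℂ} (h : Ω * Θ = 1) (l : Fin k) (A B : Matrix (Fin n) (Fin n) ℂ) :
    dir B₀ n k Ω Θ l A * dir B₀ n k Ω Θ l B = dir B₀ n k Ω Θ l (A * B) := by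
  show Es B₀ l (Θ * A * Ω) * Es B₀ l (Θ * B * Ω) = Es B₀ l (Θ * (A * B) * Ω)
  rw [Es_mul]
  congr 1
  calc Θ * A * Ω * (Θ * B * Ω) = Θ * A * (Ω * Θ) * B * Ω := by simp only [Matrix.mul_assoc]
    _ = Θ * (A * B) * Ω := by rw [h, Matrix.mul_one]; simp only [Matrix.mul_assoc]

theorem conj_nil {Ω Θ N : Matrix (Fin n) (Fin n) ℂ} (h : Ω * Θ = 1) (hN : IsNilpotent N) : IsNilpotent (Θ * N * Ω) := by
  obtain ⟨m, hm⟩ := hN
  refine ⟨m + 1, ?_⟩
  have h1 : ∀ i : ℕ, (Θ * N * Ω) ^ (i + 1) = Θ * N ^ (i + 1) * Ω := by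
    intro i
    induction i with
    | zero => rw [zero_add, pow_one, pow_one]
    | succ i ih =>
      rw [pow_succ, ih, pow_succ N (i + 1)]
      calc Θ * N ^ (i + 1) * Ω * (Θ * N * Ω) = Θ * N ^ (i + 1) * (Ω * Θ) * N * Ω := by simp only [Matrix.mul_assoc]
        _ = _ := by rw [h, Matrix.mul_one]; simp only [Matrix.mul_assoc]
  rw [h1, pow_succ, hm, Matrix.zero_mul, Matrix.mul_zero, Matrix.zero_mul]

theorem conj_exp {Ω Θ N : Matrix (Fin n) (Fin n) ℂ} (h : Ω * Θ = 1) (h' : Θ * Ω = 1) (hN : IsNilpotent N) (τ : ℂ) :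
    Θ * IsNilpotent.exp (τ • N) * Ω = IsNilpotent.exp (τ • (Θ * N * Ω)) := by
  have h1 := exp_intw (A := Ω) (conj_nil h hN) hN (by
    calc Ω * (Θ * N * Ω) = (Ω * Θ) * N * Ω := by simp only [Matrix.mul_assoc]
      _ = N * Ω := by rw [h, Matrix.one_mul]) τ
  rw [Matrix.mul_assoc, ← h1, ← Matrix.mul_assoc, h', Matrix.one_mul]

/-- **Homogeneous relations of degree `d` on `T` are stable** -/
theorem blkRel (hKK' : K ≤ K') {δ D : ℕ} (hK' : FiniteDimensional ℚ K') (hKD : Module.finrank ℚ K' ≤ D)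
    {𝒩 : Set (Matrix (Fin n) (Fin n) ℂ)} (hnil : ∀ N ∈ 𝒩, IsNilpotent N) (hsub : NoSub s 𝒩)
    {U₀ V₀ C₀ : Matrix B₀ B₀ ℂ} {U V Ω Θ : Matrix (Fin n) (Fin n) ℂ} (hΩΘ : Ω * Θ = 1) (hΘΩ : Θ * Ω = 1)
    (hU₀ : ∀ i j, U₀ i j ∈ K') (hV₀ : ∀ i j, V₀ i j ∈ K') (hU : ∀ i j, U i j ∈ K') (hV : ∀ i j, V i j ∈ K')
    (hU₀d : IsUnit U₀.det) (hV₀d : IsUnit V₀.det) (hUd : IsUnit U.det) (hVd : IsUnit V.det)
    {lam : ℂ} (hlam : lam ≠ 0) {θ : Fin s → ℂ} (hθ : ∀ j, θ j ≠ 0) {e₀ : B₀ → Fin s → ℤ} {e : Fin n → Fin s → ℤ} {E1 : ℕ}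
    (he₀ : ∀ k j, |e₀ k j| ≤ E1) (he : ∀ k j, |e k j| ≤ E1)
    (hC₀ : C₀ = lam • (U₀ * diagonal (fun a => ∏ j, θ j ^ e₀ a j) * V₀))
    (hΩ : Ω = lam • (U * diagonal (fun a => ∏ j, θ j ^ e a j) * V)) {y : Fin k → Matrix (Fin n) (Fin n) ℂ}
    (hy : ∀ l, IsUnit (y l).det) (hG : GenG (EG 𝒩) Ω Θ y δ D)
    {T : Set (Matrix (I2 B₀ n k) (I2 B₀ n k) ℂ)} (hT : IsSubtorsor K T) (hcT : E2 C₀ (fun l => Ω * y l) ∈ T)
    (hδ : dexp s (Fintype.card (Fin d → I2 B₀ n k × I2 B₀ n k)) (d * E1) d ≤ δ) (N : Matrix (Fin n) (Fin n) ℂ) (hN : N ∈ 𝒩)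
    (l : Fin k) (τ : ℂ) :
    RhT T d (IsNilpotent.exp (τ • E2 (0 : Matrix B₀ B₀ ℂ) (Pi.single l N)) * E2 C₀ (fun l => Ω * y l)) := by
  classical
  set Y : Matrix (I2 B₀ n k) (I2 B₀ n k) ℂ := (Yg B₀ n k).map (MvPolynomial.eval (cf y)) with hYdef
  have hY : Y = E2 1 y := Yg_eval y
  set x : Matrix (I2 B₀ n k) (I2 B₀ n k) ℂ := E2 C₀ (fun _ : Fin k => Ω) with hx
  have hc : E2 C₀ (fun l => Ω * y l) = x * Y := by rw [hY, hx, E2_mul, Matrix.mul_one]
  have hdet : ∀ (A : Matrix B₀ B₀ ℂ) (X : Fin k → Matrix (Fin n) (Fin n) ℂ), IsUnit A.det → (∀ l, IsUnit (X l).det) →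
      IsUnit (E2 A X).det := fun A X hA hX =>
    (Matrix.isUnit_iff_isUnit_det _).1 (E2_isUnit ((Matrix.isUnit_iff_isUnit_det A).2 hA) hX)
  have hYd : IsUnit Y.det := by
    rw [hY]
    exact hdet _ _ (by rw [det_one]; exact isUnit_one) hy
  have hfac := E2_fac (k := k) hC₀ hΩ
  -- the directions
  have hdnil : ∀ (l : Fin k) (N : Matrix (Fin n) (Fin n) ℂ), N ∈ 𝒩 → IsNilpotent (dir B₀ n k Ω Θ l N) := fun l N hN =>
    E_single_nil (conj_nil hΩΘ (hnil N hN)) l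
  have hdexp : ∀ (l : Fin k) (N : Matrix (Fin n) (Fin n) ℂ), N ∈ 𝒩 → ∀ τ : ℂ,
      IsNilpotent.exp (τ • dir B₀ n k Ω Θ l N) = E2 1 (sg l (Θ * IsNilpotent.exp (τ • N) * Ω)) := by
    intro l N hN τ
    rw [dir_apply, exp_single (conj_nil hΩΘ (hnil N hN)), conj_exp hΩΘ hΘΩ (hnil N hN)]
  -- the stable directions
  have hst : ∀ l, 𝒩 ⊆ Hs T d Y (dir B₀ n k Ω Θ l) := by
    intro l
    refine hsub _ (fun A hA B hB => ?_) fun v hv hli => ?_
    · rw [mem_Hs, map_sub, ← dir_mul hΩΘ, ← dir_mul hΩΘ]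
      exact Stb.bracket hA hB
    · set p : Fin (s + 1) → ℂ → Fin k × (Fin n × Fin n) → ℂ := fun j τ =>
        cf fun l' => Θ * (sg l (IsNilpotent.exp (τ • v j)) l') * Ω * y l' with hp
      have hsgp : ∀ (j : Fin (s + 1)) (τ : ℂ), (fun l' => Θ * (sg l (IsNilpotent.exp (τ • v j)) l') * Ω * y l') =
          fun l' => sg l (Θ * IsNilpotent.exp (τ • v j) * Ω) l' * y l' := by
        intro j τ
        funext l'
        by_cases h : l' = l
        · subst h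
          rw [sg_same, sg_same]
        · rw [sg_ne h, sg_ne h, Matrix.mul_one, hΘΩ]
      obtain ⟨c, hc0, hcs⟩ := rankT (d := d) hKK' (δ := δ) (y := cf y)
        (𝒵 := {z | ∃ g : Fin k → Matrix (Fin n) (Fin n) ℂ, (∀ l, g l ∈ EG 𝒩) ∧ z = cf fun l => Θ * g l * Ω * y l})
        (fun P hP hd h0 z hz => by
          obtain ⟨g, hg, rfl⟩ := hz
          exact hG K' hK' hKD P hP hd h0 g hg)
        (U := E2 U₀ fun _ => U) (V := E2 V₀ fun _ => V) (E2_memK hU₀ hU) (E2_memK hV₀ hV)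
        (hdet _ _ hU₀d fun _ => hUd) (hdet _ _ hV₀d fun _ => hVd) hlam hθ (e := ex e₀ e) (E1 := E1)
        (by
          intro a j
          obtain a | a := a
          · exact he₀ a j
          · exact he a.1 j)
        (Yp := Yg B₀ n k) Yg_bd hYd hT (c := E2 C₀ fun l => Ω * y l) (by rw [hc, hx, hfac]) hcT hδ
        (fun j => dir B₀ n k Ω Θ l (v j)) (fun j => hdnil l _ (hv j)) p
        (by
          intro j
          simp only [hp]
          rw [hsgp]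
          congr 1
          funext l'
          rw [zero_smul, IsNilpotent.exp_zero, Matrix.mul_one, hΘΩ, sg_one]
          exact Matrix.one_mul _)
        (by
          intro j τ
          refine ⟨fun l' => sg l (IsNilpotent.exp (τ • v j)) l', fun l' => ?_, rfl⟩
          show sg l (IsNilpotent.exp (τ • v j)) l' ∈ EG 𝒩
          by_cases h : l' = l
          · subst h
            rw [sg_same]
            exact Submonoid.subset_closure ⟨v j, hv j, τ, rfl⟩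
          · rw [sg_ne h]
            exact Submonoid.one_mem _)
        (by
          intro j τ
          rw [hp]
          simp only
          rw [hsgp, Yg_eval, Yg_eval, hdexp l _ (hv j), E2_mul, Matrix.one_mul])
      apply hc0
      have h1 : ∑ j, c j • v j ∈ Hs T d Y (dir B₀ n k Ω Θ l) := by
        rw [mem_Hs, map_sum]
        have h2 : ∑ j, dir B₀ n k Ω Θ l (c j • v j) = ∑ j, c j • dir B₀ n k Ω Θ l (v j) :=
          Finset.sum_congr rfl fun j _ => map_smul _ _ _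
        rw [h2]
        exact hcs
      have h3 : ∑ j, c j • (Hs T d Y (dir B₀ n k Ω Θ l)).mkQ (v j) = 0 := by
        have h4 := (Submodule.Quotient.mk_eq_zero _).2 h1
        rw [← Submodule.mkQ_apply, map_sum] at h4
        simpa only [map_smul] using h4
      funext j
      exact Fintype.linearIndependent_iff.1 hli c h3 j
  refine RhT_of_stb hc hcT (hdnil l N hN) (E_single_nil (hnil N hN) l) ?_ (hst l hN) τ
  rw [dir_apply, hx, E2_mul, E2_mul, Matrix.mul_zero, Matrix.zero_mul]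
  congr 1
  funext l'
  by_cases h : l' = l
  · subst h
    rw [Pi.single_eq_same, Pi.single_eq_same]
    calc Ω * (Θ * N * Ω) = (Ω * Θ) * N * Ω := by simp only [Matrix.mul_assoc]
      _ = N * Ω := by rw [hΩΘ, Matrix.one_mul]
  · rw [Pi.single_eq_of_ne h, Pi.single_eq_of_ne h, Matrix.mul_zero, Matrix.zero_mul]

end Pool.Agent.T44.GF
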