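import Pool.Agent.T44.GF.Rk

/-!
# Algebraic relations between elements of a space of slow growth
-/

set_option autoImplicit false
set_option linter.unusedSectionVars false

open Matrix

namespace Pool.Agent.T44.GF

open Pool.Agent.T44.EF Pool.Agent.Y118.HP Pool.Agent.Y123.ST

variable {σ ι : Type} {r s d : ℕ} {K : Subfield ℂ} {𝒱 : Submodule ℚ ℂ}

/-- the `K`-space spanned by the products of `e` elements of `𝒱` -/
noncomputable def VK (K : Subfield ℂ) (𝒱 : Submodule ℚ ℂ) (e : ℕ) : Submodule K ℂ :=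
  Submodule.span K ((𝒱 ^ e : Submodule ℚ ℂ) : Set ℂ)

theorem VK_mul {e e' : ℕ} {a b : ℂ} (ha : a ∈ VK K 𝒱 e) (hb : b ∈ VK K 𝒱 e') : a * b ∈ VK K 𝒱 (e + e') := by
  unfold VK at ha hb ⊢
  induction ha using Submodule.span_induction with
  | mem x hx =>
    induction hb using Submodule.span_induction with
    | mem y hy =>
      refine Submodule.subset_span ?_
      show x * y ∈ 𝒱 ^ (e + e')
      rw [pow_add]
      exact Submodule.mul_mem_mul hx hy
    | zero => rw [mul_zero]; exact Submodule.zero_mem _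
    | add y z _ _ hy hz => rw [mul_add]; exact Submodule.add_mem _ hy hz
    | smul c y _ hy => rw [mul_smul_comm]; exact Submodule.smul_mem _ c hy
  | zero => rw [zero_mul]; exact Submodule.zero_mem _
  | add y z _ _ hy hz => rw [add_mul]; exact Submodule.add_mem _ hy hz
  | smul c y _ hy => rw [smul_mul_assoc]; exact Submodule.smul_mem _ c hy

theorem VK_K {a : ℂ} (ha : a ∈ K) : a ∈ VK K 𝒱 0 := by
  have h1 : (1 : ℂ) ∈ VK K 𝒱 0 := Submodule.subset_span (by
    show (1 : ℂ) ∈ 𝒱 ^ 0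
    rw [pow_zero]
    exact Submodule.one_le.1 le_rfl)
  have h2 := Submodule.smul_mem _ (⟨a, ha⟩ : K) h1
  have h3 : (⟨a, ha⟩ : K) • (1 : ℂ) = a := mul_one a
  rwa [h3] at h2

theorem VK_one {a : ℂ} (ha : a ∈ 𝒱) : a ∈ VK K 𝒱 1 := Submodule.subset_span (by
    show a ∈ 𝒱 ^ 1
    rwa [pow_one])

theorem VK_prod {κ : Type} (t : Finset κ) {e : κ → ℕ} {f : κ → ℂ} (h : ∀ i ∈ t, f i ∈ VK K 𝒱 (e i)) :
    ∏ i ∈ t, f i ∈ VK K 𝒱 (∑ i ∈ t, e i) := by
  classical
  induction t using Finset.induction_on with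
  | empty =>
    rw [Finset.prod_empty, Finset.sum_empty]
    exact VK_K K.one_mem
  | insert i t hi ih =>
    rw [Finset.prod_insert hi, Finset.sum_insert hi]
    exact VK_mul (h i (Finset.mem_insert_self _ _)) (ih fun j hj => h j (Finset.mem_insert_of_mem hj))

theorem VK_pow {e : ℕ} {a : ℂ} (h : a ∈ VK K 𝒱 e) (m : ℕ) : a ^ m ∈ VK K 𝒱 (m * e) := by
  have h1 := VK_prod (K := K) (𝒱 := 𝒱) (Finset.range m) (e := fun _ => e) (f := fun _ => a) fun _ _ => h
  rwa [Finset.prod_const, Finset.sum_const, Finset.card_range, smul_eq_mul] at h1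

theorem VK_det {r e : ℕ} {M : Matrix (Fin r) (Fin r) ℂ} (h : ∀ i j, M i j ∈ VK K 𝒱 e) : M.det ∈ VK K 𝒱 (r * e) := by
  rw [Matrix.det_apply']
  refine Submodule.sum_mem _ fun τ _ => ?_
  have h1 : ∏ i, M (τ i) i ∈ VK K 𝒱 (r * e) := by
    have h2 := VK_prod (K := K) (𝒱 := 𝒱) Finset.univ (e := fun _ : Fin r => e) (f := fun i => M (τ i) i) fun i _ => h _ _
    rwa [Finset.sum_const, Finset.card_univ, Fintype.card_fin, smul_eq_mul] at h2
  have h2 := VK_mul (VK_K (𝒱 := 𝒱) (K.intCast_mem (((Equiv.Perm.sign τ : ℤˣ) : ℤ)))) h1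
  rwa [zero_add] at h2

/-- the dimension -/
theorem VK_fin (h𝒱 : 𝒱.FG) (e : ℕ) : Module.Finite K (VK K 𝒱 e) ∧
    Module.finrank K (VK K 𝒱 e) ≤ Module.finrank ℚ (𝒱 ^ e : Submodule ℚ ℂ) := by
  classical
  have h1 : (𝒱 ^ e).FG := h𝒱.pow e
  have h2 : Module.Finite ℚ (𝒱 ^ e : Submodule ℚ ℂ) := Module.Finite.iff_fg.2 h1
  set b := Module.finBasis ℚ (𝒱 ^ e : Submodule ℚ ℂ) with hb
  have h3 : VK K 𝒱 e = Submodule.span K (Set.range fun i => ((b i : (𝒱 ^ e : Submodule ℚ ℂ)) : ℂ)) := by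
    refine le_antisymm (Submodule.span_le.2 fun x hx => ?_) (Submodule.span_mono ?_)
    · have h4 : x = ∑ i, (b.repr ⟨x, hx⟩ i) • ((b i : (𝒱 ^ e : Submodule ℚ ℂ)) : ℂ) := by
        have h5 := congrArg (Submodule.subtype (𝒱 ^ e)) (b.sum_repr ⟨x, hx⟩)
        rw [map_sum] at h5
        simp only [map_smul, Submodule.subtype_apply] at h5
        exact h5.symm
      rw [h4]
      refine Submodule.sum_mem _ fun i _ => ?_
      have h6 : (b.repr ⟨x, hx⟩ i) • ((b i : (𝒱 ^ e : Submodule ℚ ℂ)) : ℂ) =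
          (((b.repr ⟨x, hx⟩ i : ℚ) : K)) • ((b i : (𝒱 ^ e : Submodule ℚ ℂ)) : ℂ) := by
        rw [Rat.smul_def]
        show _ = (((b.repr ⟨x, hx⟩ i : ℚ) : K) : ℂ) * _
        push_cast
        rfl
      rw [h6]
      exact Submodule.smul_mem _ _ (Submodule.subset_span ⟨i, rfl⟩)
    · rintro _ ⟨i, rfl⟩
      exact (b i).2
  rw [h3]
  refine ⟨Module.Finite.iff_fg.2 (Submodule.fg_span (Set.finite_range _)), ?_⟩
  refine (finrank_range_le_card (R := K) fun i => ((b i : (𝒱 ^ e : Submodule ℚ ℂ)) : ℂ)).trans ?_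
  rw [Fintype.card_fin]

/-- the size of the exponents -/
def mg (C s e : ℕ) : ℕ := C * ((s + 1) * e + 1) ^ s

/-- **Relations** -/
theorem exists_relK (h𝒱 : 𝒱.FG) {C e : ℕ} (hgr : ∀ e, Module.finrank ℚ (𝒱 ^ e : Submodule ℚ ℂ) ≤ C * (e + 1) ^ s)
    {ν : Fin (s + 1) → ℂ} {νP : ℂ} (hν : ∀ k, ν k ∈ VK K 𝒱 e) (hP : νP ∈ VK K 𝒱 e) :
    ∃ c : (Fin (s + 1) → Fin (mg C s e + 1)) → ℂ, (∀ α, c α ∈ K) ∧ (∃ α, c α ≠ 0) ∧
      ∑ α, c α * ((∏ k, ν k ^ (α k : ℕ)) * νP ^ ((s + 1) * mg C s e - ∑ k, (α k : ℕ))) = 0 := by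
  classical
  set m := mg C s e with hm
  set A := (s + 1) * m with hA
  have hsum : ∀ α : Fin (s + 1) → Fin (m + 1), ∑ k, (α k : ℕ) ≤ A := by
    intro α
    refine (Finset.sum_le_card_nsmul _ _ m (fun k _ => Nat.lt_succ_iff.1 (α k).2)).trans ?_
    rw [Finset.card_univ, Fintype.card_fin, smul_eq_mul]
  set g : (Fin (s + 1) → Fin (m + 1)) → ℂ := fun α => (∏ k, ν k ^ (α k : ℕ)) * νP ^ (A - ∑ k, (α k : ℕ)) with hg
  have hgm : ∀ α, g α ∈ VK K 𝒱 (A * e) := by
    intro α
    have h1 := VK_prod (K := K) (𝒱 := 𝒱) Finset.univ (e := fun k => (α k : ℕ) * e) (f := fun k => ν k ^ (α k : ℕ))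
      fun k _ => VK_pow (hν k) _
    have h2 := VK_mul h1 (VK_pow hP (A - ∑ k, (α k : ℕ)))
    rw [← Finset.sum_mul, ← add_mul, Nat.add_sub_cancel' (hsum α)] at h2
    exact h2
  obtain ⟨hfin, hle⟩ := VK_fin (K := K) h𝒱 (A * e)
  have hcard : Module.finrank K (VK K 𝒱 (A * e)) < Fintype.card (Fin (s + 1) → Fin (m + 1)) := by
    rw [Fintype.card_fun, Fintype.card_fin, Fintype.card_fin]
    refine lt_of_le_of_lt (hle.trans (hgr _)) ?_
    have h2 : A * e + 1 ≤ ((s + 1) * e + 1) * (m + 1) := by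
      rw [hA]
      nlinarith [Nat.zero_le ((s + 1) * e), Nat.zero_le m]
    calc C * (A * e + 1) ^ s ≤ C * (((s + 1) * e + 1) * (m + 1)) ^ s := Nat.mul_le_mul_left _ (Nat.pow_le_pow_left h2 s)
      _ = m * (m + 1) ^ s := by rw [mul_pow, hm, mg]; ring
      _ < (m + 1) * (m + 1) ^ s := Nat.mul_lt_mul_of_pos_right (Nat.lt_succ_self m) (by positivity)
      _ = (m + 1) ^ (s + 1) := by rw [pow_succ]; ring
  have hdep : ¬ LinearIndependent K (fun α => (⟨g α, hgm α⟩ : VK K 𝒱 (A * e))) := by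
    intro h
    have := h.fintype_card_le_finrank
    omega
  rw [Fintype.not_linearIndependent_iff] at hdep
  obtain ⟨c, hc, α, hα⟩ := hdep
  refine ⟨fun α => (c α : ℂ), fun α => (c α).2, ⟨α, fun h => hα (Subtype.ext h)⟩, ?_⟩
  have h1 := congrArg (Submodule.subtype (VK K 𝒱 (A * e))) hc
  rw [map_sum, map_zero] at h1
  exact h1

/-- a relation with non vanishing derivative -/
theorem exists_minrel {A : ℕ} {R : Fin (s + 1) → ℂ} : ∀ (a : ℕ) (F : MvPolynomial (Fin (s + 1)) ℂ), F ≠ 0 →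
    (∀ m, F.coeff m ∈ K) → F.totalDegree ≤ a → a ≤ A → MvPolynomial.eval R F = 0 →
    ∃ F : MvPolynomial (Fin (s + 1)) ℂ, (∀ m, F.coeff m ∈ K) ∧ F.totalDegree ≤ A ∧ MvPolynomial.eval R F = 0 ∧
      ∃ k, MvPolynomial.eval R (MvPolynomial.pderiv k F) ≠ 0 := by
  classical
  intro a
  induction a with
  | zero =>
    intro F hF0 _ hd _ he
    exfalso
    have h1 := MvPolynomial.totalDegree_eq_zero_iff_eq_C.1 (Nat.le_zero.1 hd)
    rw [h1, MvPolynomial.eval_C] at he
    rw [he, map_zero] at h1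
    exact hF0 h1
  | succ a ih =>
    intro F hF0 hK hd ha he
    by_cases h : ∃ k, MvPolynomial.eval R (MvPolynomial.pderiv k F) ≠ 0
    · exact ⟨F, hK, hd.trans ha, he, h⟩
    push Not at h
    by_cases h2 : ∃ k, MvPolynomial.pderiv k F ≠ 0
    · obtain ⟨k, hk⟩ := h2
      refine ih (MvPolynomial.pderiv k F) hk (fun m => ?_) ?_ (by omega) (h k)
      · rw [MvPolynomial.coeff_pderiv]
        exact K.mul_mem (hK _) (K.add_mem (natCast_mem K _) K.one_mem)
      · refine Finset.sup_le fun m hm => ?_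
        rw [MvPolynomial.mem_support_iff, MvPolynomial.coeff_pderiv] at hm
        have h3 : m + Finsupp.single k 1 ∈ F.support := by
          rw [MvPolynomial.mem_support_iff]
          exact left_ne_zero_of_mul hm
        have h4 := (MvPolynomial.le_totalDegree h3).trans hd
        rw [Finsupp.sum_add_index' (fun _ => rfl) (fun _ _ _ => rfl), Finsupp.sum_single_index rfl] at h4
        omega
    · push Not at h2
      exfalso
      have h3 : F = MvPolynomial.C (F.coeff 0) := by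
        ext m
        rw [MvPolynomial.coeff_C]
        split_ifs with hm
        · rw [← hm]
        · obtain ⟨k, hk⟩ : ∃ k, m k ≠ 0 := by
            by_contra hcon
            push Not at hcon
            exact hm (Finsupp.ext fun k => (hcon k).symm)
          have h4 := congrArg (MvPolynomial.coeff (m - Finsupp.single k 1)) (h2 k)
          rw [MvPolynomial.coeff_pderiv, MvPolynomial.coeff_zero] at h4
          have h5 : m - Finsupp.single k 1 + Finsupp.single k 1 = m := by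
            refine tsub_add_cancel_of_le ?_
            rw [Finsupp.single_le_iff]
            exact Nat.one_le_iff_ne_zero.2 hk
          rw [h5] at h4
          rcases mul_eq_zero.1 h4 with h6 | h6
          · exact h6
          · exfalso
            exact Nat.cast_add_one_ne_zero _ h6
      rw [h3, MvPolynomial.eval_C] at he
      rw [he, map_zero] at h3
      exact hF0 h3

/-- the derivative of a polynomial along a path -/
theorem hasDerivAt_eval {κ : Type} [Fintype κ] (F : MvPolynomial κ ℂ) {f : ℂ → κ → ℂ} {f' : κ → ℂ}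
    (hf : ∀ k, HasDerivAt (fun τ => f τ k) (f' k) 0) :
    HasDerivAt (fun τ => MvPolynomial.eval (f τ) F) (∑ k, MvPolynomial.eval (f 0) (MvPolynomial.pderiv k F) * f' k) 0 := by
  classical
  induction F using MvPolynomial.induction_on with
  | C a =>
    simp only [MvPolynomial.eval_C, MvPolynomial.pderiv_C, map_zero, zero_mul, Finset.sum_const_zero]
    exact hasDerivAt_const _ _
  | add p q hp hq =>
    simp only [map_add, add_mul, Finset.sum_add_distrib]
    exact hp.fun_add hq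
  | mul_X p k hp =>
    simp only [map_mul, MvPolynomial.eval_X]
    refine HasDerivAt.congr_deriv (hp.fun_mul (hf k)) ?_
    have h1 : ∀ j, MvPolynomial.eval (f 0) (MvPolynomial.pderiv j (p * MvPolynomial.X k)) * f' j =
        (MvPolynomial.eval (f 0) (MvPolynomial.pderiv j p) * f' j) * f 0 k +
          (if k = j then MvPolynomial.eval (f 0) p * f' k else 0) := by
      intro j
      rw [MvPolynomial.pderiv_mul, MvPolynomial.pderiv_X]
      by_cases h : k = j
      · subst h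
        rw [Pi.single_eq_same, if_pos rfl]
        simp only [map_add, map_mul, MvPolynomial.eval_X, mul_one]
        ring
      · rw [Pi.single_eq_of_ne h, if_neg h]
        simp only [map_mul, MvPolynomial.eval_X, mul_zero, add_zero]
        ring
    rw [Finset.sum_congr rfl fun j _ => h1 j, Finset.sum_add_distrib, ← Finset.sum_mul, Finset.sum_ite_eq Finset.univ k,
      if_pos (Finset.mem_univ _)]

end Pool.Agent.T44.GF
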