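import Pool.Agent.T44.GF.Gr1

/-!
# Relations between the minors of a polynomial matrix, for values in a space of slow growth
-/

set_option autoImplicit false
set_option linter.unusedSectionVars false

open Matrix

namespace Pool.Agent.T44.GF

open Pool.Agent.T44.EF Pool.Agent.Y118.HP Pool.Agent.Y123.ST

variable {σ ι : Type} {r s d : ℕ} {K : Subfield ℂ} {𝒱 : Submodule ℚ ℂ}

theorem homog {κ : Type} [Fintype κ] (F : MvPolynomial κ ℂ) {A : ℕ} (hA : F.totalDegree ≤ A) (a : κ → ℂ) {b : ℂ} (hb : b ≠ 0) :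
    ∑ m ∈ F.support, F.coeff m * ((∏ k, a k ^ m k) * b ^ (A - ∑ k, m k)) = b ^ A * MvPolynomial.eval (fun k => a k / b) F := by
  classical
  rw [MvPolynomial.eval_eq', Finset.mul_sum]
  refine Finset.sum_congr rfl fun m hm => ?_
  have h1 : ∑ k, m k ≤ A := by
    have h2 := (MvPolynomial.le_totalDegree hm).trans hA
    rwa [Finsupp.sum_fintype _ _ fun _ => rfl] at h2
  have h2 : ∏ k, (a k / b) ^ m k = (∏ k, a k ^ m k) / b ^ (∑ k, m k) := by
    rw [← Finset.prod_pow_eq_pow_sum, ← Finset.prod_div_distrib]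
    exact Finset.prod_congr rfl fun k _ => div_pow _ _ _
  have h3 : b ^ A = b ^ (A - ∑ k, m k) * b ^ (∑ k, m k) := by rw [← pow_add, Nat.sub_add_cancel h1]
  rw [h2, h3]
  have h4 : b ^ (∑ k, m k) ≠ 0 := pow_ne_zero _ hb
  field_simp

/-- **Relations between the derivatives of the minors** -/
theorem rel_vecH {δ : ℕ} {y : σ → ℂ} {𝒵 : Set (σ → ℂ)}
    (hG : ∀ P : MvPolynomial σ ℂ, (∀ m, P.coeff m ∈ K) → P.totalDegree ≤ δ → MvPolynomial.eval y P = 0 →
      ∀ z ∈ 𝒵, MvPolynomial.eval z P = 0)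
    {MP : Fin r → ι → MvPolynomial σ ℂ} (hMP : ∀ i q, Bd K d (MP i q)) (h𝒱 : 𝒱.FG) {C e : ℕ}
    (hgr : ∀ e, Module.finrank ℚ (𝒱 ^ e : Submodule ℚ ℂ) ≤ C * (e + 1) ^ s) {κ : ℂ} {ν : (Fin r → ι) → ℂ}
    (hν : ∀ t, ν t ∈ VK K 𝒱 e) (hM : ∀ t, mn (eM MP y) t = κ * ν t) (hδ : (s + 1) * mg C s e * (r * d) ≤ δ)
    (P : Fin r → ι) (hP : mn (eM MP y) P ≠ 0) (t : Fin (s + 1) → Fin r → ι) :
    ∃ x : Fin (s + 1) → ℂ, x ≠ 0 ∧ ∀ p : ℂ → σ → ℂ, p 0 = y →
      (∀ τ, p τ ∈ 𝒵) → ∀ Nd : (Fin r → ι) → ℂ,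
      (∀ t, HasDerivAt (fun τ => mn (eM MP (p τ)) t) (Nd t) 0) →
      ∑ k, x k * (Nd (t k) * mn (eM MP y) P - mn (eM MP y) (t k) * Nd P) = 0 := by
  classical
  have hκ : κ ≠ 0 := by
    rintro rfl
    rw [hM, zero_mul] at hP
    exact hP rfl
  have hνP : ν P ≠ 0 := by
    intro h
    rw [hM, h, mul_zero] at hP
    exact hP rfl
  have hrel := exists_relK (K := K) h𝒱 hgr (fun k => hν (t k)) (hν P)
  obtain ⟨m, hm⟩ : ∃ m, mg C s e = m := ⟨_, rfl⟩
  rw [hm] at hrel hδ
  obtain ⟨c, hcK, ⟨α₀, hα₀⟩, hc⟩ := hrel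
  set A := (s + 1) * m with hA
  have hsum : ∀ α : Fin (s + 1) → Fin (m + 1), ∑ k, (α k : ℕ) ≤ A := by
    intro α
    refine (Finset.sum_le_card_nsmul _ _ m (fun k _ => Nat.lt_succ_iff.1 (α k).2)).trans ?_
    rw [Finset.card_univ, Fintype.card_fin, smul_eq_mul]
  set b := mn (eM MP y) P with hb
  set R : Fin (s + 1) → ℂ := fun k => mn (eM MP y) (t k) / b with hR
  have hRν : ∀ k, R k = ν (t k) / ν P := by
    intro k
    rw [hR]
    simp only
    rw [hb, hM, hM, mul_div_mul_left _ _ hκ]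
  set F0 : MvPolynomial (Fin (s + 1)) ℂ := ∑ α : Fin (s + 1) → Fin (m + 1),
    MvPolynomial.C (c α) * ∏ k, MvPolynomial.X k ^ (α k : ℕ) with hF0
  have hF0bd : Bd K A F0 := by
    refine Bd.sum _ fun α _ => ?_
    have h1 := Bd.prod (K := K) Finset.univ (e := fun k : Fin (s + 1) => (α k : ℕ) * 1)
      (P := fun k : Fin (s + 1) => (MvPolynomial.X k : MvPolynomial (Fin (s + 1)) ℂ) ^ (α k : ℕ))
      fun k _ => (Bd.X k).pow _
    refine ((Bd.C (hcK α)).mul h1).mono ?_
    simp only [mul_one, zero_add]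
    exact hsum α
  have hF0m : ∀ α : Fin (s + 1) → Fin (m + 1), MvPolynomial.C (c α) * ∏ k, MvPolynomial.X k ^ (α k : ℕ) =
      MvPolynomial.monomial (Finsupp.equivFunOnFinite.symm fun k => (α k : ℕ)) (c α) := by
    intro α
    rw [MvPolynomial.monomial_eq, Finsupp.prod_fintype _ _ fun _ => pow_zero _]
    rfl
  have hF00 : F0 ≠ 0 := by
    intro h
    apply hα₀
    have h1 := congrArg (MvPolynomial.coeff (Finsupp.equivFunOnFinite.symm fun k => (α₀ k : ℕ))) h
    rw [hF0, MvPolynomial.coeff_sum, Finset.sum_eq_single α₀] at h1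
    · rw [hF0m, MvPolynomial.coeff_monomial, if_pos rfl, MvPolynomial.coeff_zero] at h1
      exact h1
    · intro α _ hα
      rw [hF0m, MvPolynomial.coeff_monomial, if_neg]
      intro h2
      apply hα
      funext k
      have h3 := DFunLike.congr_fun h2 k
      exact Fin.ext h3
    · intro h2
      exact absurd (Finset.mem_univ _) h2
  have hF0e : MvPolynomial.eval R F0 = 0 := by
    have h1 : ν P ^ A * MvPolynomial.eval R F0 = 0 := by
      rw [← hc, hF0, map_sum, Finset.mul_sum]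
      refine Finset.sum_congr rfl fun α _ => ?_
      rw [map_mul, map_prod, MvPolynomial.eval_C]
      have h2 : ∏ k, MvPolynomial.eval R (MvPolynomial.X k ^ (α k : ℕ)) = (∏ k, ν (t k) ^ (α k : ℕ)) / ν P ^ (∑ k, (α k : ℕ)) := by
        rw [← Finset.prod_pow_eq_pow_sum, ← Finset.prod_div_distrib]
        refine Finset.prod_congr rfl fun k _ => ?_
        rw [map_pow, MvPolynomial.eval_X, hRν, div_pow]
      have h3 : ν P ^ A = ν P ^ (A - ∑ k, (α k : ℕ)) * ν P ^ (∑ k, (α k : ℕ)) := by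
        rw [← pow_add, Nat.sub_add_cancel (hsum α)]
      rw [h2, h3]
      have h4 : ν P ^ (∑ k, (α k : ℕ)) ≠ 0 := pow_ne_zero _ hνP
      field_simp
    exact (mul_eq_zero.1 h1).resolve_left (pow_ne_zero _ hνP)
  obtain ⟨F, hFK, hFA, hFe, k₀, hk₀⟩ := exists_minrel (K := K) (A := A) A F0 hF00 (PK_coeff hF0bd.1) hF0bd.2 le_rfl hF0e
  -- the polynomial relation
  set G : MvPolynomial σ ℂ := ∑ q ∈ F.support,
    MvPolynomial.C (F.coeff q) * ((∏ k, mP MP (t k) ^ q k) * mP MP P ^ (A - ∑ k, q k)) with hGdef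
  have hGe : ∀ z, MvPolynomial.eval z G = ∑ q ∈ F.support, F.coeff q * ((∏ k, mn (eM MP z) (t k) ^ q k) *
      mn (eM MP z) P ^ (A - ∑ k, q k)) := by
    intro z
    rw [hGdef]
    simp only [map_sum, map_mul, map_prod, map_pow, MvPolynomial.eval_C, eval_mP]
  have hGbd : Bd K (A * (r * d)) G := by
    refine Bd.sum _ fun q hq => ?_
    have h1 := Bd.prod Finset.univ (e := fun k => q k * (r * d)) (P := fun k => mP MP (t k) ^ q k)
      (fun k _ => (Bd_mP hMP (t k)).pow _)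
    have h2 := (Bd_mP hMP P).pow (A - ∑ k, q k)
    have h3 := (Bd.C (σ := σ) (hFK q)).mul (h1.mul h2)
    refine h3.mono ?_
    rw [zero_add, ← Finset.sum_mul, ← add_mul]
    refine Nat.mul_le_mul_right _ (le_of_eq (Nat.add_sub_cancel' ?_))
    have h4 := (MvPolynomial.le_totalDegree hq).trans hFA
    rwa [Finsupp.sum_fintype _ _ fun _ => rfl] at h4
  have hG0 : MvPolynomial.eval y G = 0 := by
    rw [hGe, homog F hFA _ hP]
    show b ^ A * MvPolynomial.eval R F = 0
    rw [hFe, mul_zero]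
  have hGall := hG G (PK_coeff hGbd.1) (hGbd.2.trans hδ) hG0
  refine ⟨fun k => MvPolynomial.eval R (MvPolynomial.pderiv k F), fun h => hk₀ (congrFun h k₀), ?_⟩
  intro p hp hps Nd hNd
  have hp0 : ∀ t, mn (eM MP (p 0)) t = mn (eM MP y) t := fun t => by rw [hp]
  have hbne : mn (eM MP (p 0)) P ≠ 0 := by rw [hp0]; exact hP
  have hq : ∀ k, HasDerivAt (fun τ => mn (eM MP (p τ)) (t k) / mn (eM MP (p τ)) P)
      ((Nd (t k) * mn (eM MP (p 0)) P - mn (eM MP (p 0)) (t k) * Nd P) / mn (eM MP (p 0)) P ^ 2) 0 :=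
    fun k => (hNd (t k)).fun_div (hNd P) hbne
  have h1 := hasDerivAt_eval F (f := fun τ k => mn (eM MP (p τ)) (t k) / mn (eM MP (p τ)) P) hq
  have hev : ∀ᶠ τ in nhds (0 : ℂ), MvPolynomial.eval (fun k => mn (eM MP (p τ)) (t k) / mn (eM MP (p τ)) P) F = 0 := by
    have h2 := (hNd P).continuousAt.eventually_ne hbne
    filter_upwards [h2] with τ hτ
    have h3 := hGall (p τ) (hps τ)
    rw [hGe, homog F hFA _ hτ] at h3
    exact (mul_eq_zero.1 h3).resolve_left (pow_ne_zero _ hτ)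
  have h2 : HasDerivAt (fun τ => MvPolynomial.eval (fun k => mn (eM MP (p τ)) (t k) / mn (eM MP (p τ)) P) F) 0 0 :=
    (hasDerivAt_const (0 : ℂ) (0 : ℂ)).congr_of_eventuallyEq hev
  have h3 := h1.unique h2
  simp only [hp0] at h3
  have h4 : ∑ k, MvPolynomial.eval R (MvPolynomial.pderiv k F) *
      (Nd (t k) * b - mn (eM MP y) (t k) * Nd P) = b ^ 2 * 0 := by
    rw [← h3, Finset.mul_sum]
    refine Finset.sum_congr rfl fun k _ => ?_
    show _ = b ^ 2 * (MvPolynomial.eval R (MvPolynomial.pderiv k F) * ((Nd (t k) * b - mn (eM MP y) (t k) * Nd P) / b ^ 2))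
    field_simp
  rw [mul_zero] at h4
  exact h4

/-- **Rank**: more directions than the growth exponent are dependent modulo the space -/
theorem rankH {δ : ℕ} {y : σ → ℂ} {𝒵 : Set (σ → ℂ)}
    (hG : ∀ P : MvPolynomial σ ℂ, (∀ m, P.coeff m ∈ K) → P.totalDegree ≤ δ → MvPolynomial.eval y P = 0 →
      ∀ z ∈ 𝒵, MvPolynomial.eval z P = 0)
    {MP : Fin r → ι → MvPolynomial σ ℂ} (hMP : ∀ i q, Bd K d (MP i q))
    (hli : ∀ x : Fin r → ℂ, (∀ q, ∑ i, x i * eM MP y i q = 0) → x = 0) (h𝒱 : 𝒱.FG) {C e : ℕ}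
    (hgr : ∀ e, Module.finrank ℚ (𝒱 ^ e : Submodule ℚ ℂ) ≤ C * (e + 1) ^ s) {κ : ℂ} {ν : (Fin r → ι) → ℂ}
    (hν : ∀ t, ν t ∈ VK K 𝒱 e) (hM : ∀ t, mn (eM MP y) t = κ * ν t) (hδ : (s + 1) * mg C s e * (r * d) ≤ δ)
    (p : Fin (s + 1) → ℂ → σ → ℂ) (hp0 : ∀ j, p j 0 = y) (hp : ∀ j τ, p j τ ∈ 𝒵)
    (M' : Fin (s + 1) → Fin r → ι → ℂ) (hdM : ∀ j i q, HasDerivAt (fun τ => eM MP (p j τ) i q) (M' j i q) 0) :
    ∃ x : Fin (s + 1) → ℂ, x ≠ 0 ∧ ∀ i, ∃ c : Fin r → ℂ, ∀ q, ∑ j, x j * M' j i q = ∑ i', c i' * eM MP y i' q := by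
  classical
  by_contra hcon
  push Not at hcon
  -- a non zero minor
  obtain ⟨P, -, hP⟩ := Pool.Agent.Y113.GG.exists_minor (fun i => eM MP y i) Set.univ (by
    intro x hx
    exact hli x fun q => hx q (Set.mem_univ _))
  have hP' : mn (eM MP y) P ≠ 0 := hP
  set M := eM MP y with hMdef
  have hdN : ∀ j t, ∃ x, HasDerivAt (fun τ => mn (eM MP (p j τ)) t) x 0 :=
    fun j t => ⟨_, (diff_mn (M := fun τ => eM MP (p j τ)) (fun i q => (hdM j i q).differentiableAt) t).hasDerivAt⟩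
  choose Nd hNd using hdN
  have hM0 : ∀ j, eM MP (p j 0) = M := fun j => by rw [hp0]
  -- the differentiated Cramer rule
  have hcr : ∀ j i q, ∑ k, (M' j i (P k) * mn M (Function.update P k q) + M i (P k) * Nd j (Function.update P k q)) =
      Nd j P * M i q + mn M P * M' j i q := by
    intro j i q
    have h1 := HasDerivAt.fun_sum (u := Finset.univ) fun k _ => (hdM j i (P k)).fun_mul (hNd j (Function.update P k q))
    have h2 := (hNd j P).fun_mul (hdM j i q)
    simp only [cramer_id] at h1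
    rw [hM0] at h1 h2
    exact h1.unique h2
  set Λ : Fin (s + 1) → (Fin r × ι) → ℂ := fun j kq =>
    Nd j (Function.update P kq.1 kq.2) * mn M P - mn M (Function.update P kq.1 kq.2) * Nd j P with hΛ
  obtain ⟨J, -, hJ⟩ := Pool.Agent.Y113.GG.exists_minor Λ Set.univ (by
    intro x hx
    by_contra hx0
    have hx' : ∀ k q, (∑ j, x j * Nd j (Function.update P k q)) * mn M P =
        mn M (Function.update P k q) * ∑ j, x j * Nd j P := by
      intro k q
      have h1 := hx (k, q) (Set.mem_univ _)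
      simp only [hΛ, mul_sub, Finset.sum_sub_distrib] at h1
      rw [sub_eq_zero] at h1
      rw [Finset.sum_mul, Finset.mul_sum]
      refine Eq.trans (Finset.sum_congr rfl fun j _ => ?_) (h1.trans (Finset.sum_congr rfl fun j _ => ?_)) <;> ring
    set Mx : Fin r → ι → ℂ := fun i q => ∑ j, x j * M' j i q with hMx
    have h2 : ∀ i q, Mx i q = ∑ k, (Mx i (P k) / mn M P) * mn M (Function.update P k q) := by
      intro i q
      have h3 : ∑ k, (Mx i (P k) * mn M (Function.update P k q) +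
          M i (P k) * ∑ j, x j * Nd j (Function.update P k q)) = (∑ j, x j * Nd j P) * M i q + mn M P * Mx i q := by
        have h4 : ∑ j, x j * ∑ k, (M' j i (P k) * mn M (Function.update P k q) + M i (P k) * Nd j (Function.update P k q)) =
            ∑ j, x j * (Nd j P * M i q + mn M P * M' j i q) := Finset.sum_congr rfl fun j _ => by rw [hcr]
        have h5 : ∑ j, x j * (Nd j P * M i q + mn M P * M' j i q) = (∑ j, x j * Nd j P) * M i q + mn M P * Mx i q := by
          simp only [hMx, Finset.sum_mul, Finset.mul_sum, ← Finset.sum_add_distrib]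
          exact Finset.sum_congr rfl fun j _ => by ring
        rw [← h5, ← h4]
        simp only [hMx, Finset.sum_mul, Finset.mul_sum, ← Finset.sum_add_distrib]
        rw [Finset.sum_comm]
        exact Finset.sum_congr rfl fun j _ => Finset.sum_congr rfl fun k _ => by ring
      have h6 : ∑ k, M i (P k) * ((∑ j, x j * Nd j (Function.update P k q)) * mn M P) =
          (∑ j, x j * Nd j P) * (mn M P * M i q) := by
        rw [← cramer_id M P i q, Finset.mul_sum]
        refine Finset.sum_congr rfl fun k _ => ?_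
        rw [hx']
        ring
      have h7 : mn M P * Mx i q = ∑ k, Mx i (P k) * mn M (Function.update P k q) := by
        have h8 : mn M P * (mn M P * Mx i q) = mn M P * ∑ k, Mx i (P k) * mn M (Function.update P k q) := by
          rw [Finset.sum_add_distrib] at h3
          have h9 : mn M P * ∑ k, M i (P k) * ∑ j, x j * Nd j (Function.update P k q) =
              (∑ j, x j * Nd j P) * (mn M P * M i q) := by
            rw [← h6, Finset.mul_sum]
            exact Finset.sum_congr rfl fun k _ => by ring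
          linear_combination h9 - mn M P * h3
        exact mul_left_cancel₀ hP' h8
      have h10 : Mx i q = (mn M P)⁻¹ * (mn M P * Mx i q) := by
        rw [← mul_assoc, inv_mul_cancel₀ hP', one_mul]
      rw [h10, h7, Finset.mul_sum]
      exact Finset.sum_congr rfl fun k _ => by rw [div_eq_mul_inv]; ring
    obtain ⟨i, hi⟩ := hcon x hx0
    obtain ⟨q, hq⟩ := hi (fun i' => ∑ k, (Mx i (P k) / mn M P) * (M.submatrix id P).adjugate k i')
    apply hq
    show Mx i q = _
    rw [h2]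
    simp only [cramer_adj, Finset.mul_sum, Finset.sum_mul]
    rw [Finset.sum_comm]
    exact Finset.sum_congr rfl fun i' _ => Finset.sum_congr rfl fun k _ => by ring)
  obtain ⟨x, hx0, hx⟩ := rel_vecH hG hMP h𝒱 hgr hν hM hδ P hP' (fun b => Function.update P (J b).1 (J b).2)
  apply hJ
  rw [← Matrix.exists_mulVec_eq_zero_iff]
  refine ⟨x, hx0, ?_⟩
  funext j
  have h1 := hx (p j) (hp0 j) (hp j) (Nd j) (hNd j)
  show ∑ b, Λ j (J b) * x b = 0
  rw [← h1]
  exact Finset.sum_congr rfl fun b _ => by rw [mul_comm]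

end Pool.Agent.T44.GF
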