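import Pool.Agent.T44.GF.Gr2
import Pool.Agent.T44.GF.Blk

/-!
# The rank argument for an arbitrary constant matrix
-/

set_option autoImplicit false
set_option linter.unusedSectionVars false

open Matrix

namespace Pool.Agent.T44.GF

open Pool.Agent.T44.EF Pool.Agent.Y123.GN Pool.Agent.TH127.PT Pool.Agent.Y123.ST Pool.Agent.Y123.SR Pool.Agent.TH119.DR
  Pool.Agent.TH119.MX Pool.Agent.Y118.HP

/-- the bound for the degrees -/
def dgr (C s r d : ℕ) : ℕ := (s + 1) * mg C s (r * d) * (r * d)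

theorem dgr_mono {C s r r' d : ℕ} (h : r ≤ r') : dgr C s r d ≤ dgr C s r' d := by
  unfold dgr mg
  gcongr

variable {M : Type} [Fintype M] [DecidableEq M] {K K' : Subfield ℂ} {T : Set (Matrix M M ℂ)} {d s : ℕ} {σ : Type}
  {𝒱 : Submodule ℚ ℂ}

/-- the entries of the action of a matrix with entries in the space -/
theorem rh_VK {A : Matrix M M ℂ} (hA : ∀ i j, A i j ∈ 𝒱) {u : (Fin d → M × M) → ℂ} (hu : ∀ q, u q ∈ K)
    (q : Fin d → M × M) : rh (Rg A) u q ∈ VK K 𝒱 d := by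
  rw [rh_apply]
  refine Submodule.sum_mem _ fun J _ => ?_
  have h1 : ∏ t, Rg A (q t) (J t) ∈ VK K 𝒱 d := by
    have h2 := VK_prod (K := K) (𝒱 := 𝒱) Finset.univ (e := fun _ : Fin d => 1) (f := fun t => Rg A (q t) (J t))
      fun t _ => by
        rw [Rg_apply]
        split_ifs
        · exact VK_one (hA _ _)
        · exact Submodule.zero_mem _
    simpa using h2
  have h3 := VK_mul (VK_K (𝒱 := 𝒱) (hu J)) h1
  rwa [zero_add] at h3

/-- **The rank argument** -/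
theorem rankTH (hKK' : K ≤ K') {δ : ℕ} {y : σ → ℂ} {𝒵 : Set (σ → ℂ)}
    (hG : ∀ P : MvPolynomial σ ℂ, (∀ m, P.coeff m ∈ K') → P.totalDegree ≤ δ → MvPolynomial.eval y P = 0 →
      ∀ z ∈ 𝒵, MvPolynomial.eval z P = 0)
    {x : Matrix M M ℂ} (hxd : IsUnit x.det) (hx𝒱 : ∀ i j, x⁻¹ i j ∈ 𝒱) (h𝒱 : 𝒱.FG) {C : ℕ}
    (hgr : ∀ e, Module.finrank ℚ (𝒱 ^ e : Submodule ℚ ℂ) ≤ C * (e + 1) ^ s)
    {Yp : Matrix M M (MvPolynomial σ ℂ)} (hY : ∀ i j, Bd K' 1 (Yp i j))
    (hYd : IsUnit (Yp.map (MvPolynomial.eval y)).det) (hT : IsSubtorsor K T)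
    {c : Matrix M M ℂ} (hc : c = x * Yp.map (MvPolynomial.eval y))
    (hcT : c ∈ T) (hδ : dgr C s (Fintype.card (Fin d → M × M)) d ≤ δ)
    (E : Fin (s + 1) → Matrix M M ℂ) (hE : ∀ j, IsNilpotent (E j)) (p : Fin (s + 1) → ℂ → σ → ℂ)
    (hp0 : ∀ j, p j 0 = y) (hp : ∀ j τ, p j τ ∈ 𝒵)
    (hpE : ∀ j τ, Yp.map (MvPolynomial.eval (p j τ)) = IsNilpotent.exp (τ • E j) * Yp.map (MvPolynomial.eval y)) :
    ∃ z : Fin (s + 1) → ℂ, z ≠ 0 ∧ ∀ u ∈ (Ta T d).map (rh (Rg (Yp.map (MvPolynomial.eval y)))),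
      Lt (Rg (∑ j, z j • E j)) u ∈ (Ta T d).map (rh (Rg (Yp.map (MvPolynomial.eval y)))) := by
  classical
  set Y := Yp.map (MvPolynomial.eval y) with hYdef
  set r := Module.finrank ℂ (Ta T d) with hr
  have hrle : r ≤ Fintype.card (Fin d → M × M) := by
    rw [hr, ← Module.finrank_fintype_fun_eq_card ℂ (η := Fin d → M × M)]
    exact Submodule.finrank_le _
  obtain ⟨b, hbK, hbli, hbspan⟩ := exists_Kbasis (Ta_def hT d) hr.symm
  have hinjc : Function.Injective (rh (d := d) (Rg c)) := Rg_inj (inv_mul' hT hcT)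
  have hfin : Module.finrank ℂ (Tb T d) = r := by
    rw [← Ta_map hT hcT]
    exact (LinearEquiv.finrank_eq (Submodule.equivMapOfInjective _ hinjc (Ta T d))).symm
  obtain ⟨b', hb'K, hb'li, hb'span⟩ := exists_Kbasis (Tb_def hT d) hfin
  -- coefficients
  have hC0 : ∀ i, ∃ C0 : Fin r → ℂ, ∑ k, C0 k • b' k = rh (Rg c) (b i) := by
    intro i
    have h1 : rh (Rg c) (b i) ∈ Tb T d := by
      rw [← Ta_map hT hcT]
      refine ⟨b i, ?_, rfl⟩
      have : b i ∈ Submodule.span ℂ (Set.range b) := Submodule.subset_span ⟨i, rfl⟩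
      rwa [hbspan] at this
    rw [← hb'span] at h1
    exact (Submodule.mem_span_range_iff_exists_fun ℂ).1 h1
  choose C0 hC0 using hC0
  have hinjY : Function.Injective (rh (d := d) (Rg Y)) := Rg_inj (nonsing_inv_mul _ hYd)
  set B : Matrix (Fin r) (Fin d → M × M) ℂ := Matrix.of fun k q => rh (Rg x⁻¹) (b' k) q with hB
  have hkey : Y = x⁻¹ * c := by
    rw [hc, ← Matrix.mul_assoc, nonsing_inv_mul _ hxd, Matrix.one_mul]
  have h1K : ∀ i j, (1 : Matrix M M ℂ) i j ∈ K' := by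
    intro i j
    rw [Matrix.one_apply]
    split_ifs
    · exact K'.one_mem
    · exact K'.zero_mem
  have hM : ∀ i q, eM (MPt 1 Yp b) y i q = ∑ k, C0 i k * B k q * (fun _ => (1 : ℂ)) q := by
    intro i q
    rw [eM_MPt, Matrix.one_mul, ← hYdef, hkey, ← Rg_mul, ← rh_mul, Module.End.mul_apply, ← hC0 i, map_sum,
      Finset.sum_apply]
    refine Finset.sum_congr rfl fun k _ => ?_
    rw [map_smul, Pi.smul_apply, smul_eq_mul, mul_one]
    rfl
  have hmn : ∀ t, mn (eM (MPt 1 Yp b) y) t = (Matrix.of C0).det * mn B t := by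
    intro t
    rw [mn_fac (C := Matrix.of C0) (B := B) (χ := fun _ => 1) hM]
    simp
  have hν : ∀ t, mn B t ∈ VK K' 𝒱 (r * d) := by
    intro t
    unfold mn
    exact VK_det fun i j => rh_VK hx𝒱 (fun q => hKK' (hb'K i q)) _
  -- the derivatives
  have hdM : ∀ j i q, HasDerivAt (fun τ => eM (MPt 1 Yp b) (p j τ) i q)
      (Lt (Rg (E j)) (rh (Rg Y) (b i)) q) 0 := by
    intro j i q
    have h1 : ∀ τ, eM (MPt 1 Yp b) (p j τ) i q = rh (IsNilpotent.exp (τ • Rg (E j))) (rh (Rg Y) (b i)) q := by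
      intro τ
      rw [eM_MPt, hpE, Matrix.one_mul, ← Rg_mul, ← rh_mul, Module.End.mul_apply, Rg_exp (hE j)]
    simp only [h1]
    exact rh_deriv' (Rg_nil (hE j)) _ q
  obtain ⟨z, hz0, hz⟩ := rankH hG (MP := MPt 1 Yp b) (Bd_MPt h1K hY fun i J => hKK' (hbK i J)) (by
    intro z hz
    have h1 : rh (Rg Y) (∑ i, z i • b i) = 0 := by
      rw [map_sum]
      funext q
      rw [Finset.sum_apply, Pi.zero_apply, ← hz q]
      refine Finset.sum_congr rfl fun i _ => ?_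
      rw [map_smul, Pi.smul_apply, smul_eq_mul, eM_MPt, Matrix.one_mul]
    have h2 := hinjY (h1.trans (map_zero _).symm)
    funext i
    exact Fintype.linearIndependent_iff.1 hbli z h2 i) h𝒱 hgr hν hmn ((dgr_mono hrle).trans hδ) p hp0 hp
    (fun j i q => Lt (Rg (E j)) (rh (Rg Y) (b i)) q) hdM
  refine ⟨z, hz0, ?_⟩
  have hLs : Lt (d := d) (Rg (∑ j, z j • E j)) = ∑ j, z j • Lt (Rg (E j)) := by
    rw [← RgA_apply, map_sum, map_sum]
    refine Finset.sum_congr rfl fun j _ => ?_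
    rw [map_smul, map_smul]
    rfl
  have hbase : ∀ i, Lt (Rg (∑ j, z j • E j)) (rh (Rg Y) (b i)) ∈ (Ta T d).map (rh (Rg Y)) := by
    intro i
    obtain ⟨c', hc'⟩ := hz i
    have h1 : Lt (Rg (∑ j, z j • E j)) (rh (Rg Y) (b i)) = rh (Rg Y) (∑ i', c' i' • b i') := by
      funext q
      rw [hLs, LinearMap.sum_apply, Finset.sum_apply]
      have h2 : ∀ j, (z j • Lt (Rg (E j))) (rh (Rg Y) (b i)) q = z j * Lt (Rg (E j)) (rh (Rg Y) (b i)) q := fun j => rfl
      rw [Finset.sum_congr rfl fun j _ => h2 j, hc' q, map_sum, Finset.sum_apply]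
      refine Finset.sum_congr rfl fun i' _ => ?_
      rw [map_smul, Pi.smul_apply, smul_eq_mul, eM_MPt, Matrix.one_mul]
    rw [h1]
    refine ⟨∑ i', c' i' • b i', ?_, rfl⟩
    rw [← hbspan]
    exact Submodule.sum_mem _ fun i' _ => Submodule.smul_mem _ _ (Submodule.subset_span ⟨i', rfl⟩)
  rintro _ ⟨a, ha, rfl⟩
  have ha' : a ∈ Submodule.span ℂ (Set.range b) := by
    rw [hbspan]
    exact ha
  clear ha
  induction ha' using Submodule.span_induction with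
  | mem u hu =>
    obtain ⟨i, rfl⟩ := hu
    exact hbase i
  | zero => rw [map_zero, map_zero]; exact Submodule.zero_mem _
  | add u u' _ _ h h' => rw [map_add, map_add]; exact Submodule.add_mem _ h h'
  | smul c u _ h => rw [map_smul, map_smul]; exact Submodule.smul_mem _ _ h

variable {B₀ : Type} [Fintype B₀] [DecidableEq B₀] {n k : ℕ}

/-- **Homogeneous relations of degree `d` on `T` are stable** -/
theorem blkRelH {δ D : ℕ} (hK : FiniteDimensional ℚ K) (hKD : Module.finrank ℚ K ≤ D)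
    {𝒩 : Set (Matrix (Fin n) (Fin n) ℂ)} (hnil : ∀ N ∈ 𝒩, IsNilpotent N) (hsub : NoSub s 𝒩)
    {C₀ : Matrix B₀ B₀ ℂ} {Ω Θ : Matrix (Fin n) (Fin n) ℂ} (hΩΘ : Ω * Θ = 1) (hΘΩ : Θ * Ω = 1)
    (hC₀ : IsUnit C₀.det) (h𝒱 : 𝒱.FG) (hC₀𝒱 : ∀ i j, C₀⁻¹ i j ∈ 𝒱) (hΘ𝒱 : ∀ i j, Θ i j ∈ 𝒱) {C : ℕ}
    (hgr : ∀ e, Module.finrank ℚ (𝒱 ^ e : Submodule ℚ ℂ) ≤ C * (e + 1) ^ s) {y : Fin k → Matrix (Fin n) (Fin n) ℂ}
    (hy : ∀ l, IsUnit (y l).det) (hG : GenG (EG 𝒩) Ω Θ y δ D)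
    {T : Set (Matrix (I2 B₀ n k) (I2 B₀ n k) ℂ)} (hT : IsSubtorsor K T) (hcT : E2 C₀ (fun l => Ω * y l) ∈ T)
    (hδ : dgr C s (Fintype.card (Fin d → I2 B₀ n k × I2 B₀ n k)) d ≤ δ) (N : Matrix (Fin n) (Fin n) ℂ) (hN : N ∈ 𝒩)
    (l : Fin k) (τ : ℂ) :
    RhT T d (IsNilpotent.exp (τ • E2 (0 : Matrix B₀ B₀ ℂ) (Pi.single l N)) * E2 C₀ (fun l => Ω * y l)) := by
  classical
  set Y : Matrix (I2 B₀ n k) (I2 B₀ n k) ℂ := (Yg B₀ n k).map (MvPolynomial.eval (cf y)) with hYdef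
  have hY : Y = E2 1 y := Yg_eval y
  set x : Matrix (I2 B₀ n k) (I2 B₀ n k) ℂ := E2 C₀ (fun _ : Fin k => Ω) with hx
  have hc : E2 C₀ (fun l => Ω * y l) = x * Y := by rw [hY, hx, E2_mul, Matrix.mul_one]
  have hdet : ∀ (A : Matrix B₀ B₀ ℂ) (X : Fin k → Matrix (Fin n) (Fin n) ℂ), IsUnit A.det → (∀ l, IsUnit (X l).det) →
      IsUnit (E2 A X).det := fun A X hA hX =>
    (Matrix.isUnit_iff_isUnit_det _).1 (E2_isUnit ((Matrix.isUnit_iff_isUnit_det A).2 hA) hX)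
  have hYd : IsUnit Y.det := by
    rw [hY]
    exact hdet _ _ (by rw [det_one]; exact isUnit_one) hy
  have hΩd : IsUnit Ω.det := Matrix.isUnit_det_of_right_inverse hΩΘ
  have hxd : IsUnit x.det := hdet _ _ hC₀ fun _ => hΩd
  have hxinv : x⁻¹ = E2 C₀⁻¹ (fun _ => Θ) := by
    apply inv_eq_right_inv
    rw [hx, E2_mul, mul_nonsing_inv _ hC₀]
    have : (fun _ : Fin k => Ω * Θ) = 1 := by
      funext l
      exact hΩΘ
    rw [this, E2_one]
  have hx𝒱 : ∀ i j, x⁻¹ i j ∈ 𝒱 := by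
    intro i j
    rw [hxinv]
    obtain a | a := i <;> obtain b | b := j
    · exact hC₀𝒱 a b
    · exact 𝒱.zero_mem
    · exact 𝒱.zero_mem
    · show bd (fun _ : Fin k => Θ) a b ∈ 𝒱
      rw [show bd (fun _ : Fin k => Θ) a b = if a.2 = b.2 then Θ a.1 b.1 else 0 from blockDiagonal_apply _ _ _]
      split_ifs
      · exact hΘ𝒱 _ _
      · exact 𝒱.zero_mem
  -- the directions
  have hdnil : ∀ (l : Fin k) (N : Matrix (Fin n) (Fin n) ℂ), N ∈ 𝒩 → IsNilpotent (dir B₀ n k Ω Θ l N) := fun l N hN =>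
    E_single_nil (conj_nil hΩΘ (hnil N hN)) l
  have hdexp : ∀ (l : Fin k) (N : Matrix (Fin n) (Fin n) ℂ), N ∈ 𝒩 → ∀ τ : ℂ,
      IsNilpotent.exp (τ • dir B₀ n k Ω Θ l N) = E2 1 (sg l (Θ * IsNilpotent.exp (τ • N) * Ω)) := by
    intro l N hN τ
    rw [dir_apply, exp_single (conj_nil hΩΘ (hnil N hN)), conj_exp hΩΘ hΘΩ (hnil N hN)]
  -- the stable directions
  have hst : ∀ l, 𝒩 ⊆ Hs T d Y (dir B₀ n k Ω Θ l) := by
    intro l
    refine hsub _ (fun A hA B hB => ?_) fun v hv hli => ?_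
    · rw [mem_Hs, map_sub, ← dir_mul hΩΘ, ← dir_mul hΩΘ]
      exact Stb.bracket hA hB
    · set p : Fin (s + 1) → ℂ → Fin k × (Fin n × Fin n) → ℂ := fun j τ =>
        cf fun l' => Θ * (sg l (IsNilpotent.exp (τ • v j)) l') * Ω * y l' with hp
      have hsgp : ∀ (j : Fin (s + 1)) (τ : ℂ), (fun l' => Θ * (sg l (IsNilpotent.exp (τ • v j)) l') * Ω * y l') =
          fun l' => sg l (Θ * IsNilpotent.exp (τ • v j) * Ω) l' * y l' := by
        intro j τ
        funext l'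
        by_cases h : l' = l
        · subst h
          rw [sg_same, sg_same]
        · rw [sg_ne h, sg_ne h, Matrix.mul_one, hΘΩ]
      obtain ⟨c, hc0, hcs⟩ := rankTH (d := d) (le_refl K) (δ := δ) (y := cf y)
        (𝒵 := {z | ∃ g : Fin k → Matrix (Fin n) (Fin n) ℂ, (∀ l, g l ∈ EG 𝒩) ∧ z = cf fun l => Θ * g l * Ω * y l})
        (fun P hP hd h0 z hz => by
          obtain ⟨g, hg, rfl⟩ := hz
          exact hG K hK hKD P hP hd h0 g hg)
        hxd hx𝒱 h𝒱 hgr (Yp := Yg B₀ n k) Yg_bd hYd hT (c := E2 C₀ fun l => Ω * y l) hc hcT hδ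
        (fun j => dir B₀ n k Ω Θ l (v j)) (fun j => hdnil l _ (hv j)) p
        (by
          intro j
          simp only [hp]
          rw [hsgp]
          congr 1
          funext l'
          rw [zero_smul, IsNilpotent.exp_zero, Matrix.mul_one, hΘΩ, sg_one]
          exact Matrix.one_mul _)
        (by
          intro j τ
          refine ⟨fun l' => sg l (IsNilpotent.exp (τ • v j)) l', fun l' => ?_, rfl⟩
          show sg l (IsNilpotent.exp (τ • v j)) l' ∈ EG 𝒩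
          by_cases h : l' = l
          · subst h
            rw [sg_same]
            exact Submonoid.subset_closure ⟨v j, hv j, τ, rfl⟩
          · rw [sg_ne h]
            exact Submonoid.one_mem _)
        (by
          intro j τ
          rw [hp]
          simp only
          rw [hsgp, Yg_eval, Yg_eval, hdexp l _ (hv j), E2_mul, Matrix.one_mul])
      apply hc0
      have h1 : ∑ j, c j • v j ∈ Hs T d Y (dir B₀ n k Ω Θ l) := by
        rw [mem_Hs, map_sum]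
        have h2 : ∑ j, dir B₀ n k Ω Θ l (c j • v j) = ∑ j, c j • dir B₀ n k Ω Θ l (v j) :=
          Finset.sum_congr rfl fun j _ => map_smul _ _ _
        rw [h2]
        exact hcs
      have h3 : ∑ j, c j • (Hs T d Y (dir B₀ n k Ω Θ l)).mkQ (v j) = 0 := by
        have h4 := (Submodule.Quotient.mk_eq_zero _).2 h1
        rw [← Submodule.mkQ_apply, map_sum] at h4
        simpa only [map_smul] using h4
      funext j
      exact Fintype.linearIndependent_iff.1 hli c h3 j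
  refine RhT_of_stb hc hcT (hdnil l N hN) (E_single_nil (hnil N hN) l) ?_ (hst l hN) τ
  rw [dir_apply, hx, E2_mul, E2_mul, Matrix.mul_zero, Matrix.zero_mul]
  congr 1
  funext l'
  by_cases h : l' = l
  · subst h
    rw [Pi.single_eq_same, Pi.single_eq_same]
    calc Ω * (Θ * N * Ω) = (Ω * Θ) * N * Ω := by simp only [Matrix.mul_assoc]
      _ = N * Ω := by rw [hΩΘ, Matrix.one_mul]
  · rw [Pi.single_eq_of_ne h, Pi.single_eq_of_ne h, Matrix.mul_zero, Matrix.zero_mul]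

end Pool.Agent.T44.GF
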