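import Pool.Agent.T44.GF.Gr3
import Pool.Agent.T44.GF.Stm3

/-!
# Fibres near a fibre with few periods: the theorem
-/

set_option autoImplicit false
set_option linter.unusedSectionVars false

open Matrix

namespace Pool.Agent.T44.GF

open Pool.Agent.T44.EF Pool.Agent.Y123.GN Pool.Agent.TH127.PT Pool.Agent.Y123.ST Pool.Agent.Y123.SR Pool.Agent.TH119.DR
  Pool.Agent.TH119.MX Pool.Agent.Y113 Pool.Agent.Y113.GG Pool.Agent.Y118.HG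

/-- the bound for the degrees -/
def dlt (C s M : ℕ) (𝒟 : Finset ℕ) : ℕ := ∑ d ∈ 𝒟, dgr C s ((M * M) ^ d) d

theorem le_dlt {C s d : ℕ} {𝒟 : Finset ℕ} {M : Type} [Fintype M] [DecidableEq M] {m : ℕ} (hm : Fintype.card M = m)
    (hd : d ∈ 𝒟) : dgr C s (Fintype.card (Fin d → M × M)) d ≤ dlt C s m 𝒟 := by
  rw [Fintype.card_fun, Fintype.card_fin, Fintype.card_prod, hm]
  exact Finset.single_le_sum (f := fun d => dgr C s ((m * m) ^ d) d) (fun _ _ => Nat.zero_le _) hd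

/-- **stability under the exponentials** -/
theorem stable {B₀ : Type} [Fintype B₀] [DecidableEq B₀] {n k : ℕ} {K : Subfield ℂ} {𝒟 : Finset ℕ}
    (hD : ∀ (K : Subfield ℂ), (K : Set ℂ).Countable → ∀ (T : Set (Matrix (I2 B₀ n k) (I2 B₀ n k) ℂ))
      (c : Matrix (I2 B₀ n k) (I2 B₀ n k) ℂ), IsSubtorsor K T → c ∈ T →
      ∀ 𝒩 : Set (Matrix (I2 B₀ n k) (I2 B₀ n k) ℂ), (∀ N ∈ 𝒩, IsNilpotent N) →
      (∀ N ∈ 𝒩, ∀ t : ℂ, ∀ d ∈ 𝒟, RhT T d (IsNilpotent.exp (t • N) * c)) →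
      (∀ N ∈ 𝒩, N ∈ Submodule.span ℂ {C : Matrix (I2 B₀ n k) (I2 B₀ n k) ℂ | ∃ A ∈ 𝒩, ∃ B ∈ 𝒩, C = A * B - B * A}) →
      ∀ N ∈ 𝒩, fl N ∈ LL T)
    (hK : (K : Set ℂ).Countable) {T : Set (Matrix (I2 B₀ n k) (I2 B₀ n k) ℂ)} {c : Matrix (I2 B₀ n k) (I2 B₀ n k) ℂ}
    (hT : IsSubtorsor K T) (hc : c ∈ T) {𝒩 : Set (Matrix (Fin n) (Fin n) ℂ)} (hnil : ∀ N ∈ 𝒩, IsNilpotent N)
    (hperf : Perf 𝒩)
    (hrel : ∀ N ∈ 𝒩, ∀ (l : Fin k) (t : ℂ), ∀ d ∈ 𝒟,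
      RhT T d (IsNilpotent.exp (t • E2 (0 : Matrix B₀ B₀ ℂ) (Pi.single l N)) * c)) :
    ∀ g : Fin k → Matrix (Fin n) (Fin n) ℂ, (∀ l, g l ∈ EG 𝒩) → ∀ x ∈ T, E2 1 g * x ∈ T := by
  classical
  have hmem : ∀ N ∈ 𝒩, ∀ l : Fin k, fl (E2 (0 : Matrix B₀ B₀ ℂ) (Pi.single l N)) ∈ LL T := by
    intro N hN l
    refine hD K hK T c hT hc {y | ∃ N ∈ 𝒩, ∃ l : Fin k, y = E2 0 (Pi.single l N)} ?_ ?_ ?_ _ ⟨N, hN, l, rfl⟩
    · rintro _ ⟨N, hN, l, rfl⟩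
      exact E_single_nil (hnil N hN) l
    · rintro _ ⟨N, hN, l, rfl⟩ t d hd
      exact hrel N hN l t d hd
    · rintro _ ⟨N, hN, l, rfl⟩
      have h1 := hperf N hN
      have h2 := Submodule.mem_map_of_mem (f := Es B₀ l) h1
      rw [Submodule.map_span] at h2
      refine Submodule.span_mono ?_ h2
      rintro _ ⟨_, ⟨A, hA, B, hB, rfl⟩, rfl⟩
      refine ⟨Es B₀ l A, ⟨A, hA, l, rfl⟩, Es B₀ l B, ⟨B, hB, l, rfl⟩, ?_⟩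
      rw [map_sub, Es_mul, Es_mul]
  intro g hg
  refine all_blocks fun l => ?_
  let S : Submonoid (Matrix (Fin n) (Fin n) ℂ) :=
    { carrier := {u | ∀ x ∈ T, E2 1 (sg l u) * x ∈ T}
      one_mem' := by
        intro x hx
        rw [sg_one, E2_one, Matrix.one_mul]
        exact hx
      mul_mem' := by
        intro A B hA hB x hx
        have h1 := hA _ (hB x hx)
        rw [← Matrix.mul_assoc, E2_mul, Matrix.one_mul, sg_mul] at h1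
        exact h1 }
  have hle : EG 𝒩 ≤ S := by
    refine Submonoid.closure_le.2 ?_
    rintro _ ⟨N, hN, t, rfl⟩ x hx
    have h1 := exp_mem hT (E_single_nil (hnil N hN) l) (hmem N hN l) hx t
    rw [exp_single (hnil N hN)] at h1
    exact h1
  exact hle (hg l)

/-- the number field is countable -/
theorem countable_of_fin {K : Subfield ℂ} (hK : FiniteDimensional ℚ K) : (K : Set ℂ).Countable := by
  have h1 : ({x : ℂ | IsAlgebraic ℚ x} : Set ℂ).Countable := Algebraic.countable ℚ ℂ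
  refine h1.mono fun x hx => ?_
  have : NumberField K := { to_charZero := inferInstance, to_finiteDimensional := hK }
  have h6 : IsAlgebraic ℚ (⟨x, hx⟩ : K) := Algebra.IsAlgebraic.isAlgebraic _
  exact h6.algebraMap (A := ℂ)

/-- **the theorem** -/
theorem main (hA : S_ABS) (hN : S_NORM) {n : ℕ} {f : Polynomial ℚ} {A : Fin n → Fin n → Polynomial ℚ}
    {Z W : Fin n → Fin n → PowerSeries ℚ} (h : Dat f A Z W) :
    ∃ x₀ G₀ : ℕ, ∀ k D r s C : ℕ, ∃ E : ℕ, ∀ H t : ℕ, (H + 2) ^ E ≤ t → H < t ∧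
      ∀ g : Fin k → ℕ, SepN G₀ g → (∀ l, g l ≤ H) →
      (∀ l, (x₀ : ℝ) < ((t - g l : ℕ) : ℝ)) ∧ (∀ l, IsUnit (Zm Z ((t - g l : ℕ) : ℝ)).det) ∧
      ∀ (B₀ : Type) [Fintype B₀] [DecidableEq B₀], Fintype.card B₀ = r → ∀ C₀ : Matrix B₀ B₀ ℂ, IsUnit C₀.det →
      ∀ Ω Θ : Matrix (Fin n) (Fin n) ℂ, Ω * Θ = 1 → Θ * Ω = 1 → ∀ 𝒱 : Submodule ℚ ℂ, 𝒱.FG →
      (∀ e, Module.finrank ℚ (𝒱 ^ e : Submodule ℚ ℂ) ≤ C * (e + 1) ^ s) → (∀ i j, C₀⁻¹ i j ∈ 𝒱) → (∀ i j, Θ i j ∈ 𝒱) →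
      ∀ K : Subfield ℂ, FiniteDimensional ℚ K → Module.finrank ℚ K ≤ D →
      ∀ 𝒩 : Set (Matrix (Fin n) (Fin n) ℂ), (∀ N ∈ 𝒩, IsNilpotent N) →
      (∀ N ∈ 𝒩, ∀ t : ℂ, Gal Ω Z x₀ (IsNilpotent.exp (t • N))) → Perf 𝒩 → NoSub s 𝒩 →
      ∀ T : Set (Matrix (I2 B₀ n k) (I2 B₀ n k) ℂ), IsSubtorsor K T →
      E2 C₀ (fun l => Ω * Zm Z ((t - g l : ℕ) : ℝ)) ∈ T →
      ∀ γ : Fin k → Matrix (Fin n) (Fin n) ℂ, (∀ l, γ l ∈ EG 𝒩) → ∀ x ∈ T, E2 1 γ * x ∈ T := by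
  classical
  obtain ⟨x₀, G₀, hmain⟩ := gen_all hN h
  obtain ⟨x₁, hx₁⟩ := pv_unit h
  refine ⟨x₀, G₀, fun k D r s C => ?_⟩
  obtain ⟨𝒟, h𝒟⟩ := hA (r + n * k)
  obtain ⟨E, hE⟩ := hmain (dlt C s (r + n * k) 𝒟) D k
  refine ⟨E + (x₁ + 1), fun H t ht => ?_⟩
  have hp0 : 0 < (H + 2) ^ (x₁ + 1) := by positivity
  have hE' : (H + 2) ^ E ≤ t := le_trans (Nat.pow_le_pow_right (by omega) (by omega)) ht
  obtain ⟨hHt, h1⟩ := hE H t hE'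
  refine ⟨hHt, fun g hg hgH => ?_⟩
  obtain ⟨h2, h3⟩ := h1 g hg hgH
  have hx₁t : ∀ l, x₁ < t - g l := by
    intro l
    have h4 : (H + 2) ^ (x₁ + 1) ≤ t := le_trans (Nat.pow_le_pow_right (by omega) (by omega)) ht
    have h5 : H + x₁ < (H + 2) ^ (x₁ + 1) := by
      have h6 : x₁ < 2 ^ x₁ := Nat.lt_two_pow_self
      have h7 : 2 ^ x₁ ≤ (H + 2) ^ x₁ := Nat.pow_le_pow_left (by omega) _
      rw [pow_succ]
      nlinarith [h6, h7, Nat.zero_le H]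
    have := hgH l
    omega
  have hunit : ∀ l, IsUnit (Zm Z ((t - g l : ℕ) : ℝ)).det := by
    intro l
    have h4 := hx₁ (1 : Matrix (Fin n) (Fin n) ℂ) isUnit_one ((t - g l : ℕ) : ℝ) (by exact_mod_cast hx₁t l)
    have h5 : (Matrix.of fun i j => pv (1 : Matrix (Fin n) (Fin n) ℂ) Z ((t - g l : ℕ) : ℝ) (i, j) :
        Matrix (Fin n) (Fin n) ℂ) = 1 * Zm Z ((t - g l : ℕ) : ℝ) := rfl
    rw [h5, Matrix.one_mul] at h4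
    exact (Matrix.isUnit_iff_isUnit_det _).1 h4
  refine ⟨h2, hunit, ?_⟩
  intro B₀ _ _ hr C₀ hC₀ Ω Θ hΩΘ hΘΩ 𝒱 h𝒱 hgr hC₀𝒱 hΘ𝒱 K hK hKD 𝒩 hnil hgal hperf hsub T hT hcT
  have hcard : Fintype.card (I2 B₀ n k) = r + n * k := by
    rw [Fintype.card_sum, Fintype.card_prod, Fintype.card_fin, Fintype.card_fin, hr]
  refine stable (fun K' => h𝒟 (I2 B₀ n k) hcard K') (countable_of_fin hK) hT hcT hnil hperf ?_
  intro N hN l τ d hd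
  exact blkRelH hK hKD hnil hsub hΩΘ hΘΩ hC₀ h𝒱 hC₀𝒱 hΘ𝒱 hgr hunit (h3 Ω Θ hΘΩ 𝒩 hnil hgal) hT hcT (le_dlt hcard hd) N hN
    l τ

end Pool.Agent.T44.GF
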