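import Pool.Agent.Y113.GG.Main

/-!
# The values of the basis words at all tuples in windows are linearly independent over the rational numbers
-/

set_option autoImplicit false

open PowerSeries

namespace Pool.Agent.T44.GF

open Pool.Agent.Y113 Pool.Agent.Y37.GF Pool.Agent.Y118.HG Pool.Agent.Y113.GG

/-- no exceptions over `ℚ` -/
theorem wk1 (κ : Type) [Fintype κ] (k0 : κ) (G0 : ℕ) (TT : ℕ → Polynomial ℤ) (w : ℕ → κ → PowerSeries ℚ)
    (hw1 : ∀ g, w g k0 = 1)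
    (hsys : ∀ r : ℕ, ∃ q E : ℕ, ∀ (H : ℕ) (g : Fin r → ℕ), (∀ l, g l ≤ H) →
      GSys q (((H : ℝ) + 2) ^ E) (∏ l, TT (g l)) (fun e : Fin r → κ => ∏ l, w (g l) (e l)))
    (hLI : ∀ (r : ℕ) (g : Fin r → ℕ), SepN G0 g →
      LinearIndependent (Polynomial ℚ) (fun e : Fin r → κ => ∏ l, w (g l) (e l)))
    (hTT : ∃ E : ℕ, ∀ g t : ℕ, ((g : ℝ) + 2) ^ E ≤ (t : ℝ) → Polynomial.aeval (1 / (t : ℝ)) (TT g) ≠ 0) (k : ℕ) :
    ∃ E : ℕ, ∀ H t : ℕ, (H + 2) ^ E ≤ t → ∀ g : Fin k → ℕ, SepN G0 g → (∀ i, g i ≤ H) →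
      LinearIndependent ℚ (fun e : Fin k → κ => ∏ i, ev t (w (g i) (e i))) := by
  classical
  choose qF EF hF using hsys
  obtain ⟨ET, hTT⟩ := hTT
  obtain ⟨EG, hG⟩ := t_G (Fintype.card (Fin k → κ)) (qF k)
  set E := 1 + ET + (EF 1 + 1) + (EF k + 1) * EG with hE
  refine ⟨E, ?_⟩
  intro H t ht
  have hH2 : (1 : ℝ) ≤ (H : ℝ) + 2 := one_le_base H
  have htR : ((H : ℝ) + 2) ^ E ≤ t := by exact_mod_cast ht
  have hge : ∀ a ≤ E, ((H : ℝ) + 2) ^ a ≤ t := fun a ha => (base_mono hH2 ha).trans htR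
  have ht2 : H + 2 ≤ t := by
    have h1 : H + 2 ≤ (H + 2) ^ E := Nat.le_self_pow (by omega) _
    exact h1.trans ht
  have ht0 : (0 : ℝ) < t := by exact_mod_cast (by omega : 0 < t)
  intro g hsep hgH
  have hcvg : ∀ a ≤ H, ∀ j, Cv t (w a j) := by
    intro a ha j
    refine Cv.of_bound ht0 (A := ((H : ℝ) + 2) ^ EF 1) (B := ((H : ℝ) + 2) ^ EF 1) (by positivity) ?_ fun n => ?_
    · refine lt_of_lt_of_le ?_ (hge (EF 1 + 1) (by rw [hE]; omega))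
      exact pow_lt_pow_right₀ (by linarith [show (0 : ℝ) ≤ H by positivity]) (by omega)
    · rw [← pow_succ']
      have h1 := (hF 1 H (fun _ => a) fun _ => ha).size (fun _ => j) n
      simpa using h1
  have hone : (∏ p, w (g p) ((fun _ => k0 : Fin k → κ) p)) = 1 := Finset.prod_eq_one fun p _ => hw1 _
  have hEG : (2 * ((H : ℝ) + 2) ^ EF k) ^ EG ≤ t := (pow_base H _ _).trans (hge _ (by rw [hE]; omega))
  have hPT : Polynomial.aeval (1 / (t : ℝ)) (∏ p, TT (g p)) ≠ 0 := by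
    rw [map_prod, Finset.prod_ne_zero_iff]
    intro p _
    refine hTT (g p) t ?_
    have hgR : ((g p : ℕ) : ℝ) + 2 ≤ (H : ℝ) + 2 := by
      have : ((g p : ℕ) : ℝ) ≤ H := by exact_mod_cast hgH p
      linarith
    exact (pow_le_pow_left₀ (by positivity) hgR _).trans (hge ET (by rw [hE]; omega))
  have hind := hG (Fin k → κ) (((H : ℝ) + 2) ^ EF k) (∏ p, TT (g p))
    (fun e : Fin k → κ => ∏ p, w (g p) (e p)) (fun _ => k0) t le_rfl (hF k H g hgH) hone (hLI k g hsep) hEG hPT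
  have h2 : (fun e : Fin k → κ => ∏ i, ev t (w (g i) (e i))) = fun e => ev t (∏ p, w (g p) (e p)) := by
    funext e
    rw [Cv.ev_prod ht0 _ _ fun p _ => hcvg _ (hgH p) _]
  rw [h2]
  exact hind

variable {n : ℕ}

/-- all tuples in windows -/
theorem nd_all {f : Polynomial ℚ} {A : Fin n → Fin n → Polynomial ℚ} {Z W : Fin n → Fin n → ℚ⟦X⟧} (h : Dat f A Z W)
    {C' : ℝ} (hC' : 1 ≤ C') (hZ' : ∀ i j m, |((coeff m (Z i j) : ℚ) : ℝ)| ≤ C' ^ (m + 1)) :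
    ∃ G0 : ℕ, 0 < G0 ∧ ∀ (δ : ℕ) (b : Bas Z δ) (k : ℕ), ∃ E : ℕ, ∀ H t : ℕ, (H + 2) ^ E ≤ t → H < t ∧
      ∀ g : Fin k → ℕ, SepN G0 g → (∀ i, g i ≤ H) → Nd b (Submodule.span ℚ {(1 : ℂ)}) (fun l => t - g l) := by
  obtain ⟨C, hC, hCZ, hCW⟩ := h.bound
  obtain ⟨G0, hG0⟩ := exists_nat_gt (2 * C)
  have hG0pos : 0 < G0 := by
    have : (0 : ℝ) < G0 := by linarith
    exact_mod_cast this
  refine ⟨G0, hG0pos, fun δ b k => ?_⟩
  obtain ⟨q, E, TT, hE, hE'⟩ := exists_sys h.reg h.sys h.inv h.gZ h.gW δ b.s b.D b.N b.hD b.red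
  have hprod := Pool.Agent.Y678.HG.gsys_prod TT
    (fun g (k : b.s) => ph g (wd Z (k : Fin δ → Option (Fin n × Fin n)))) q E hE
  have hTT : ∀ g, TT g ≠ 0 := by
    intro g h0
    obtain ⟨t, ht⟩ := exists_nat_ge (((g : ℝ) + 2) ^ E)
    have := hE' g t ht
    rw [h0, map_zero] at this
    exact this rfl
  obtain ⟨E₁, hE₁⟩ := wk1 b.s ⟨fun _ => none, b.h0⟩ G0 TT
    (fun g (k : b.s) => ph g (wd Z (k : Fin δ → Option (Fin n × Fin n)))) (by
      intro g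
      have h3 : wd Z (fun _ : Fin δ => (none : Option (Fin n × Fin n))) = 1 := by
        unfold wd lt
        simp
      show ph g (wd Z (fun _ : Fin δ => (none : Option (Fin n × Fin n)))) = 1
      rw [h3, map_one]) hprod (by
      intro r
      refine li_shifts h.reg h.sys h.inv hC hCZ hCW b.s b.li (fun r g => ?_) hG0 r
      obtain ⟨q', E', hq⟩ := hprod r
      refine ⟨q', ((((Finset.univ.sup g : ℕ) : ℝ)) + 2) ^ E', ∏ l, TT (g l),
        Finset.prod_ne_zero_iff.2 fun l _ => hTT _, hq (Finset.univ.sup g) g fun l => Finset.le_sup (Finset.mem_univ l)⟩)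
    ⟨E, hE'⟩ k
  obtain ⟨c, hc⟩ := Pool.Agent.Y678.HG.exists_two_pow (C' + 2)
  refine ⟨E₁ + (c + 1) + 1, fun H t ht => ?_⟩
  have hHt : H < t := by
    have h1 : H + 2 ≤ (H + 2) ^ (E₁ + (c + 1) + 1) := Nat.le_self_pow (by omega) _
    omega
  refine ⟨hHt, fun g hg hgH e hcV hsum => ?_⟩
  have hli := hE₁ H t ((Nat.pow_le_pow_right (by omega) (by omega)).trans ht) g hg hgH
  -- the coefficients are rational
  have hq : ∀ x, ∃ q : ℚ, (q : ℂ) = e x := by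
    intro x
    obtain ⟨q, hq⟩ := Submodule.mem_span_singleton.1 (hcV x)
    exact ⟨q, by rw [← hq, Rat.smul_def, mul_one]⟩
  choose q' hq' using hq
  have hval : ∀ x : Fin k → b.s, (∏ l, wv (zv Z ((t - g l : ℕ) : ℝ)) (x l : Fin δ → Option (Fin n × Fin n)) : ℂ) =
      ((∏ i, ev t (ph (g i) (wd Z (x i : Fin δ → Option (Fin n × Fin n)))) : ℝ) : ℂ) := by
    intro x
    push_cast
    refine Finset.prod_congr rfl fun l _ => ?_
    have h1 := sub_large (c := c) (by omega : c + 1 ≤ E₁ + (c + 1) + 1) ht (hgH l)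
    have h2 : g l ≤ t := by
      have := hgH l
      omega
    have h3 : (((t - g l : ℕ)) : ℝ) = (t : ℝ) - g l := by push_cast [Nat.cast_sub h2]; ring
    have h4 : (2 : ℝ) ^ c ≤ (t : ℝ) - g l := by
      rw [← h3]
      exact_mod_cast h1
    rw [ev_phwd hC' hZ' _ _ (by linarith), h3]
  have hsum2 : ∑ x, q' x • (∏ i, ev t (ph (g i) (wd Z (x i : Fin δ → Option (Fin n × Fin n)))) : ℝ) = 0 := by
    have h1 : ((∑ x, q' x • (∏ i, ev t (ph (g i) (wd Z (x i : Fin δ → Option (Fin n × Fin n)))) : ℝ) : ℝ) : ℂ) = 0 := by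
      rw [← hsum]
      push_cast
      refine Finset.sum_congr rfl fun x _ => ?_
      rw [← hq' x, hval, Rat.smul_def]
      push_cast
      ring
    exact_mod_cast h1
  funext x
  have h1 := Fintype.linearIndependent_iff.1 hli q' hsum2 x
  rw [← hq' x, h1]
  simp

/-- relations over `ℚ` are specialisations of functional relations -/
theorem spec_all {f : Polynomial ℚ} {A : Fin n → Fin n → Polynomial ℚ} {Z W : Fin n → Fin n → ℚ⟦X⟧} (h : Dat f A Z W) :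
    ∃ x₀ G₀ : ℕ, ∀ δ k : ℕ, ∃ E : ℕ, ∀ H t : ℕ, (H + 2) ^ E ≤ t → H < t ∧ ∀ g : Fin k → ℕ, SepN G₀ g → (∀ l, g l ≤ H) →
      (∀ l, (x₀ : ℝ) < ((t - g l : ℕ) : ℝ)) ∧ Spec 1 Z x₀ δ (Submodule.span ℚ {(1 : ℂ)}) (fun l => t - g l) := by
  obtain ⟨C, hC, hCZ, -⟩ := h.bound
  obtain ⟨x₀, hx₀⟩ := exists_nat_ge C
  have hX : (1 : ℝ) ≤ x₀ := hC.trans hx₀
  have hXZ : ∀ i j m, |((coeff m (Z i j) : ℚ) : ℝ)| ≤ (x₀ : ℝ) ^ (m + 1) := fun i j m =>
    (hCZ i j m).trans (pow_le_pow_left₀ (by linarith) hx₀ _)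
  obtain ⟨G₀, hG₀, hw⟩ := nd_all h hX hXZ
  refine ⟨x₀, G₀, fun δ k => ?_⟩
  obtain ⟨b⟩ := exists_bas Z δ
  -- large integers
  obtain ⟨c₁, hc₁⟩ := poly_ne b.hD
  obtain ⟨c₂, hc₂⟩ := Pool.Agent.Y678.HG.exists_two_pow ((x₀ : ℝ) + 1)
  have hlarge : ∀ m : ℕ, 2 ^ (c₁ + c₂) ≤ m → (x₀ : ℝ) < m ∧ Polynomial.aeval (1 / (m : ℝ)) b.D ≠ 0 := by
    intro m hm
    have h1 : (2 : ℝ) ^ (c₁ + c₂) ≤ m := by exact_mod_cast hm
    have h2 : (2 : ℝ) ^ c₁ ≤ m := (pow_le_pow_right₀ (by norm_num) (by omega)).trans h1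
    have h3 : (2 : ℝ) ^ c₂ ≤ m := (pow_le_pow_right₀ (by norm_num) (by omega)).trans h1
    have h4 : (0 : ℝ) < m := lt_of_lt_of_le (by positivity) h2
    exact ⟨by linarith, hc₁ _ (by positivity) (one_div_le_one_div_of_le (by positivity) h2)⟩
  obtain ⟨E, hE⟩ := hw δ b k
  refine ⟨E + (c₁ + c₂ + 1), fun H t ht => ?_⟩
  obtain ⟨hHt, h1⟩ := hE H t ((Nat.pow_le_pow_right (by omega) (by omega)).trans ht)
  refine ⟨hHt, fun g hg hgH => ?_⟩
  have h5 : ∀ l, 2 ^ (c₁ + c₂) ≤ t - g l := fun l =>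
    sub_large (c := c₁ + c₂) (by omega : c₁ + c₂ + 1 ≤ E + (c₁ + c₂ + 1)) ht (hgH l)
  refine ⟨fun l => (hlarge _ (h5 l)).1, fun P hPd hPc hP => ?_⟩
  have hpv : ∀ (x : ℝ) (p : Fin n × Fin n), pv 1 Z x p = zv Z x p := by
    intro x p
    unfold pv
    rw [Finset.sum_eq_single p.1]
    · rw [Matrix.one_apply_eq, one_mul]
    · intro a _ ha
      rw [Matrix.one_apply_ne (Ne.symm ha), zero_mul]
    · intro hh
      exact absurd (Finset.mem_univ _) hh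
  simp only [hpv] at hP ⊢
  exact spec b P hX hXZ (fun l => (hlarge _ (h5 l)).1) (fun l => (hlarge _ (h5 l)).2) (h1 g hg hgH) hPd hPc hP

end Pool.Agent.T44.GF
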