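import Pool.Agent.T44.EF.Rank

/-!
# Relations between the minors of a polynomial matrix at a point of a torus orbit, general version
-/

set_option autoImplicit false
set_option linter.unusedSectionVars false

open Matrix

namespace Pool.Agent.T44.GF

open Pool.Agent.T44.EF Pool.Agent.Y118.HP Pool.Agent.Y123.ST

variable {σ ι : Type} {r s d : ℕ} {K : Subfield ℂ}

/-- the values of a polynomial matrix -/
noncomputable def eM (MP : Fin r → ι → MvPolynomial σ ℂ) (z : σ → ℂ) : Matrix (Fin r) ι ℂ :=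
  Matrix.of fun i q => MvPolynomial.eval z (MP i q)

/-- the minors -/
noncomputable def mP (MP : Fin r → ι → MvPolynomial σ ℂ) (t : Fin r → ι) : MvPolynomial σ ℂ :=
  (Matrix.of fun i j => MP i (t j)).det

theorem eval_mP (MP : Fin r → ι → MvPolynomial σ ℂ) (t : Fin r → ι) (z : σ → ℂ) :
    MvPolynomial.eval z (mP MP t) = mn (eM MP z) t := by
  unfold mP mn
  rw [RingHom.map_det]
  congr 1

theorem Bd_mP {MP : Fin r → ι → MvPolynomial σ ℂ} (hMP : ∀ i q, Bd K d (MP i q)) (t : Fin r → ι) :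
    Bd K (r * d) (mP MP t) := Bd.det fun i j => hMP i (t j)

/-- **Relations between the derivatives of the minors** -/
theorem rel_vecG {δ : ℕ} {y : σ → ℂ} {𝒵 : Set (σ → ℂ)}
    (hG : ∀ P : MvPolynomial σ ℂ, (∀ m, P.coeff m ∈ K) → P.totalDegree ≤ δ → MvPolynomial.eval y P = 0 →
      ∀ z ∈ 𝒵, MvPolynomial.eval z P = 0)
    {MP : Fin r → ι → MvPolynomial σ ℂ} (hMP : ∀ i q, Bd K d (MP i q)) {B : Matrix (Fin r) ι ℂ} (hB : ∀ i q, B i q ∈ K)
    {C : Matrix (Fin r) (Fin r) ℂ} {χ : ι → ℂ} {θ : Fin s → ℂ} (hθ : ∀ j, θ j ≠ 0)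
    {w : ι → Fin s → ℤ} {E0 : ℕ} (hw : ∀ q j, |w q j| ≤ E0) (hχ : ∀ q, χ q = ∏ j, θ j ^ w q j)
    (hM : ∀ i q, eM MP y i q = ∑ k, C i k * B k q * χ q) (hδ : dexp s r E0 d ≤ δ)
    (P : Fin r → ι) (hP : mn (eM MP y) P ≠ 0) (t : Fin (s + 1) → Fin r → ι) :
    ∃ x : Fin (s + 1) → ℂ, x ≠ 0 ∧ ∀ p : ℂ → σ → ℂ, p 0 = y →
      (∀ τ, p τ ∈ 𝒵) → ∀ Nd : (Fin r → ι) → ℂ,
      (∀ t, HasDerivAt (fun τ => mn (eM MP (p τ)) t) (Nd t) 0) →
      ∑ k, x k * (Nd (t k) * mn (eM MP y) P - mn (eM MP y) (t k) * Nd P) = 0 := by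
  classical
  by_cases hz : ∃ k, mn (eM MP y) (t k) = 0
  · -- a minor which is zero
    obtain ⟨k, hk⟩ := hz
    refine ⟨Pi.single k 1, fun h => one_ne_zero (α := ℂ) (by
      have := congrFun h k
      rwa [Pi.single_eq_same] at this), fun p hp hps Nd hNd => ?_⟩
    have h1 : ∀ τ, mn (eM MP (p τ)) (t k) = 0 := by
      intro τ
      have h2 := Bd_mP hMP (t k)
      rw [← eval_mP]
      rcases Nat.eq_zero_or_pos (dexp s r E0 d) with h0 | h0
      · have h3 : r * d = 0 := by
          unfold dexp mexp at h0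
          rcases Nat.mul_eq_zero.1 h0 with h | h
          · exfalso
            have : 0 < (s + 1) * (2 * (s + 1) * (2 * (r * E0)) + 1) ^ s := by positivity
            omega
          · exact h
        exact hG _ (PK_coeff h2.1) (h2.2.trans (by rw [h3]; exact Nat.zero_le _))
          (by rw [eval_mP]; exact hk) _ (hps τ)
      · refine hG _ (PK_coeff h2.1) (h2.2.trans (le_trans ?_ hδ)) (by rw [eval_mP]; exact hk) _ (hps τ)
        unfold dexp mexp
        exact Nat.le_mul_of_pos_left _ (by positivity)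
    have h2 : Nd (t k) = 0 := by
      have h3 := hNd (t k)
      simp only [h1] at h3
      exact h3.unique (hasDerivAt_const _ _)
    rw [Finset.sum_eq_single k]
    · rw [h2, hk]
      simp
    · intro k' _ hk'
      rw [Pi.single_eq_of_ne hk', zero_mul]
    · intro h
      exact absurd (Finset.mem_univ _) h
  · push Not at hz
    set W : (Fin r → ι) → Fin s → ℤ := fun t j => ∑ i, w (t i) j with hW
    have hWb : ∀ t j, |W t j| ≤ ((r * E0 : ℕ) : ℤ) := by
      intro t j
      refine (Finset.abs_sum_le_sum_abs _ _).trans ?_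
      refine (Finset.sum_le_card_nsmul _ _ _ (fun i _ => hw (t i) j)).trans ?_
      rw [Finset.card_univ, Fintype.card_fin, nsmul_eq_mul]
      push_cast
      exact le_rfl
    have hX : ∀ t, ∏ i, χ (t i) = ∏ j, θ j ^ W t j := by
      intro t
      rw [Finset.prod_congr rfl fun i _ => hχ (t i), Finset.prod_comm]
      refine Finset.prod_congr rfl fun j _ => ?_
      simp only [hW]
      exact zp_sum (hθ j) _ _
    set m := mexp s (2 * (r * E0)) with hm
    obtain ⟨α, β, hαβ, hex⟩ : ∃ α β : Fin (s + 1) → Fin (m + 1), α ≠ β ∧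
        ∀ j, ∑ k, ((α k : ℕ) : ℤ) * (W (t k) j - W P j) = ∑ k, ((β k : ℕ) : ℤ) * (W (t k) j - W P j) :=
      pigeon s (2 * (r * E0)) (fun k j => W (t k) j - W P j) (by
      intro k j
      have h1 := abs_sub (W (t k) j) (W P j)
      have h2 := hWb (t k) j
      have h3 := hWb P j
      push_cast at h2 h3 ⊢
      linarith)
    set A := (s + 1) * m with hA
    have hsum : ∀ α : Fin (s + 1) → Fin (m + 1), ∑ k, (α k : ℕ) ≤ A := by
      intro α
      refine (Finset.sum_le_card_nsmul _ _ m (fun k _ => Nat.lt_succ_iff.1 (α k).2)).trans ?_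
      rw [Finset.card_univ, Fintype.card_fin, smul_eq_mul]
    -- the values
    have hval : ∀ t, mn (eM MP y) t = C.det * (mn B t * ∏ j, θ j ^ W t j) := fun t => by
      rw [mn_fac hM, hX]
    have hC : C.det ≠ 0 := by
      intro h
      rw [hval, h, zero_mul] at hP
      exact hP rfl
    have hBP : mn B P ≠ 0 := by
      intro h
      rw [hval, h, zero_mul, mul_zero] at hP
      exact hP rfl
    have hBt : ∀ k, mn B (t k) ≠ 0 := by
      intro k h
      have := hz k
      rw [hval, h, zero_mul, mul_zero] at this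
      exact this rfl
    set bb : (Fin (s + 1) → Fin (m + 1)) → ℂ := fun α => (∏ k, mn B (t k) ^ (α k : ℕ)) * mn B P ^ (A - ∑ k, (α k : ℕ)) with hbb
    have hbb0 : ∀ α, bb α ≠ 0 := fun α =>
      mul_ne_zero (Finset.prod_ne_zero_iff.2 fun k _ => pow_ne_zero _ (hBt k)) (pow_ne_zero _ hBP)
    have hbbK : ∀ α, bb α ∈ K := fun α =>
      K.mul_mem (K.prod_mem fun k _ => K.pow_mem (mn_mem hB _) _) (K.pow_mem (mn_mem hB _) _)
    have hmon : ∀ α : Fin (s + 1) → Fin (m + 1),
        (∏ k, mn (eM MP y) (t k) ^ (α k : ℕ)) * mn (eM MP y) P ^ (A - ∑ k, (α k : ℕ)) =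
          C.det ^ A * bb α * ∏ j, θ j ^ (∑ k, ((α k : ℕ) : ℤ) * (W (t k) j - W P j) + A * W P j) := by
      intro α
      have h1 : ∏ k, mn (eM MP y) (t k) ^ (α k : ℕ) = C.det ^ (∑ k, (α k : ℕ)) *
          ((∏ k, mn B (t k) ^ (α k : ℕ)) * ∏ j, θ j ^ (∑ k, ((α k : ℕ) : ℤ) * W (t k) j)) := by
        rw [← Finset.prod_pow_eq_pow_sum]
        have h2 : ∏ j, θ j ^ (∑ k, ((α k : ℕ) : ℤ) * W (t k) j) = ∏ k, (∏ j, θ j ^ W (t k) j) ^ (α k : ℕ) := by
          have h3 : ∀ j, θ j ^ (∑ k, ((α k : ℕ) : ℤ) * W (t k) j) = ∏ k, (θ j ^ W (t k) j) ^ (α k : ℕ) := by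
            intro j
            rw [← zp_sum (hθ j)]
            refine Finset.prod_congr rfl fun k _ => ?_
            rw [mul_comm, _root_.zpow_mul, zpow_natCast]
          rw [Finset.prod_congr rfl fun j _ => h3 j, Finset.prod_comm]
          exact Finset.prod_congr rfl fun k _ => Finset.prod_pow _ _ _
        rw [h2, ← Finset.prod_mul_distrib, ← Finset.prod_mul_distrib]
        refine Finset.prod_congr rfl fun k _ => ?_
        rw [hval, mul_pow, mul_pow]
      have h4 : (∏ j, θ j ^ W P j) ^ (A - ∑ k, (α k : ℕ)) = ∏ j, θ j ^ ((A - ∑ k, ((α k : ℕ) : ℤ)) * W P j) := by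
        rw [← Finset.prod_pow]
        refine Finset.prod_congr rfl fun j _ => ?_
        rw [mul_comm, _root_.zpow_mul, ← zpow_natCast (θ j ^ W P j)]
        congr 1
        rw [Nat.cast_sub (hsum α)]
        push_cast
        rfl
      rw [h1, hval P, mul_pow, mul_pow, h4]
      have h5 : C.det ^ A = C.det ^ (∑ k, (α k : ℕ)) * C.det ^ (A - ∑ k, (α k : ℕ)) := by
        rw [← pow_add, Nat.add_sub_cancel' (hsum α)]
      have h6 : ∏ j, θ j ^ (∑ k, ((α k : ℕ) : ℤ) * (W (t k) j - W P j) + A * W P j) =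
          (∏ j, θ j ^ (∑ k, ((α k : ℕ) : ℤ) * W (t k) j)) * ∏ j, θ j ^ ((A - ∑ k, ((α k : ℕ) : ℤ)) * W P j) := by
        rw [← Finset.prod_mul_distrib]
        refine Finset.prod_congr rfl fun j _ => ?_
        rw [← zpow_add₀ (hθ j)]
        congr 1
        simp only [mul_sub, Finset.sum_sub_distrib]
        rw [← Finset.sum_mul]
        ring
      rw [h5, h6, hbb]
      ring
    have hmon' : bb β * ((∏ k, mn (eM MP y) (t k) ^ (α k : ℕ)) * mn (eM MP y) P ^ (A - ∑ k, (α k : ℕ))) =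
        bb α * ((∏ k, mn (eM MP y) (t k) ^ (β k : ℕ)) * mn (eM MP y) P ^ (A - ∑ k, (β k : ℕ))) := by
      rw [hmon, hmon]
      have h1 : ∏ j, θ j ^ (∑ k, ((α k : ℕ) : ℤ) * (W (t k) j - W P j) + A * W P j) =
          ∏ j, θ j ^ (∑ k, ((β k : ℕ) : ℤ) * (W (t k) j - W P j) + A * W P j) :=
        Finset.prod_congr rfl fun j _ => by rw [hex j]
      rw [h1]
      ring
    -- the polynomial relation
    set R : MvPolynomial σ ℂ :=
      MvPolynomial.C (bb β) * ((∏ k, mP MP (t k) ^ (α k : ℕ)) * mP MP P ^ (A - ∑ k, (α k : ℕ))) -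
      MvPolynomial.C (bb α) * ((∏ k, mP MP (t k) ^ (β k : ℕ)) * mP MP P ^ (A - ∑ k, (β k : ℕ))) with hR
    have hRe : ∀ Y, MvPolynomial.eval Y R =
        bb β * ((∏ k, mn (eM MP Y) (t k) ^ (α k : ℕ)) * mn (eM MP Y) P ^ (A - ∑ k, (α k : ℕ))) -
        bb α * ((∏ k, mn (eM MP Y) (t k) ^ (β k : ℕ)) * mn (eM MP Y) P ^ (A - ∑ k, (β k : ℕ))) := by
      intro Y
      rw [hR]
      simp only [map_sub, map_mul, map_prod, map_pow, MvPolynomial.eval_C, eval_mP]
    have hbd : ∀ (c : ℂ) (_ : c ∈ K) (α : Fin (s + 1) → Fin (m + 1)), Bd K (A * (r * d))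
        (MvPolynomial.C c * ((∏ k, mP MP (t k) ^ (α k : ℕ)) * mP MP P ^ (A - ∑ k, (α k : ℕ)))) := by
      intro c hc α
      have h1 := Bd.prod Finset.univ (e := fun k => (α k : ℕ) * (r * d)) (P := fun k => mP MP (t k) ^ (α k : ℕ))
        (fun k _ => (Bd_mP hMP (t k)).pow _)
      have h2 := (Bd_mP hMP P).pow (A - ∑ k, (α k : ℕ))
      have h3 := (Bd.C (σ := σ) hc).mul (h1.mul h2)
      refine h3.mono ?_
      rw [zero_add, ← Finset.sum_mul, ← add_mul]
      exact Nat.mul_le_mul_right _ (le_of_eq (Nat.add_sub_cancel' (hsum α)))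
    have hRbd : Bd K (A * (r * d)) R := (hbd _ (hbbK β) α).sub (hbd _ (hbbK α) β)
    have hRall := hG R (PK_coeff hRbd.1) (hRbd.2.trans hδ) (by rw [hRe, hmon', sub_self])
    refine ⟨fun k => (((α k : ℕ) : ℂ) - ((β k : ℕ) : ℂ)) / mn (eM MP y) (t k), ?_, ?_⟩
    · intro h
      apply hαβ
      funext k
      have h1 := congrFun h k
      simp only [Pi.zero_apply] at h1
      rcases div_eq_zero_iff.1 h1 with h2 | h2
      · have h3 : ((α k : ℕ) : ℂ) = ((β k : ℕ) : ℂ) := sub_eq_zero.1 h2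
        exact Fin.ext (by exact_mod_cast h3)
      · exact absurd h2 (hz k)
    · intro p hp hps Nd hNd
      have hp0 : ∀ t, mn (eM MP (p 0)) t = mn (eM MP y) t := fun t => by rw [hp]
      have hd1 := deriv_mon (f := fun k τ => mn (eM MP (p τ)) (t k)) (f' := fun k => Nd (t k))
        (g := fun τ => mn (eM MP (p τ)) P) (g' := Nd P) (fun k => hNd (t k))
        (fun k => by rw [hp0]; exact hz k) (hNd P) (by rw [hp0]; exact hP) (fun k => (α k : ℕ)) (A - ∑ k, (α k : ℕ)) (bb β)
      have hd2 := deriv_mon (f := fun k τ => mn (eM MP (p τ)) (t k)) (f' := fun k => Nd (t k))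
        (g := fun τ => mn (eM MP (p τ)) P) (g' := Nd P) (fun k => hNd (t k))
        (fun k => by rw [hp0]; exact hz k) (hNd P) (by rw [hp0]; exact hP) (fun k => (β k : ℕ)) (A - ∑ k, (β k : ℕ)) (bb α)
      have heq : (fun τ => bb β * ((∏ k, mn (eM MP (p τ)) (t k) ^ (α k : ℕ)) * mn (eM MP (p τ)) P ^ (A - ∑ k, (α k : ℕ)))) =
          fun τ => bb α * ((∏ k, mn (eM MP (p τ)) (t k) ^ (β k : ℕ)) * mn (eM MP (p τ)) P ^ (A - ∑ k, (β k : ℕ))) := by
        funext τ
        have h1 := hRall (p τ) (hps τ)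
        rw [hRe, sub_eq_zero] at h1
        exact h1
      rw [heq] at hd1
      have h1 := hd1.unique hd2
      simp only [hp0] at h1
      rw [hmon'] at h1
      have hne : bb α * ((∏ k, mn (eM MP y) (t k) ^ (β k : ℕ)) * mn (eM MP y) P ^ (A - ∑ k, (β k : ℕ))) ≠ 0 :=
        mul_ne_zero (hbb0 α) (mul_ne_zero (Finset.prod_ne_zero_iff.2 fun k _ => pow_ne_zero _ (hz k)) (pow_ne_zero _ hP))
      have h2 := mul_left_cancel₀ hne h1
      rw [Nat.cast_sub (hsum α), Nat.cast_sub (hsum β)] at h2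
      push_cast at h2
      have h3 : ∀ k, ((((α k : ℕ) : ℂ) - ((β k : ℕ) : ℂ)) / mn (eM MP y) (t k)) *
          (Nd (t k) * mn (eM MP y) P - mn (eM MP y) (t k) * Nd P) =
          mn (eM MP y) P * (((α k : ℕ) : ℂ) * (Nd (t k) / mn (eM MP y) (t k)) -
            ((β k : ℕ) : ℂ) * (Nd (t k) / mn (eM MP y) (t k))) - Nd P * (((α k : ℕ) : ℂ) - ((β k : ℕ) : ℂ)) := by
        intro k
        have := hz k
        field_simp
      rw [Finset.sum_congr rfl fun k _ => h3 k, Finset.sum_sub_distrib, ← Finset.mul_sum, ← Finset.mul_sum,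
        Finset.sum_sub_distrib, Finset.sum_sub_distrib]
      have h4 : Nd P = mn (eM MP y) P * (Nd P / mn (eM MP y) P) := by
        field_simp
      rw [h4]
      linear_combination (mn (eM MP y) P) * h2



/-- **Rank**: more directions than the dimension of the torus are dependent modulo the space -/
theorem rankG {δ : ℕ} {y : σ → ℂ} {𝒵 : Set (σ → ℂ)}
    (hG : ∀ P : MvPolynomial σ ℂ, (∀ m, P.coeff m ∈ K) → P.totalDegree ≤ δ → MvPolynomial.eval y P = 0 →
      ∀ z ∈ 𝒵, MvPolynomial.eval z P = 0)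
    {MP : Fin r → ι → MvPolynomial σ ℂ} (hMP : ∀ i q, Bd K d (MP i q))
    (hli : ∀ x : Fin r → ℂ, (∀ q, ∑ i, x i * eM MP y i q = 0) → x = 0) {B : Matrix (Fin r) ι ℂ} (hB : ∀ i q, B i q ∈ K)
    {C : Matrix (Fin r) (Fin r) ℂ} {χ : ι → ℂ} {θ : Fin s → ℂ} (hθ : ∀ j, θ j ≠ 0)
    {w : ι → Fin s → ℤ} {E0 : ℕ} (hw : ∀ q j, |w q j| ≤ E0) (hχ : ∀ q, χ q = ∏ j, θ j ^ w q j)
    (hM : ∀ i q, eM MP y i q = ∑ k, C i k * B k q * χ q) (hδ : dexp s r E0 d ≤ δ)
    (p : Fin (s + 1) → ℂ → σ → ℂ) (hp0 : ∀ j, p j 0 = y) (hp : ∀ j τ, p j τ ∈ 𝒵)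
    (M' : Fin (s + 1) → Fin r → ι → ℂ) (hdM : ∀ j i q, HasDerivAt (fun τ => eM MP (p j τ) i q) (M' j i q) 0) :
    ∃ x : Fin (s + 1) → ℂ, x ≠ 0 ∧ ∀ i, ∃ c : Fin r → ℂ, ∀ q, ∑ j, x j * M' j i q = ∑ i', c i' * eM MP y i' q := by
  classical
  by_contra hcon
  push Not at hcon
  -- a non zero minor
  obtain ⟨P, -, hP⟩ := Pool.Agent.Y113.GG.exists_minor (fun i => eM MP y i) Set.univ (by
    intro x hx
    exact hli x fun q => hx q (Set.mem_univ _))
  have hP' : mn (eM MP y) P ≠ 0 := hP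
  set M := eM MP y with hMdef
  have hdN : ∀ j t, ∃ x, HasDerivAt (fun τ => mn (eM MP (p j τ)) t) x 0 :=
    fun j t => ⟨_, (diff_mn (M := fun τ => eM MP (p j τ)) (fun i q => (hdM j i q).differentiableAt) t).hasDerivAt⟩
  choose Nd hNd using hdN
  have hM0 : ∀ j, eM MP (p j 0) = M := fun j => by rw [hp0]
  -- the differentiated Cramer rule
  have hcr : ∀ j i q, ∑ k, (M' j i (P k) * mn M (Function.update P k q) + M i (P k) * Nd j (Function.update P k q)) =
      Nd j P * M i q + mn M P * M' j i q := by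
    intro j i q
    have h1 := HasDerivAt.fun_sum (u := Finset.univ) fun k _ => (hdM j i (P k)).fun_mul (hNd j (Function.update P k q))
    have h2 := (hNd j P).fun_mul (hdM j i q)
    simp only [cramer_id] at h1
    rw [hM0] at h1 h2
    exact h1.unique h2
  set Λ : Fin (s + 1) → (Fin r × ι) → ℂ := fun j kq =>
    Nd j (Function.update P kq.1 kq.2) * mn M P - mn M (Function.update P kq.1 kq.2) * Nd j P with hΛ
  obtain ⟨J, -, hJ⟩ := Pool.Agent.Y113.GG.exists_minor Λ Set.univ (by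
    intro x hx
    by_contra hx0
    have hx' : ∀ k q, (∑ j, x j * Nd j (Function.update P k q)) * mn M P =
        mn M (Function.update P k q) * ∑ j, x j * Nd j P := by
      intro k q
      have h1 := hx (k, q) (Set.mem_univ _)
      simp only [hΛ, mul_sub, Finset.sum_sub_distrib] at h1
      rw [sub_eq_zero] at h1
      rw [Finset.sum_mul, Finset.mul_sum]
      refine Eq.trans (Finset.sum_congr rfl fun j _ => ?_) (h1.trans (Finset.sum_congr rfl fun j _ => ?_)) <;> ring
    set Mx : Fin r → ι → ℂ := fun i q => ∑ j, x j * M' j i q with hMx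
    have h2 : ∀ i q, Mx i q = ∑ k, (Mx i (P k) / mn M P) * mn M (Function.update P k q) := by
      intro i q
      have h3 : ∑ k, (Mx i (P k) * mn M (Function.update P k q) +
          M i (P k) * ∑ j, x j * Nd j (Function.update P k q)) = (∑ j, x j * Nd j P) * M i q + mn M P * Mx i q := by
        have h4 : ∑ j, x j * ∑ k, (M' j i (P k) * mn M (Function.update P k q) + M i (P k) * Nd j (Function.update P k q)) =
            ∑ j, x j * (Nd j P * M i q + mn M P * M' j i q) := Finset.sum_congr rfl fun j _ => by rw [hcr]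
        have h5 : ∑ j, x j * (Nd j P * M i q + mn M P * M' j i q) = (∑ j, x j * Nd j P) * M i q + mn M P * Mx i q := by
          simp only [hMx, Finset.sum_mul, Finset.mul_sum, ← Finset.sum_add_distrib]
          exact Finset.sum_congr rfl fun j _ => by ring
        rw [← h5, ← h4]
        simp only [hMx, Finset.sum_mul, Finset.mul_sum, ← Finset.sum_add_distrib]
        rw [Finset.sum_comm]
        exact Finset.sum_congr rfl fun j _ => Finset.sum_congr rfl fun k _ => by ring
      have h6 : ∑ k, M i (P k) * ((∑ j, x j * Nd j (Function.update P k q)) * mn M P) =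
          (∑ j, x j * Nd j P) * (mn M P * M i q) := by
        rw [← cramer_id M P i q, Finset.mul_sum]
        refine Finset.sum_congr rfl fun k _ => ?_
        rw [hx']
        ring
      have h7 : mn M P * Mx i q = ∑ k, Mx i (P k) * mn M (Function.update P k q) := by
        have h8 : mn M P * (mn M P * Mx i q) = mn M P * ∑ k, Mx i (P k) * mn M (Function.update P k q) := by
          rw [Finset.sum_add_distrib] at h3
          have h9 : mn M P * ∑ k, M i (P k) * ∑ j, x j * Nd j (Function.update P k q) =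
              (∑ j, x j * Nd j P) * (mn M P * M i q) := by
            rw [← h6, Finset.mul_sum]
            exact Finset.sum_congr rfl fun k _ => by ring
          linear_combination h9 - mn M P * h3
        exact mul_left_cancel₀ hP' h8
      have h10 : Mx i q = (mn M P)⁻¹ * (mn M P * Mx i q) := by
        rw [← mul_assoc, inv_mul_cancel₀ hP', one_mul]
      rw [h10, h7, Finset.mul_sum]
      exact Finset.sum_congr rfl fun k _ => by rw [div_eq_mul_inv]; ring
    obtain ⟨i, hi⟩ := hcon x hx0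
    obtain ⟨q, hq⟩ := hi (fun i' => ∑ k, (Mx i (P k) / mn M P) * (M.submatrix id P).adjugate k i')
    apply hq
    show Mx i q = _
    rw [h2]
    simp only [cramer_adj, Finset.mul_sum, Finset.sum_mul]
    rw [Finset.sum_comm]
    exact Finset.sum_congr rfl fun i' _ => Finset.sum_congr rfl fun k _ => by ring)
  obtain ⟨x, hx0, hx⟩ := rel_vecG hG hMP hB hθ hw hχ hM hδ P hP' (fun b => Function.update P (J b).1 (J b).2)
  apply hJ
  rw [← Matrix.exists_mulVec_eq_zero_iff]
  refine ⟨x, hx0, ?_⟩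
  funext j
  have h1 := hx (p j) (hp0 j) (hp j) (Nd j) (hNd j)
  show ∑ b, Λ j (J b) * x b = 0
  rw [← h1]
  exact Finset.sum_congr rfl fun b _ => by rw [mul_comm]

end Pool.Agent.T44.GF
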