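import Pool.Agent.T44.GF.Gr3
import Pool.Agent.T44.GF.Stm3
import Pool.Agent.Y123.GN.E6

/-!
# Statements of independent lemmas (stubs) of the project GF, third part: subalgebras of small codimension of the classical
# Lie algebras
-/

set_option autoImplicit false

open Matrix

namespace Pool.Agent.T44.GF

open Pool.Agent.Y123.GN

/-- stub CLSP: the symplectic groups, `n ≥ 4` (proper subalgebras of `sp_n` have codimension at least `n - 1`) -/
def S_CLSP : Prop := ∀ (n s : ℕ) (B : Matrix (Fin n) (Fin n) ℂ), Bᵀ = -B → IsUnit B → 4 ≤ n → s + 2 ≤ n →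
  Perf (Nil (GB B)) ∧ NoSub s (Nil (GB B))

/-- stub CLSL: the special linear groups, `n ≥ 3` (proper subalgebras of `sl_n` have codimension at least `n - 1`) -/
def S_CLSL : Prop := ∀ (n s : ℕ), 3 ≤ n → s + 2 ≤ n →
  Perf (Nil (GB (0 : Matrix (Fin n) (Fin n) ℂ))) ∧ NoSub s (Nil (GB (0 : Matrix (Fin n) (Fin n) ℂ)))

/-- stub CLSO: the special orthogonal groups, `n ≥ 5`, `n ≠ 6` (proper subalgebras of `so_n` have codimension at least
`n - 2`) -/
def S_CLSO : Prop := ∀ (n s : ℕ) (B : Matrix (Fin n) (Fin n) ℂ), Bᵀ = B → IsUnit B → 5 ≤ n → n ≠ 6 → s + 3 ≤ n →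
  Perf (Nil (GB B)) ∧ NoSub s (Nil (GB B))

end Pool.Agent.T44.GF
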