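import Pool.Agent.T44.EF.Ten
import Pool.Agent.Y123.GN.A1

/-!
# Right multiplication of matrices acting on tensors, exponentials
-/

set_option autoImplicit false
set_option linter.unusedSectionVars false

open Matrix

namespace Pool.Agent.T44.GF

open Pool.Agent.T44.EF Pool.Agent.Y123.GN Pool.Agent.TH127.PT Pool.Agent.Y123.ST

section tensor

variable {V : Type} [Fintype V] [DecidableEq V] {d : ℕ}

/-- one factor, as a homomorphism of rings -/
noncomputable def DtA (t : Fin d) : Matrix V V ℂ →+* Module.End ℂ ((Fin d → V) → ℂ) where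
  toFun := Dt t
  map_one' := Dt_one t
  map_mul' A B := (Dt_mul t A B).symm
  map_zero' := by
    have h := Dt_smul t (0 : ℂ) (0 : Matrix V V ℂ)
    rwa [zero_smul, zero_smul] at h
  map_add' A B := Dt_add t A B

theorem DtA_apply (t : Fin d) (A : Matrix V V ℂ) : DtA t A = Dt t A := rfl

theorem exp_Dt {E : Matrix V V ℂ} (hE : IsNilpotent E) (t : Fin d) :
    IsNilpotent (Dt t E) ∧ IsNilpotent.exp (Dt t E) = Dt t (IsNilpotent.exp E) := by
  refine ⟨hE.map (DtA t), ?_⟩
  have h := IsNilpotent.map_exp hE (DtA t)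
  exact h.symm

theorem rhf_exp' {E : Matrix V V ℂ} (hE : IsNilpotent E) (s : Finset (Fin d)) :
    IsNilpotent (∑ t ∈ s, Dt t E) ∧
      rhf (fun t => if t ∈ s then IsNilpotent.exp E else 1) = IsNilpotent.exp (∑ t ∈ s, Dt t E) := by
  classical
  induction s using Finset.induction_on with
  | empty =>
    refine ⟨by rw [Finset.sum_empty]; exact IsNilpotent.zero, ?_⟩
    rw [Finset.sum_empty, IsNilpotent.exp_zero]
    simp only [Finset.notMem_empty, if_false]
    exact rhf_one
  | insert u s hu ih =>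
    obtain ⟨h1, h2⟩ := ih
    obtain ⟨hn, h3⟩ := exp_Dt hE u
    have hc : Commute (Dt u E) (∑ t ∈ s, Dt t E) := by
      refine Commute.sum_right _ _ _ fun t ht => Dt_comm ?_ E E
      rintro rfl
      exact hu ht
    refine ⟨?_, ?_⟩
    · rw [Finset.sum_insert hu]
      exact hc.isNilpotent_add hn h1
    · rw [Finset.sum_insert hu, IsNilpotent.exp_add_of_commute hc hn h1, ← h2, h3]
      unfold Dt
      rw [rhf_mul]
      congr 1
      funext t
      rw [Pi.mul_apply]
      by_cases h : t = u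
      · subst h
        rw [Pi.mulSingle_eq_same, if_pos (Finset.mem_insert_self _ _), if_neg hu, mul_one]
      · rw [Pi.mulSingle_eq_of_ne h, one_mul]
        simp [Finset.mem_insert, h]

/-- the exponential -/
theorem rh_exp {E : Matrix V V ℂ} (hE : IsNilpotent E) (τ : ℂ) :
    IsNilpotent (Lt (d := d) E) ∧ rh (d := d) (IsNilpotent.exp (τ • E)) = IsNilpotent.exp (τ • Lt (d := d) E) := by
  obtain ⟨h1, -⟩ := rhf_exp' (d := d) hE Finset.univ
  obtain ⟨-, h2⟩ := rhf_exp' (d := d) (hE.smul τ) Finset.univ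
  refine ⟨by rw [Lt_eq]; exact h1, ?_⟩
  rw [← map_smul, Lt_eq, ← h2]
  simp [rh]

/-- stability under the exponential -/
theorem rh_stab' {E : Matrix V V ℂ} (hE : IsNilpotent E) (S : Submodule ℂ ((Fin d → V) → ℂ))
    (hS : ∀ a ∈ S, Lt E a ∈ S) (τ : ℂ) : ∀ a ∈ S, rh (IsNilpotent.exp (τ • E)) a ∈ S := by
  intro a ha
  obtain ⟨h1, h3⟩ := rh_exp (d := d) hE τ
  obtain ⟨k, hk⟩ := h1.smul τ
  rw [h3, IsNilpotent.exp_eq_sum hk, LinearMap.sum_apply]
  refine Submodule.sum_mem _ fun i _ => ?_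
  rw [LinearMap.smul_apply]
  refine S.smul_of_tower_mem _ ?_
  have key : ∀ i : ℕ, ((τ • Lt (d := d) E) ^ i) a ∈ S := by
    intro i
    induction i with
    | zero => simpa using ha
    | succ i ih =>
      rw [pow_succ', Module.End.mul_apply, LinearMap.smul_apply]
      exact S.smul_mem _ (hS _ ih)
  exact key i

/-- the derivative -/
theorem rh_deriv' {E : Matrix V V ℂ} (hE : IsNilpotent E) (a : (Fin d → V) → ℂ) (I : Fin d → V) :
    HasDerivAt (fun τ : ℂ => rh (IsNilpotent.exp (τ • E)) a I) (Lt E a I) 0 := by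
  obtain ⟨⟨k, hk⟩, -⟩ := rh_exp (d := d) hE 0
  have h1 : ∀ τ : ℂ, rh (IsNilpotent.exp (τ • E)) a I =
      ∑ i ∈ Finset.range (k + 2), ((i.factorial : ℂ))⁻¹ * (τ ^ i * ((Lt (d := d) E ^ i) a I)) := by
    intro τ
    have hk2 : (τ • Lt (d := d) E) ^ (k + 2) = 0 := by
      rw [smul_pow, pow_add (Lt (d := d) E), hk, zero_mul, smul_zero]
    rw [(rh_exp (d := d) hE τ).2, IsNilpotent.exp_eq_sum hk2, LinearMap.sum_apply, Finset.sum_apply]
    refine Finset.sum_congr rfl fun i _ => ?_
    rw [LinearMap.smul_apply, smul_pow, LinearMap.smul_apply, Pi.smul_apply, Pi.smul_apply, smul_eq_mul]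
    rw [Rat.smul_def]
    push_cast
    ring
  simp only [h1]
  have h2 : HasDerivAt (fun τ : ℂ => ∑ i ∈ Finset.range (k + 2), ((i.factorial : ℂ))⁻¹ * (τ ^ i * ((Lt (d := d) E ^ i) a I)))
      (∑ i ∈ Finset.range (k + 2), ((i.factorial : ℂ))⁻¹ * (((i : ℂ) * (0 : ℂ) ^ (i - 1)) * ((Lt (d := d) E ^ i) a I))) 0 := by
    refine HasDerivAt.fun_sum fun i _ => HasDerivAt.const_mul _ (HasDerivAt.mul_const ?_ _)
    exact hasDerivAt_pow i 0
  refine HasDerivAt.congr_deriv h2 ?_
  rw [Finset.sum_eq_single 1]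
  · simp
  · intro i _ hi
    rcases i with _ | i
    · simp
    · have : i + 1 - 1 = i := by omega
      rw [this, zero_pow (by omega)]
      ring
  · intro h
    exact absurd (Finset.mem_range.2 (by omega)) h

end tensor

variable {M : Type} [Fintype M] [DecidableEq M] {d : ℕ}

/-- right multiplication -/
def Rg (g : Matrix M M ℂ) : Matrix (M × M) (M × M) ℂ := Matrix.of fun v w => if v.1 = w.1 then g v.2 w.2 else 0

theorem Rg_apply (g : Matrix M M ℂ) (v w : M × M) : Rg g v w = if v.1 = w.1 then g v.2 w.2 else 0 := rfl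

theorem fl_Rg (X g : Matrix M M ℂ) : fl X ᵥ* Rg g = fl (X * g) := by
  funext w
  show ∑ v : M × M, fl X v * Rg g v w = _
  rw [Fintype.sum_prod_type, Finset.sum_eq_single w.1]
  · show ∑ m, X w.1 m * Rg g (w.1, m) w = (X * g) w.1 w.2
    rw [Matrix.mul_apply]
    exact Finset.sum_congr rfl fun m _ => by rw [Rg_apply, if_pos rfl]
  · intro b _ hb
    refine Finset.sum_eq_zero fun m _ => ?_
    rw [Rg_apply, if_neg hb, mul_zero]
  · intro h
    exact absurd (Finset.mem_univ _) h

theorem Rg_mul (g h : Matrix M M ℂ) : Rg g * Rg h = Rg (g * h) := by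
  ext v w
  rw [Matrix.mul_apply, Fintype.sum_prod_type, Finset.sum_eq_single v.1, Rg_apply]
  · by_cases hvw : v.1 = w.1
    · rw [if_pos hvw, Matrix.mul_apply]
      refine Finset.sum_congr rfl fun m _ => ?_
      rw [Rg_apply, Rg_apply, if_pos rfl, if_pos hvw]
    · rw [if_neg hvw]
      refine Finset.sum_eq_zero fun m _ => ?_
      rw [Rg_apply, Rg_apply, if_pos rfl, if_neg hvw, mul_zero]
  · intro b _ hb
    refine Finset.sum_eq_zero fun m _ => ?_
    rw [Rg_apply, if_neg (Ne.symm hb), zero_mul]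
  · intro h
    exact absurd (Finset.mem_univ _) h

theorem Rg_one : Rg (1 : Matrix M M ℂ) = 1 := by
  ext v w
  rw [Rg_apply, Matrix.one_apply, Matrix.one_apply]
  by_cases h : v = w
  · rw [if_pos h, h]
    simp
  · rw [if_neg h]
    by_cases h1 : v.1 = w.1
    · rw [if_pos h1, if_neg]
      intro h2
      exact h (Prod.ext h1 h2)
    · rw [if_neg h1]

/-- right multiplication is a homomorphism of algebras -/
def RgA : Matrix M M ℂ →ₗ[ℂ] Matrix (M × M) (M × M) ℂ where
  toFun := Rg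
  map_add' g h := by
    ext v w
    rw [Matrix.add_apply, Rg_apply, Rg_apply, Rg_apply]
    split_ifs
    · rfl
    · rw [add_zero]
  map_smul' c g := by
    ext v w
    rw [RingHom.id_apply, Matrix.smul_apply, Rg_apply, Rg_apply]
    split_ifs
    · rfl
    · rw [smul_zero]

theorem RgA_apply (g : Matrix M M ℂ) : RgA g = Rg g := rfl

theorem Rg_smul (c : ℂ) (g : Matrix M M ℂ) : Rg (c • g) = c • Rg g := map_smul RgA c g

theorem Rg_sub (g h : Matrix M M ℂ) : Rg (g - h) = Rg g - Rg h := map_sub RgA g h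

theorem Rg_nil {E : Matrix M M ℂ} (hE : IsNilpotent E) : IsNilpotent (Rg E) := by
  obtain ⟨k, hk⟩ := hE
  refine ⟨k, ?_⟩
  have h : ∀ k : ℕ, Rg E ^ k = Rg (E ^ k) := by
    intro k
    induction k with
    | zero => rw [pow_zero, pow_zero, Rg_one]
    | succ k ih => rw [pow_succ, pow_succ, ih, Rg_mul]
  rw [h, hk, ← RgA_apply, map_zero]

/-- right multiplication as a ring homomorphism -/
def RgR : Matrix M M ℂ →+* Matrix (M × M) (M × M) ℂ where
  toFun := Rg
  map_one' := Rg_one
  map_mul' g h := (Rg_mul g h).symm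
  map_zero' := map_zero RgA
  map_add' := map_add RgA

theorem Rg_exp {E : Matrix M M ℂ} (hE : IsNilpotent E) (τ : ℂ) : Rg (IsNilpotent.exp (τ • E)) = IsNilpotent.exp (τ • Rg E) := by
  have h := IsNilpotent.map_exp (hE.smul τ) (RgR (M := M))
  rw [← Rg_smul]
  exact h

/-- evaluation of a tensor at a matrix -/
def Fe (a : (Fin d → M × M) → ℂ) (X : Matrix M M ℂ) : ℂ := Fm a (fun _ => fl X)

theorem Fe_rh (g : Matrix M M ℂ) (a : (Fin d → M × M) → ℂ) (X : Matrix M M ℂ) : Fe (rh (Rg g) a) X = Fe a (X * g) := by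
  unfold Fe rh
  rw [Fm_rhf, fl_Rg]

end Pool.Agent.T44.GF
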