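import Pool.Agent.T44.GF.Rk
import Pool.Agent.T44.GF.Tn
import Pool.Agent.T44.EF.Tra
import Pool.Agent.Y123.GN.A2

/-!
# Homogeneous relations on a subtorsor near a point of torus type: the rank argument, general version
-/

set_option autoImplicit false
set_option linter.unusedSectionVars false

open Matrix

namespace Pool.Agent.T44.GF

open Pool.Agent.T44.EF Pool.Agent.Y123.GN Pool.Agent.TH127.PT Pool.Agent.Y123.ST Pool.Agent.TH119.DR Pool.Agent.TH119.MX

variable {M : Type} [Fintype M] [DecidableEq M] {d s r : ℕ} {K K' : Subfield ℂ} {T : Set (Matrix M M ℂ)}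

theorem Fe_add (a b : (Fin d → M × M) → ℂ) (X : Matrix M M ℂ) : Fe (a + b) X = Fe a X + Fe b X := by
  unfold Fe
  exact Fm_add' a b _

theorem Fe_smul (c : ℂ) (a : (Fin d → M × M) → ℂ) (X : Matrix M M ℂ) : Fe (c • a) X = c * Fe a X := by
  unfold Fe
  exact Fm_smul' c a _

/-- the tensors which vanish on `T` -/
def Ta (T : Set (Matrix M M ℂ)) (d : ℕ) : Submodule ℂ ((Fin d → M × M) → ℂ) where
  carrier := {a | ∀ X ∈ T, Fe a X = 0}
  zero_mem' := by
    intro X _
    simp [Fe, Fm]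
  add_mem' := by
    intro a b ha hb X hX
    rw [Fe_add, ha X hX, hb X hX, add_zero]
  smul_mem' := by
    intro c a ha X hX
    rw [Fe_smul, ha X hX, mul_zero]

/-- the tensors which vanish on `T T⁻¹` -/
def Tb (T : Set (Matrix M M ℂ)) (d : ℕ) : Submodule ℂ ((Fin d → M × M) → ℂ) where
  carrier := {a | ∀ X ∈ T, ∀ Y ∈ T, Fe a (X * Y⁻¹) = 0}
  zero_mem' := by
    intro X _ Y _
    simp [Fe, Fm]
  add_mem' := by
    intro a b ha hb X hX Y hY
    rw [Fe_add, ha X hX Y hY, hb X hX Y hY, add_zero]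
  smul_mem' := by
    intro c a ha X hX Y hY
    rw [Fe_smul, ha X hX Y hY, mul_zero]

theorem Fe_aut (σ : ℂ ≃+* ℂ) (a : (Fin d → M × M) → ℂ) (X : Matrix M M ℂ) :
    σ (Fe a X) = Fe (fun I => σ (a I)) (X.map σ) := by
  unfold Fe Fm
  rw [map_sum]
  refine Finset.sum_congr rfl fun I _ => ?_
  rw [map_mul, map_prod]
  rfl

theorem map_symm (σ : ℂ ≃+* ℂ) (X : Matrix M M ℂ) : (X.map σ.symm).map σ = X := by
  ext x y
  simp

theorem Ta_def (hT : IsSubtorsor K T) (d : ℕ) : DefOver K (Ta T d) := by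
  refine defOver_of_aut _ fun σ hσ a ha X hX => ?_
  have h2 := congrArg σ (ha _ (aut_mem hT (symm_fix hσ) hX))
  rw [map_zero, Fe_aut, map_symm] at h2
  exact h2

theorem Tb_def (hT : IsSubtorsor K T) (d : ℕ) : DefOver K (Tb T d) := by
  refine defOver_of_aut _ fun σ hσ a ha X hX Y hY => ?_
  have hX' := aut_mem hT (symm_fix hσ) hX
  have hY' := aut_mem hT (symm_fix hσ) hY
  have h2 := congrArg σ (ha _ hX' _ hY')
  rw [map_zero, Fe_aut] at h2
  have h3 : (X.map σ.symm * (Y.map σ.symm)⁻¹).map σ = X * Y⁻¹ := by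
    have h4 : (X.map σ.symm * (Y.map σ.symm)⁻¹).map σ * Y = X := by
      have h5 : (X.map σ.symm * (Y.map σ.symm)⁻¹ * Y.map σ.symm).map σ =
          (X.map σ.symm * (Y.map σ.symm)⁻¹).map σ * (Y.map σ.symm).map σ :=
        Matrix.map_mul (f := (σ : ℂ →+* ℂ)) (L := X.map σ.symm * (Y.map σ.symm)⁻¹) (M := Y.map σ.symm)
      rw [Matrix.mul_assoc, inv_mul' hT hY', Matrix.mul_one, map_symm, map_symm] at h5
      exact h5.symm
    calc (X.map σ.symm * (Y.map σ.symm)⁻¹).map σ = (X.map σ.symm * (Y.map σ.symm)⁻¹).map σ * (Y * Y⁻¹) := by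
          rw [mul_inv' hT hY, Matrix.mul_one]
      _ = X * Y⁻¹ := by rw [← Matrix.mul_assoc, h4]
  rw [h3] at h2
  exact h2

theorem Ta_map (hT : IsSubtorsor K T) {c : Matrix M M ℂ} (hc : c ∈ T) (d : ℕ) : (Ta T d).map (rh (Rg c)) = Tb T d := by
  apply le_antisymm
  · rintro _ ⟨a, ha, rfl⟩ X hX Y hY
    rw [Fe_rh]
    exact ha _ (hT.torsor X hX Y hY c hc)
  · intro a ha
    refine ⟨rh (Rg c⁻¹) a, ?_, ?_⟩
    · intro X hX
      rw [Fe_rh]
      exact ha X hX c hc
    · rw [← Module.End.mul_apply, rh_mul, Rg_mul, mul_inv' hT hc, Rg_one, rh_one]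
      rfl

theorem Rg_inj {A A' : Matrix M M ℂ} (h : A' * A = 1) : Function.Injective (rh (d := d) (Rg A)) := by
  intro u u' huu
  have h1 := congrArg (rh (d := d) (Rg A')) huu
  rw [← Module.End.mul_apply, ← Module.End.mul_apply, rh_mul, Rg_mul, h, Rg_one, rh_one] at h1
  exact h1

theorem rh_memK {A : Matrix (M × M) (M × M) ℂ} (hA : ∀ v w, A v w ∈ K) {u : (Fin d → M × M) → ℂ}
    (hu : ∀ q, u q ∈ K) (q : Fin d → M × M) : rh A u q ∈ K := by
  rw [rh_apply]
  exact K.sum_mem fun J _ => K.mul_mem (hu J) (K.prod_mem fun t _ => hA _ _)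

theorem Rg_memK {g : Matrix M M ℂ} (hg : ∀ i j, g i j ∈ K) (v w : M × M) : Rg g v w ∈ K := by
  rw [Rg_apply]
  split_ifs
  · exact hg _ _
  · exact K.zero_mem

/-- diagonal matrices -/
theorem rh_diagG (δ : M → ℂ) (u : (Fin d → M × M) → ℂ) (q : Fin d → M × M) :
    rh (Rg (diagonal δ)) u q = (∏ t, δ (q t).2) * u q := by
  rw [rh_apply, Finset.sum_eq_single q]
  · rw [mul_comm]
    congr 1
    refine Finset.prod_congr rfl fun t _ => ?_
    rw [Rg_apply]
    simp
  · intro J _ hJ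
    obtain ⟨t, ht⟩ : ∃ t, J t ≠ q t := by
      by_contra hcon
      push Not at hcon
      exact hJ (funext hcon)
    rw [Finset.prod_eq_zero (Finset.mem_univ t), mul_zero]
    rw [Rg_apply]
    split_ifs with h
    · rw [diagonal_apply_ne]
      intro h3
      exact ht (Prod.ext h.symm h3.symm)
    · rfl
  · intro h
    exact absurd (Finset.mem_univ _) h

/-- the inverse of a matrix over a field -/
theorem inv_memK {U : Matrix M M ℂ} (hU : ∀ i j, U i j ∈ K) (hd : IsUnit U.det) (i j : M) : U⁻¹ i j ∈ K := by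
  set U0 : Matrix M M K := Matrix.of fun i j => ⟨U i j, hU i j⟩ with hU0
  have h1 : U0.map (algebraMap K ℂ) = U := by
    ext i j
    rfl
  have h2 : algebraMap K ℂ U0.det = U.det := by
    rw [← h1, RingHom.map_det]
    rfl
  have h3 : IsUnit U0.det := by
    rw [isUnit_iff_ne_zero]
    intro h
    rw [h, map_zero] at h2
    rw [← h2] at hd
    exact not_isUnit_zero hd
  have h4 : U⁻¹ = U0⁻¹.map (algebraMap K ℂ) := by
    apply inv_eq_right_inv
    have h5 := congrArg (fun M => M.map (algebraMap K ℂ)) (mul_nonsing_inv U0 h3)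
    simp only [Matrix.map_mul] at h5
    rw [h1] at h5
    rw [h5]
    exact Matrix.map_one _ (map_zero _) (map_one _)
  rw [h4]
  exact (U0⁻¹ i j).2

theorem dexp_mono' {r r' E0 d' : ℕ} (h : r ≤ r') : dexp s r E0 d' ≤ dexp s r' E0 d' := by
  unfold dexp mexp
  gcongr

variable {σ : Type}

/-- the product of a constant matrix and a polynomial matrix -/
noncomputable def VY (V : Matrix M M ℂ) (Yp : Matrix M M (MvPolynomial σ ℂ)) : Matrix M M (MvPolynomial σ ℂ) :=
  Matrix.of fun a b => ∑ m, MvPolynomial.C (V a m) * Yp m b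

/-- the polynomial matrix of the orbit -/
noncomputable def MPt (V : Matrix M M ℂ) (Yp : Matrix M M (MvPolynomial σ ℂ)) (b : Fin r → (Fin d → M × M) → ℂ)
    (i : Fin r) (q : Fin d → M × M) : MvPolynomial σ ℂ :=
  ∑ J : Fin d → M × M, MvPolynomial.C (b i J) *
    ∏ t, (if (q t).1 = (J t).1 then VY V Yp (q t).2 (J t).2 else 0)

theorem eM_MPt (V : Matrix M M ℂ) (Yp : Matrix M M (MvPolynomial σ ℂ)) (b : Fin r → (Fin d → M × M) → ℂ) (z : σ → ℂ)
    (i : Fin r) (q : Fin d → M × M) : eM (MPt V Yp b) z i q = rh (Rg (V * Yp.map (MvPolynomial.eval z))) (b i) q := by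
  unfold eM MPt
  rw [Matrix.of_apply, map_sum, rh_apply]
  refine Finset.sum_congr rfl fun J _ => ?_
  rw [map_mul, MvPolynomial.eval_C, map_prod]
  congr 1
  refine Finset.prod_congr rfl fun t _ => ?_
  rw [Rg_apply]
  split_ifs
  · unfold VY
    rw [Matrix.mul_apply, Matrix.of_apply, map_sum]
    refine Finset.sum_congr rfl fun m _ => ?_
    rw [map_mul, MvPolynomial.eval_C]
    rfl
  · exact map_zero _

theorem Bd_MPt {V : Matrix M M ℂ} (hV : ∀ i j, V i j ∈ K) {Yp : Matrix M M (MvPolynomial σ ℂ)}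
    (hY : ∀ i j, Bd K 1 (Yp i j)) {b : Fin r → (Fin d → M × M) → ℂ} (hb : ∀ i J, b i J ∈ K) (i : Fin r)
    (q : Fin d → M × M) : Bd K d (MPt V Yp b i q) := by
  unfold MPt
  refine Bd.sum _ fun J _ => ?_
  have h1 : Bd K (∑ _t : Fin d, 1)
      (∏ t, (if (q t).1 = (J t).1 then VY V Yp (q t).2 (J t).2 else 0)) := by
    refine Bd.prod Finset.univ (e := fun _ : Fin d => 1) fun t _ => ?_
    split_ifs
    · unfold VY
      rw [Matrix.of_apply]
      refine Bd.sum _ fun m _ => ?_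
      have h2 := (Bd.C (σ := σ) (hV (q t).2 m)).mul (hY m (J t).2)
      rw [zero_add] at h2
      exact h2
    · exact Bd.zero
  have h3 := (Bd.C (σ := σ) (hb i J)).mul h1
  refine h3.mono ?_
  simp

/-- **The rank argument** -/
theorem rankT (hKK' : K ≤ K') {δ : ℕ} {y : σ → ℂ} {𝒵 : Set (σ → ℂ)}
    (hG : ∀ P : MvPolynomial σ ℂ, (∀ m, P.coeff m ∈ K') → P.totalDegree ≤ δ → MvPolynomial.eval y P = 0 →
      ∀ z ∈ 𝒵, MvPolynomial.eval z P = 0)
    {U V : Matrix M M ℂ} (hU : ∀ i j, U i j ∈ K') (hV : ∀ i j, V i j ∈ K') (hUd : IsUnit U.det)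
    (hVd : IsUnit V.det) {lam : ℂ} (hlam : lam ≠ 0) {θ : Fin s → ℂ} (hθ : ∀ j, θ j ≠ 0) {e : M → Fin s → ℤ} {E1 : ℕ}
    (he : ∀ k j, |e k j| ≤ E1) {Yp : Matrix M M (MvPolynomial σ ℂ)} (hY : ∀ i j, Bd K' 1 (Yp i j))
    (hYd : IsUnit (Yp.map (MvPolynomial.eval y)).det) (hT : IsSubtorsor K T)
    {c : Matrix M M ℂ} (hc : c = lam • (U * diagonal (fun k => ∏ j, θ j ^ e k j) * V) * Yp.map (MvPolynomial.eval y))
    (hcT : c ∈ T) (hδ : dexp s (Fintype.card (Fin d → M × M)) (d * E1) d ≤ δ)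
    (E : Fin (s + 1) → Matrix M M ℂ) (hE : ∀ j, IsNilpotent (E j)) (p : Fin (s + 1) → ℂ → σ → ℂ)
    (hp0 : ∀ j, p j 0 = y) (hp : ∀ j τ, p j τ ∈ 𝒵)
    (hpE : ∀ j τ, Yp.map (MvPolynomial.eval (p j τ)) = IsNilpotent.exp (τ • E j) * Yp.map (MvPolynomial.eval y)) :
    ∃ x : Fin (s + 1) → ℂ, x ≠ 0 ∧ ∀ u ∈ (Ta T d).map (rh (Rg (Yp.map (MvPolynomial.eval y)))),
      Lt (Rg (∑ j, x j • E j)) u ∈ (Ta T d).map (rh (Rg (Yp.map (MvPolynomial.eval y)))) := by
  classical
  set Y := Yp.map (MvPolynomial.eval y) with hYdef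
  set r := Module.finrank ℂ (Ta T d) with hr
  have hrle : r ≤ Fintype.card (Fin d → M × M) := by
    rw [hr, ← Module.finrank_fintype_fun_eq_card ℂ (η := Fin d → M × M)]
    exact Submodule.finrank_le _
  obtain ⟨b, hbK, hbli, hbspan⟩ := exists_Kbasis (Ta_def hT d) hr.symm
  have hinjc : Function.Injective (rh (d := d) (Rg c)) := Rg_inj (inv_mul' hT hcT)
  have hfin : Module.finrank ℂ (Tb T d) = r := by
    rw [← Ta_map hT hcT]
    exact (LinearEquiv.finrank_eq (Submodule.equivMapOfInjective _ hinjc (Ta T d))).symm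
  obtain ⟨b', hb'K, hb'li, hb'span⟩ := exists_Kbasis (Tb_def hT d) hfin
  -- coefficients
  have hC0 : ∀ i, ∃ C0 : Fin r → ℂ, ∑ k, C0 k • b' k = rh (Rg c) (b i) := by
    intro i
    have h1 : rh (Rg c) (b i) ∈ Tb T d := by
      rw [← Ta_map hT hcT]
      refine ⟨b i, ?_, rfl⟩
      have : b i ∈ Submodule.span ℂ (Set.range b) := Submodule.subset_span ⟨i, rfl⟩
      rwa [hbspan] at this
    rw [← hb'span] at h1
    exact (Submodule.mem_span_range_iff_exists_fun ℂ).1 h1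
  choose C0 hC0 using hC0
  have hVY : IsUnit (V * Y).det := by
    rw [det_mul]
    exact hVd.mul hYd
  have hinjVY : Function.Injective (rh (d := d) (Rg (V * Y))) := Rg_inj (nonsing_inv_mul _ hVY)
  have hinjV : Function.Injective (rh (d := d) (Rg V)) := Rg_inj (nonsing_inv_mul _ hVd)
  set B : Matrix (Fin r) (Fin d → M × M) ℂ := Matrix.of fun k q => rh (Rg U⁻¹) (b' k) q with hB
  have hBK : ∀ i q, B i q ∈ K' := fun i q => rh_memK (Rg_memK fun i j => inv_memK hU hUd i j) (fun q => hKK' (hb'K i q)) q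
  set dl' : M → ℂ := fun k => ∏ j, θ j ^ (-e k j) with hdl
  have hdd : diagonal dl' * diagonal (fun k => ∏ j, θ j ^ e k j) = (1 : Matrix M M ℂ) := by
    rw [diagonal_mul_diagonal, ← diagonal_one]
    congr 1
    funext k
    rw [hdl]
    simp only
    rw [← Finset.prod_mul_distrib]
    refine Finset.prod_eq_one fun j _ => ?_
    rw [← zpow_add₀ (hθ j), neg_add_cancel, zpow_zero]
  have hUU : U⁻¹ * U = 1 := nonsing_inv_mul _ hUd
  have hkey : V * Y = lam⁻¹ • (diagonal dl' * (U⁻¹ * c)) := by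
    rw [hc, Matrix.smul_mul, Matrix.mul_smul, Matrix.mul_smul, smul_smul, inv_mul_cancel₀ hlam, one_smul]
    calc V * Y = (diagonal dl' * diagonal (fun k => ∏ j, θ j ^ e k j)) * (V * Y) := by
          rw [hdd, Matrix.one_mul]
      _ = diagonal dl' * ((U⁻¹ * U) * (diagonal (fun k => ∏ j, θ j ^ e k j) * (V * Y))) := by
          rw [hUU, Matrix.one_mul, Matrix.mul_assoc]
      _ = _ := by simp only [Matrix.mul_assoc]
  have hM : ∀ i q, eM (MPt V Yp b) y i q = ∑ k, ((lam⁻¹) ^ d * C0 i k) * B k q * (∏ t, dl' (q t).2) := by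
    intro i q
    rw [eM_MPt]
    have h2 : Rg (V * Y) = lam⁻¹ • (Rg (diagonal dl') * (Rg U⁻¹ * Rg c)) := by
      rw [Rg_mul, Rg_mul, ← Rg_smul, hkey]
    rw [← hYdef, h2, rh_smul, LinearMap.smul_apply, Pi.smul_apply, smul_eq_mul, ← rh_mul, Module.End.mul_apply, rh_diagG,
      ← rh_mul, Module.End.mul_apply, ← hC0 i, map_sum, Finset.sum_apply, Finset.mul_sum, Finset.mul_sum]
    refine Finset.sum_congr rfl fun k _ => ?_
    rw [map_smul, Pi.smul_apply, smul_eq_mul]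
    show _ = lam⁻¹ ^ d * C0 i k * rh (Rg U⁻¹) (b' k) q * _
    ring
  have hχ : ∀ q : Fin d → M × M, ∏ t, dl' (q t).2 = ∏ j, θ j ^ (∑ t, -e (q t).2 j) := by
    intro q
    simp only [hdl]
    rw [Finset.prod_comm]
    exact Finset.prod_congr rfl fun j _ => zp_sum (hθ j) _ _
  have hw : ∀ (q : Fin d → M × M) (j : Fin s), |∑ t, -e (q t).2 j| ≤ ((d * E1 : ℕ) : ℤ) := by
    intro q j
    refine (Finset.abs_sum_le_sum_abs _ _).trans ?_
    refine (Finset.sum_le_card_nsmul _ _ (E1 : ℤ) (fun t _ => by rw [abs_neg]; exact he _ _)).trans ?_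
    rw [Finset.card_univ, Fintype.card_fin, nsmul_eq_mul]
    push_cast
    exact le_rfl
  -- the derivatives
  have hdM : ∀ j i q, HasDerivAt (fun τ => eM (MPt V Yp b) (p j τ) i q)
      (rh (Rg V) (Lt (Rg (E j)) (rh (Rg Y) (b i))) q) 0 := by
    intro j i q
    have h1 : ∀ τ, eM (MPt V Yp b) (p j τ) i q =
        ∑ J, rh (IsNilpotent.exp (τ • Rg (E j))) (rh (Rg Y) (b i)) J * ∏ t, Rg V (q t) (J t) := by
      intro τ
      rw [eM_MPt, hpE, ← Rg_mul, ← rh_mul, ← Rg_mul, ← rh_mul, Module.End.mul_apply, Module.End.mul_apply,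
        Rg_exp (hE j)]
      exact rh_apply _ _ _
    simp only [h1]
    rw [rh_apply]
    exact HasDerivAt.fun_sum fun J _ => (rh_deriv' (Rg_nil (hE j)) _ J).mul_const _
  obtain ⟨x, hx0, hx⟩ := rankG hG (MP := MPt V Yp b) (Bd_MPt hV hY fun i J => hKK' (hbK i J)) (by
    intro x hx
    have h1 : rh (Rg (V * Y)) (∑ i, x i • b i) = 0 := by
      rw [map_sum]
      funext q
      rw [Finset.sum_apply, Pi.zero_apply, ← hx q]
      refine Finset.sum_congr rfl fun i _ => ?_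
      rw [map_smul, Pi.smul_apply, smul_eq_mul, eM_MPt]
    have h2 := hinjVY (h1.trans (map_zero _).symm)
    funext i
    exact Fintype.linearIndependent_iff.1 hbli x h2 i) hBK hθ hw hχ hM ((dexp_mono' hrle).trans hδ) p hp0 hp
    (fun j i q => rh (Rg V) (Lt (Rg (E j)) (rh (Rg Y) (b i))) q) hdM
  refine ⟨x, hx0, ?_⟩
  have hLs : Lt (d := d) (Rg (∑ j, x j • E j)) = ∑ j, x j • Lt (Rg (E j)) := by
    rw [← RgA_apply, map_sum, map_sum]
    refine Finset.sum_congr rfl fun j _ => ?_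
    rw [map_smul, map_smul]
    rfl
  have hbase : ∀ i, Lt (Rg (∑ j, x j • E j)) (rh (Rg Y) (b i)) ∈ (Ta T d).map (rh (Rg Y)) := by
    intro i
    obtain ⟨c', hc'⟩ := hx i
    have h1 : rh (Rg V) (Lt (Rg (∑ j, x j • E j)) (rh (Rg Y) (b i))) = rh (Rg V) (rh (Rg Y) (∑ i', c' i' • b i')) := by
      funext q
      have h2 : rh (Rg V) (Lt (Rg (∑ j, x j • E j)) (rh (Rg Y) (b i))) q =
          ∑ j, x j * rh (Rg V) (Lt (Rg (E j)) (rh (Rg Y) (b i))) q := by
        rw [hLs, LinearMap.sum_apply, map_sum, Finset.sum_apply]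
        refine Finset.sum_congr rfl fun j _ => ?_
        rw [LinearMap.smul_apply, map_smul, Pi.smul_apply, smul_eq_mul]
      rw [h2, hc' q, map_sum, map_sum, Finset.sum_apply]
      refine Finset.sum_congr rfl fun i' _ => ?_
      rw [map_smul, map_smul, Pi.smul_apply, smul_eq_mul, eM_MPt, ← hYdef, ← Rg_mul, ← rh_mul, Module.End.mul_apply]
    rw [hinjV h1]
    refine ⟨∑ i', c' i' • b i', ?_, rfl⟩
    rw [← hbspan]
    exact Submodule.sum_mem _ fun i' _ => Submodule.smul_mem _ _ (Submodule.subset_span ⟨i', rfl⟩)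
  rintro _ ⟨a, ha, rfl⟩
  have ha' : a ∈ Submodule.span ℂ (Set.range b) := by
    rw [hbspan]
    exact ha
  clear ha
  induction ha' using Submodule.span_induction with
  | mem u hu =>
    obtain ⟨i, rfl⟩ := hu
    exact hbase i
  | zero => rw [map_zero, map_zero]; exact Submodule.zero_mem _
  | add u u' _ _ h h' => rw [map_add, map_add]; exact Submodule.add_mem _ h h'
  | smul c u _ h => rw [map_smul, map_smul]; exact Submodule.smul_mem _ _ h

end Pool.Agent.T44.GF
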