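import Pool.Agent.T44.GF.Tr
import Pool.Agent.T44.GF.Stm

/-!
# Homogeneous relations on a subtorsor near a point of torus type: stability
-/

set_option autoImplicit false
set_option linter.unusedSectionVars false

open Matrix

namespace Pool.Agent.T44.GF

open Pool.Agent.T44.EF Pool.Agent.Y123.GN Pool.Agent.TH127.PT Pool.Agent.Y123.ST Pool.Agent.TH119.DR Pool.Agent.TH119.MX

variable {M : Type} [Fintype M] [DecidableEq M] {d s : ℕ} {K : Subfield ℂ} {T : Set (Matrix M M ℂ)}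

/-- intertwining of exponentials -/
theorem exp_intw {A E N : Matrix M M ℂ} (hE : IsNilpotent E) (hN : IsNilpotent N) (h : A * E = N * A) (τ : ℂ) :
    A * IsNilpotent.exp (τ • E) = IsNilpotent.exp (τ • N) * A := by
  obtain ⟨a, ha⟩ := hE
  obtain ⟨b, hb⟩ := hN
  have h1 : (τ • E) ^ (a + b) = 0 := by rw [smul_pow, pow_add E, ha, zero_mul, smul_zero]
  have h2 : (τ • N) ^ (a + b) = 0 := by rw [smul_pow, pow_add N, hb, mul_zero, smul_zero]
  have h3 : ∀ i : ℕ, A * E ^ i = N ^ i * A := by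
    intro i
    induction i with
    | zero => rw [pow_zero, pow_zero, Matrix.mul_one, Matrix.one_mul]
    | succ i ih => rw [pow_succ, ← Matrix.mul_assoc, ih, Matrix.mul_assoc, h, ← Matrix.mul_assoc, ← pow_succ]
  rw [IsNilpotent.exp_eq_sum h1, IsNilpotent.exp_eq_sum h2, Finset.mul_sum, Finset.sum_mul]
  refine Finset.sum_congr rfl fun i _ => ?_
  rw [smul_pow, smul_pow, Matrix.mul_smul, Matrix.mul_smul, Matrix.smul_mul, Matrix.smul_mul, h3]

/-- the tensors of `T` are stable in a direction -/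
def Stb (T : Set (Matrix M M ℂ)) (d : ℕ) (Y E : Matrix M M ℂ) : Prop :=
  ∀ u ∈ (Ta T d).map (rh (Rg Y)), Lt (Rg E) u ∈ (Ta T d).map (rh (Rg Y))

theorem RhT_of_stb {x Y c E N : Matrix M M ℂ} (hc : c = x * Y) (hcT : c ∈ T) (hE : IsNilpotent E) (hN : IsNilpotent N)
    (hxE : x * E = N * x) (hS : Stb T d Y E) (τ : ℂ) : RhT T d (IsNilpotent.exp (τ • N) * c) := by
  intro P hP hv
  obtain ⟨a, ha⟩ := exists_tensor P hP
  have haT : a ∈ Ta T d := by
    intro X hX
    unfold Fe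
    rw [← ha]
    exact hv X hX
  have h1 := rh_stab' (Rg_nil hE) ((Ta T d).map (rh (Rg Y))) hS τ (rh (Rg Y) a) ⟨a, haT, rfl⟩
  obtain ⟨a3, ha3, h2⟩ := h1
  have h3 : Fe (rh (Rg Y) a3) x = Fe (rh (IsNilpotent.exp (τ • Rg E)) (rh (Rg Y) a)) x := by rw [h2]
  rw [Fe_rh, ← hc, ha3 c hcT, ← Rg_exp hE, Fe_rh, Fe_rh] at h3
  have h4 : x * IsNilpotent.exp (τ • E) * Y = IsNilpotent.exp (τ • N) * c := by
    rw [exp_intw hE hN hxE, Matrix.mul_assoc, ← hc]
  rw [h4] at h3
  rw [ha]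
  exact h3.symm

/-- the stable directions are closed under the bracket -/
theorem Stb.bracket {Y A B : Matrix M M ℂ} (hA : Stb T d Y A) (hB : Stb T d Y B) : Stb T d Y (A * B - B * A) := by
  intro u hu
  rw [Rg_sub, ← Rg_mul, ← Rg_mul, ← Lt_bracket, LinearMap.sub_apply, Module.End.mul_apply, Module.End.mul_apply]
  exact Submodule.sub_mem _ (hA _ (hB u hu)) (hB _ (hA u hu))

theorem Stb.zero {Y : Matrix M M ℂ} : Stb T d Y 0 := by
  intro u _
  have h : Rg (0 : Matrix M M ℂ) = 0 := map_zero RgA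
  rw [h, map_zero]
  exact Submodule.zero_mem _

theorem Stb.add {Y A B : Matrix M M ℂ} (hA : Stb T d Y A) (hB : Stb T d Y B) : Stb T d Y (A + B) := by
  intro u hu
  have h : Rg (A + B) = Rg A + Rg B := map_add RgA A B
  rw [h, map_add]
  exact Submodule.add_mem _ (hA u hu) (hB u hu)

theorem Stb.smul {Y A : Matrix M M ℂ} (c : ℂ) (hA : Stb T d Y A) : Stb T d Y (c • A) := by
  intro u hu
  rw [Rg_smul, map_smul]
  exact Submodule.smul_mem _ _ (hA u hu)

/-- the preimage of the stable directions under a linear map -/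
def Hs (T : Set (Matrix M M ℂ)) (d : ℕ) (Y : Matrix M M ℂ) {n : ℕ} (φ : Matrix (Fin n) (Fin n) ℂ →ₗ[ℂ] Matrix M M ℂ) :
    Submodule ℂ (Matrix (Fin n) (Fin n) ℂ) where
  carrier := {X | Stb T d Y (φ X)}
  zero_mem' := by
    show Stb T d Y (φ 0)
    rw [map_zero]
    exact Stb.zero
  add_mem' := by
    intro A B hA hB
    show Stb T d Y (φ (A + B))
    rw [map_add]
    exact Stb.add hA hB
  smul_mem' := by
    intro c A hA
    show Stb T d Y (φ (c • A))
    rw [map_smul]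
    exact Stb.smul c hA

theorem mem_Hs {Y : Matrix M M ℂ} {n : ℕ} {φ : Matrix (Fin n) (Fin n) ℂ →ₗ[ℂ] Matrix M M ℂ} {X : Matrix (Fin n) (Fin n) ℂ} :
    X ∈ Hs T d Y φ ↔ Stb T d Y (φ X) := Iff.rfl

/-- no Lie subalgebra of small codimension -/
def NoSub {n : ℕ} (s : ℕ) (𝒩 : Set (Matrix (Fin n) (Fin n) ℂ)) : Prop :=
  ∀ H : Submodule ℂ (Matrix (Fin n) (Fin n) ℂ), (∀ X ∈ H, ∀ Y ∈ H, X * Y - Y * X ∈ H) →
    (∀ v : Fin (s + 1) → Matrix (Fin n) (Fin n) ℂ, (∀ j, v j ∈ 𝒩) → ¬ LinearIndependent ℂ (fun j => H.mkQ (v j))) → 𝒩 ⊆ H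

/-- the condition in terms of dimensions -/
theorem noSub_of {n : ℕ} {s : ℕ} {𝒩 : Set (Matrix (Fin n) (Fin n) ℂ)}
    (hbr : ∀ A ∈ Submodule.span ℂ 𝒩, ∀ B ∈ Submodule.span ℂ 𝒩, A * B - B * A ∈ Submodule.span ℂ 𝒩)
    (h : ∀ H : Submodule ℂ (Matrix (Fin n) (Fin n) ℂ), H ≤ Submodule.span ℂ 𝒩 → (∀ X ∈ H, ∀ Y ∈ H, X * Y - Y * X ∈ H) →
      Module.finrank ℂ (Submodule.span ℂ 𝒩) ≤ Module.finrank ℂ H + s → H = Submodule.span ℂ 𝒩) : NoSub s 𝒩 := by
  classical
  intro H hH hv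
  set L := Submodule.span ℂ 𝒩 with hL
  have h1 : H ⊓ L = L := by
    refine h (H ⊓ L) inf_le_right (fun X hX Y hY => ⟨hH X hX.1 Y hY.1, hbr X hX.2 Y hY.2⟩) ?_
    -- the dimension of the image in the quotient
    have h2 : Module.finrank ℂ (L.map H.mkQ) ≤ s := by
      by_contra hcon
      push Not at hcon
      have h3 : L.map H.mkQ = Submodule.span ℂ (H.mkQ '' 𝒩) := by rw [hL, Submodule.map_span]
      obtain ⟨f, hf1, -, hf3⟩ := Submodule.exists_fun_fin_finrank_span_eq ℂ (H.mkQ '' 𝒩)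
      choose v hv1 hv2 using hf1
      have hle : s + 1 ≤ Module.finrank ℂ (Submodule.span ℂ (H.mkQ '' 𝒩)) := by
        rw [← h3]
        exact hcon
      refine hv (fun j => v (Fin.castLE hle j)) (fun j => hv1 _) ?_
      have h4 : (fun j : Fin (s + 1) => H.mkQ (v (Fin.castLE hle j))) = fun j => f (Fin.castLE hle j) := by
        funext j
        exact hv2 _
      rw [h4]
      exact hf3.comp _ (Fin.castLE_injective hle)
    have h5 : Module.finrank ℂ (L.map H.mkQ) + Module.finrank ℂ (H ⊓ L : Submodule ℂ (Matrix (Fin n) (Fin n) ℂ)) =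
        Module.finrank ℂ L := by
      have h6 := LinearMap.finrank_range_add_finrank_ker (H.mkQ.domRestrict L)
      rw [LinearMap.range_domRestrict, LinearMap.ker_domRestrict, Submodule.ker_mkQ] at h6
      rw [← h6]
      congr 1
      have h7 : (H.comap L.subtype).map L.subtype = H ⊓ L := by
        rw [Submodule.map_comap_subtype, inf_comm]
      rw [← h7]
      exact Submodule.finrank_map_subtype_eq L _
    omega
  intro N hN
  have h2 : N ∈ H ⊓ L := by
    rw [h1]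
    exact Submodule.subset_span hN
  exact h2.1

end Pool.Agent.T44.GF
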